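import Pool.Agent.TGL.F7
import Pool.Agent.TGL.H21

/-!
# TGS: an absolute bound for the systole of torsion generated lattices (definitions)

Built on the library TGL of helper42.
-/

set_option autoImplicit false
open Set Pool.Agent.TGL

namespace Pool.Agent.TGS

variable {n : ℕ}

/-- Chord distance of two tangent vectors (the norm of `u - v` for the positive definite form `-q`
on the tangent space). -/
noncomputable def chd (u v : Fin (n+1) → ℝ) : ℝ := Real.sqrt (-q (u - v) (u - v))

/-- `y` is a hair point (for the local group at scale `ρ`): in polar coordinates `y = ray c u s`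
around a fixed point `c` of the local group at `y`, the orbit of the direction `u` is
`exp (-s-1)`-dense in the unit tangent sphere at `c`. -/
def Hair (Γ : Subgroup (GLn n)) (ρ : ℝ) (y : Fin (n+1) → ℝ) : Prop :=
  ∃ c ∈ Hyp n, ∃ u, IsUT c u ∧ ∃ s : ℝ, 0 ≤ s ∧ y = ray c u s ∧
    (∀ g ∈ loc Γ ρ y, ac g c = c) ∧
    ∀ v, IsUT c v → ∃ g ∈ loc Γ ρ y, chd (ac g u) v ≤ Real.exp (-s - 1)

/-- `g` is not (visibly) hyperbolic: `d(y, g² y) ≤ d(y, g y) + 4` for all `y`. -/
def Ell (g : GLn n) : Prop := ∀ y ∈ Hyp n, hd y (ac (g * g) y) ≤ hd y (ac g y) + 4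

end Pool.Agent.TGS
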