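import Pool.Agent.TGL.B2
import Pool.Agent.TGS.Defs

set_option autoImplicit false
open Set Pool.Agent.TGL

namespace Pool.Agent.TGS

variable {E : Type*} {D d : E → E → ℝ}

/-- Variant of `Pool.Agent.TGL.long_path` (helper42): no dead ends only on a core. -/
theorem long_path_core {δ κ μ K Λ L R B : ℝ} (hc : Cst δ κ μ K Λ L R B) (hD : PMet D) (hd : PMet d)
    (hLH : LH D R δ) (o : E)
    (hlift : ∀ x y : E, ∃ w, D w y = 0 ∧ ∃ g, Both D d g x w)
    (Co : E → Prop) (hCo : ∀ x y, D x y = 0 → Co x → Co y) (hCoo : Co o)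
    (hNDE : ∀ y : E, Co y → ∃ z z', Co z ∧ Co z' ∧ Λ / 2 ≤ D y z ∧ D y z ≤ 3 * Λ ∧
      Λ / 2 ≤ D y z' ∧ D y z' ≤ 3 * Λ ∧ gp D z z' y ≤ κ - δ) (T0 : ℝ) :
    ∃ P : Pth D o K L, d (P.p 0) o = 0 ∧ T0 ≤ P.T ∧
      ∀ s ∈ Icc (0 : ℝ) P.T, ∀ t ∈ Icc (0 : ℝ) P.T, d (P.p s) (P.p t) ≤ |s - t| := by
  have hc' := hc
  obtain ⟨hδ, hκ, hμ, hK, hΛ, hL, hR, hB⟩ := hc
  have hKnn : 0 ≤ K := by rw [hK]; nlinarith
  have hΛ0 : 0 < Λ := by linarith
  have hRΛ : 100000 * Λ ≤ R := by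
    rw [hL] at hR
    linarith
  have next : ∀ p : E × E, D p.1 p.2 ≤ 3 * Λ ∧ Co p.2 → ∃ w, Λ / 2 ≤ D p.2 w ∧
      (D p.2 w ≤ 3 * Λ ∧ Co w) ∧ gp D p.1 w p.2 ≤ κ ∧ ∃ g, Both D d g p.2 w := by
    rintro ⟨a, y⟩ ⟨hay, hCy⟩
    simp only at hay hCy ⊢
    obtain ⟨z, z', c1, c2, h1, h2, h3, h4, h5⟩ := hNDE y hCy
    have hz : ∃ z, Λ / 2 ≤ D y z ∧ D y z ≤ 3 * Λ ∧ gp D a z y ≤ κ ∧ Co z := by
      have t1 := hD.tri z y a
      have t2 := hD.tri z y z'
      have t3 := hD.tri a y z'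
      rw [hD.symm z y] at t1 t2
      rw [hD.symm y a] at t1
      have h6 := gp_hyp hD hLH z a z' y (by linarith) (by linarith) (by linarith)
        (by rw [hD.symm]; linarith) (by linarith) (by rw [hD.symm]; linarith)
      rcases min_choice (gp D z a y) (gp D a z' y) with h7 | h7
      · rw [h7] at h6
        exact ⟨z, h1, h2, by rw [gp_comm hD]; linarith, c1⟩
      · rw [h7] at h6
        exact ⟨z', h3, h4, by linarith, c2⟩
    obtain ⟨z, h1, h2, h6, c3⟩ := hz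
    obtain ⟨w, hw, hg⟩ := hlift y z
    have e1 : D y w = D y z := hD.eq_right hw y
    refine ⟨w, by rw [e1]; exact h1, ⟨by rw [e1]; exact h2, hCo z w (by rw [hD.symm]; exact hw) c3⟩, ?_, hg⟩
    unfold gp at h6 ⊢
    rw [hD.eq_left hw, hD.eq_right hw]
    exact h6
  have : Nonempty E := ⟨o⟩
  choose! N hN1 hN2 hN3 G hG using next
  set st : ℕ → E × E := fun a => Nat.rec (o, o) (fun _ p => (p.2, N p)) a with hst
  have st0 : st 0 = (o, o) := rfl
  have stS : ∀ a, st (a + 1) = ((st a).2, N (st a)) := fun a => rfl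
  set u : ℕ → E := fun a => (st a).2 with hu
  have hst3 : ∀ a, D (st a).1 (st a).2 ≤ 3 * Λ ∧ Co (st a).2 := by
    intro a
    induction a with
    | zero =>
      rw [st0]
      simp only
      rw [hD.self]
      exact ⟨by linarith, hCoo⟩
    | succ a ih =>
      rw [stS]
      exact hN2 _ ih
  have uS : ∀ a, u (a + 1) = N (st a) := fun a => rfl
  have l1 : ∀ a, Λ / 2 ≤ D (u a) (u (a + 1)) := fun a => hN1 _ (hst3 a)
  have l2 : ∀ a, D (u a) (u (a + 1)) ≤ 3 * Λ := fun a => (hN2 _ (hst3 a)).1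
  have l3 : ∀ a, gp D (u a) (u (a + 2)) (u (a + 1)) ≤ κ := by
    intro a
    have := hN3 _ (hst3 (a + 1))
    rw [stS a] at this
    have e : u (a + 2) = N (st (a + 1)) := rfl
    rw [e, stS a]
    exact this
  have l4 : ∀ a, Both D d (G (st a)) (u a) (u (a + 1)) := fun a => hG _ (hst3 a)
  set g : ℕ → ℝ → E := fun a => G (st a) with hg
  have hgeod : ∀ a, IsGeod D (g a) (D (u a) (u (a + 1))) (u a) (u (a + 1)) := by
    intro a
    refine ⟨hD.nonneg _ _, ?_, ?_, (l4 a).distD⟩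
    · show D (G (st a) 0) (u a) = 0
      rw [(l4 a).left, hD.self]
    · show D (G (st a) (D (u a) (u (a + 1)))) (u (a + 1)) = 0
      rw [(l4 a).right, hD.self]
  obtain ⟨m, hm⟩ := exists_nat_ge (max (2 * T0 / Λ) 1)
  have hm1 : 1 ≤ m := by
    have : (1 : ℝ) ≤ (m : ℝ) := (le_max_right _ _).trans hm
    exact_mod_cast this
  have hmT : 2 * T0 / Λ ≤ (m : ℝ) := (le_max_left _ _).trans hm
  obtain ⟨P, hPT, hPp⟩ := bg hc' hD hLH o u g m hm1 (by
      show D (st 0).2 o = 0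
      rw [st0]
      exact hD.self o) (fun a _ => hgeod a) (fun a _ => l2 a) (fun a _ => l1 a) (fun a _ => l3 a)
  set l : ℕ → ℝ := fun a => D (u a) (u (a + 1)) with hl
  have hl0 : ∀ j, 0 ≤ l j := fun j => hD.nonneg _ _
  have hg1 : ∀ a < m, ∀ s ∈ Icc (0 : ℝ) (l a), ∀ t ∈ Icc (0 : ℝ) (l a),
      d (g a s) (g a t) ≤ |s - t| := fun a _ s hs t ht => ((l4 a).distd s hs t ht).le
  have hgg : ∀ a, a + 1 < m → d (g a (l a)) (g (a + 1) 0) = 0 := by
    intro a _
    have e1 : g a (l a) = u (a + 1) := (l4 a).right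
    have e2 : g (a + 1) 0 = u (a + 1) := (l4 (a + 1)).left
    rw [e1, e2, hd.self]
  refine ⟨P, ?_, ?_, ?_⟩
  · have e1 := cat_eq hd hl0 hm1 hg1 hgg 0 (by omega) 0 ⟨le_rfl, hl0 0⟩
    rw [Sm_zero, add_zero] at e1
    rw [hPp, hd.eq_left e1]
    have e2 : g 0 0 = u 0 := (l4 0).left
    rw [e2]
    exact hd.self o
  · rw [hPT]
    have : ∀ k : ℕ, (k : ℝ) * (Λ / 2) ≤ Sm l k := by
      intro k
      induction k with
      | zero => rw [Sm_zero]; simp
      | succ k ih =>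
        rw [Sm_succ]
        have e : Λ / 2 ≤ l k := l1 k
        push_cast
        linarith
    have e1 := this m
    rw [div_le_iff₀ hΛ0] at hmT
    linarith
  · rw [hPT, hPp]
    exact cat_lip hd hl0 hm1 hg1 hgg


/-- Variant of `Pool.Agent.TGL.coarse_main` (helper42) with a core. Main coarse theorem: a group of deck transformations generated by elements with fixed points
cannot have bounded quotient if the quotient is locally hyperbolic at a large scale and has no dead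
ends. -/
theorem coarse_main_core {δ κ μ K Λ L R B : ℝ} (hc : Cst δ κ μ K Λ L R B) (hD : PMet D) (hd : PMet d)
    (hDd : ∀ x y, D x y ≤ d x y) (hLH : LH D R δ) {o : E} {hh : ℝ → E → E} (hcone : Cone d o hh)
    {G : Type*} [Group G] (act : G → E → E) (hact1 : ∀ x, act 1 x = x)
    (hactm : ∀ a b x, act (a * b) x = act a (act b x))
    (hGd : ∀ γ x y, d (act γ x) (act γ y) = d x y) (hGD : ∀ γ x, D (act γ x) x = 0)
    (hnear : ∀ x y, ∃ γ, ∃ g, Both D d g x (act γ y))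
    (hgen : ∀ Pr : G → Prop, (∀ γ, (∃ c, act γ c = c) → Pr γ) → Pr 1 →
      (∀ a b, Pr a → Pr b → Pr (a * b)) → (∀ a, Pr a → Pr a⁻¹) → ∀ γ, Pr γ)
    (Co : E → Prop) (hCo : ∀ x y, D x y = 0 → Co x → Co y) (hCoo : Co o)
    (hNDE : ∀ y : E, Co y → ∃ z z', Co z ∧ Co z' ∧ Λ / 2 ≤ D y z ∧ D y z ≤ 3 * Λ ∧
      Λ / 2 ≤ D y z' ∧ D y z' ≤ 3 * Λ ∧ gp D z z' y ≤ κ - δ) (Δ : ℝ) (hΔ : ∀ x, D o x ≤ Δ) : False := by
  have hμ := hc.hμ
  have hKnn : 0 ≤ K := by
    have h1 := hc.hK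
    have h2 := hc.hδ
    have h3 := hc.hκ
    rw [h1]
    nlinarith
  have hlift : ∀ x y : E, ∃ w, D w y = 0 ∧ ∃ g, Both D d g x w := by
    intro x y
    obtain ⟨γ, g, hg⟩ := hnear x y
    exact ⟨act γ y, hGD γ y, g, hg⟩
  have hgeo : ∀ x y, ∃ g, IsGeod D g (D x y) x y := by
    intro x y
    obtain ⟨w, hw, g, hg⟩ := hlift x y
    have e : D x w = D x y := hD.eq_right hw x
    refine ⟨g, hD.nonneg _ _, ?_, ?_, ?_⟩
    · rw [hg.left, hD.self]
    · rw [← e, hg.right]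
      exact hw
    · rw [← e]
      exact hg.distD
  have hM := mono_pth hc hD hd hDd hLH hgeo o
  set P0 : Pth D o K L := ⟨fun _ => o, 0, le_rfl, hD.self o, by
      intro s hs t ht
      rw [hD.self]
      exact abs_nonneg _, by
      intro s hs t ht _
      have e1 : s = 0 := le_antisymm hs.2 hs.1
      have e2 : t = 0 := le_antisymm ht.2 ht.1
      rw [hD.self, e1, e2, sub_self, abs_zero]
      linarith⟩ with hP0
  obtain ⟨T, hT1, hT2, hT3⟩ := hM.exists_section hcone P0 (hD.self o)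
  -- deck invariance
  have hdeck : ∀ γ : G, ∀ z, Sim B Λ (T (act γ z)) (T z) := by
    apply hgen (fun γ => ∀ z, Sim B Λ (T (act γ z)) (T z))
    · rintro γ ⟨c, hcc⟩ z
      refine propagate hμ hcone (fun z => Sim B Λ (T (act γ z)) (T z)) ?_ c ?_ z
      · intro z w hz hzw
        refine hM.trans4 _ _ _ _ (hT2 (act γ w) (act γ z) ?_) hz (hT2 z w hzw) ?_
        · rw [hGd, hd.symm]
          exact hzw
        · rw [hD.eq_left (hT1 _), hD.eq_right (hT1 _), hGD]
          exact hμ.le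
      · show Sim B Λ (T (act γ c)) (T c)
        rw [hcc]
        exact hM.refl _
    · intro z
      rw [hact1]
      exact hM.refl _
    · intro a b ha hb z
      refine hM.trans3 (P2 := T (act b z)) ?_ (hb z) ?_
      · rw [hactm]
        exact ha _
      · rw [hD.eq_left (hT1 _), hD.eq_right (hT1 _), hactm, hD.eq_left (hGD a _), hGD]
        exact hμ.le
    · intro a ha z
      have := ha (act a⁻¹ z)
      rw [← hactm, mul_inv_cancel, hact1] at this
      exact this.symm hD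
  obtain ⟨P, hPs, hPT, hPl⟩ := long_path_core hc hD hd hLH o hlift Co hCo hCoo hNDE (2 * Δ + Λ + 1)
  obtain ⟨γ, g, hg⟩ := hnear o P.fin
  set l := D o (act γ P.fin) with hl
  have hl0 : 0 ≤ l := hD.nonneg _ _
  have hlΔ : l ≤ Δ := by
    rw [hl, hD.eq_right (hGD γ _)]
    exact hΔ _
  set Q : Pth D o K L := ⟨g, l, hl0, by rw [hg.left, hD.self],
    fun s hs t ht => (hg.distD s hs t ht).le, by
      intro s hs t ht _
      rw [hg.distD s hs t ht]
      linarith⟩ with hQ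
  have hQfin : Q.fin = act γ P.fin := hg.right
  have s1 := section_path hc hD hd hDd hLH hgeo T hT1 hT2 P0 rfl hT3 P hPs hPl
  have s2 := section_path hc hD hd hDd hLH hgeo T hT1 hT2 P0 rfl hT3 Q
    (by show d (g 0) o = 0; rw [hg.left, hd.self]) (fun s hs t ht => (hg.distd s hs t ht).le)
  rw [hQfin] at s2
  have s3 := hM.trans4 _ _ _ _ (s1.symm hD) ((hdeck γ P.fin).symm hD) s2 (by
    rw [hQfin, hD.symm, hGD]
    exact hμ.le)
  have s4 := Sim.len s3
  have : Q.T = l := rfl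
  rw [this] at s4
  linarith

end Pool.Agent.TGS
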