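import Pool.Agent.TGS.T3
import Pool.Agent.TGS.S12

set_option autoImplicit false
open Set Pool.Agent.TGL

namespace Pool.Agent.TGS

/-- Absolute bound for the systole of torsion generated cocompact lattices, in all dimensions. -/
theorem systole : ∃ C : ℝ, 0 < C ∧ ∀ (n : ℕ), 2 ≤ n → ∀ (Γ : Subgroup (GLn n)), IsoGrp Γ →
    PrDisc Γ → Cocpt Γ → TorGen Γ → ∃ g ∈ Γ, ¬ Ell g ∧ ∃ x ∈ Hyp n, hd x (ac g x) ≤ C := by
  obtain ⟨ρ, hρ, h⟩ := geometric_core
  refine ⟨max (2 * ρ) 372, lt_of_lt_of_le (by norm_num) (le_max_right _ _), ?_⟩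
  intro n hn Γ hΓ hpd hco htg
  by_contra hcon
  apply h n hn Γ hΓ hpd hco htg
  intro x hx
  refine loc_finite_of_ell (by omega) hΓ hpd hco (le_max_left _ _) (le_max_right _ _) hρ.le ?_ hx
  intro g hg hgx
  by_contra he
  exact hcon ⟨g, hg, he, hgx⟩

end Pool.Agent.TGS
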