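import Pool.Agent.TGS.Z1
import Pool.Agent.TGS.D1
import Pool.Agent.TGS.T5

set_option autoImplicit false
open Set Pool.Agent.TGL

namespace Pool.Agent.TGS

theorem nf_of_fd {K : IntermediateField ℚ ℝ} {τ : ℝ} (hfd : FiniteDimensional ℚ K)
    (hint : IsIntegral ℤ τ) : FiniteDimensional K (Lf K τ) ∧ NumberField (Lf K τ) := by
  have h1 : IsIntegral K τ := hint.tower_top
  have h2 : FiniteDimensional K (Lf K τ) := IntermediateField.adjoin.finiteDimensional h1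
  refine ⟨h2, ?_⟩
  have h3 : FiniteDimensional ℚ (Lf K τ) := FiniteDimensional.trans ℚ K (Lf K τ)
  exact { to_charZero := inferInstance, to_finiteDimensional := h3 }

theorem disc_sal {K : IntermediateField ℚ ℝ} [NumberField K] {N : ℕ} {μ : ℝ} {ι : Type} [Fintype ι]
    {l : ι → ℂ} {a : ι} {p : ℕ → ℝ} (hS : Sal K N μ ι l a p) {B : ℝ} (hB : μ ≤ B) :
    (|NumberField.discr K| : ℝ) ≤ (4 * (Module.finrank ℚ K * N : ℝ) * B ^ 2) ^ Module.finrank ℚ K := by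
  set τ : ℝ := μ + μ⁻¹ with hτ
  have hμ := hS.one_lt
  have hμ0 : 0 < μ := by linarith
  have hint : IsIntegral ℤ τ := hS.int_tau
  have hτ2 : 2 < τ := by
    have h1 : 0 < (μ - 1) ^ 2 := by have : μ - 1 ≠ 0 := by linarith
                                    positivity
    have h2 : μ * μ⁻¹ = 1 := mul_inv_cancel₀ hμ0.ne'
    have h3 : 0 < μ⁻¹ := inv_pos.mpr hμ0
    have h4 : 0 < μ⁻¹ * (μ - 1) ^ 2 := by positivity
    have h5 : μ⁻¹ * (μ - 1) ^ 2 = τ - 2 := by rw [hτ]; field_simp; ring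
    linarith
  obtain ⟨hfd, hnf⟩ := nf_of_fd (K := K) inferInstance hint
  obtain ⟨hA, S, hScard, hSB⟩ := hS.emb (τ := τ) hτ
  have hz2 : ∀ z : ℂ, ‖z‖ = 1 → ‖z + z⁻¹‖ ≤ 2 := by
    intro z hz
    calc ‖z + z⁻¹‖ ≤ ‖z‖ + ‖z⁻¹‖ := norm_add_le _ _
      _ = 2 := by rw [norm_inv, hz]; norm_num
  have hinj := emb_inj K hτ2 hint (fun φ hφ => by
    obtain ⟨z, hz, hz'⟩ := hA φ hφ
    rw [hz']; exact hz2 z hz)
  have hdeg := degree_le K hint hScard (fun φ hφ => (hSB φ hφ).1)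
  have hgint : IsIntegral ℤ (gn K τ) := by
    have : IsIntegral ℤ (algebraMap (Lf K τ) ℝ (gn K τ)) := by
      rw [IntermediateField.AdjoinSimple.algebraMap_gen]
      exact hint
    exact (isIntegral_algebraMap_iff (algebraMap (Lf K τ) ℝ).injective).mp this
  have hval : ∀ φ : Lf K τ →+* ℂ, φ (gn K τ) = ((μ + μ⁻¹ : ℝ) : ℂ) ∨
      ∃ z : ℂ, ‖z‖ = 1 ∧ φ (gn K τ) = z + z⁻¹ := by
    intro φ
    by_cases hφ : ∀ x : K, φ (algebraMap K (Lf K τ) x) = ((x : ℝ) : ℂ)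
    · exact (hSB φ hφ).2
    · push Not at hφ
      exact Or.inr (hA φ hφ)
  have hd := discr_le hgint hinj hμ hval
  have hp := discr_pow_le (K := K) (L := Lf K τ)
  set d := Module.finrank ℚ K with hd0
  set m := Module.finrank K (Lf K τ) with hm0
  have hdm : d * m = Module.finrank ℚ (Lf K τ) := Module.finrank_mul_finrank ℚ K (Lf K τ)
  have hm : 0 < m := Module.finrank_pos
  have hdpos : 0 < d := Module.finrank_pos
  have hX : (0:ℝ) ≤ 4 * (d * N : ℝ) * B ^ 2 := by positivity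
  have h1 : (4 * (Module.finrank ℚ (Lf K τ) : ℝ) * μ ^ 2) ≤ 4 * (d * N : ℝ) * B ^ 2 := by
    rw [← hdm]
    have h2 : ((d * m : ℕ) : ℝ) ≤ d * N := by
      push_cast
      have : (m : ℝ) ≤ N := by exact_mod_cast hdeg
      gcongr
    have h3 : μ ^ 2 ≤ B ^ 2 := by gcongr
    gcongr
  have h2 : (|NumberField.discr K| : ℝ) ^ m ≤ ((4 * (d * N : ℝ) * B ^ 2) ^ d) ^ m := by
    calc (|NumberField.discr K| : ℝ) ^ m ≤ (|NumberField.discr (Lf K τ)| : ℝ) := hp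
      _ ≤ (4 * (Module.finrank ℚ (Lf K τ) : ℝ) * μ ^ 2) ^ Module.finrank ℚ (Lf K τ) := hd
      _ ≤ (4 * (d * N : ℝ) * B ^ 2) ^ Module.finrank ℚ (Lf K τ) := by
          gcongr
      _ = ((4 * (d * N : ℝ) * B ^ 2) ^ d) ^ m := by rw [← hdm, pow_mul]
  exact le_of_pow_le_pow_left₀ hm.ne' (by positivity) h2

theorem disc_core : ∃ C : ℝ, 0 < C ∧ ∀ n : ℕ, 2 ≤ n → ∀ Γ : Subgroup (GLn n), IsoGrp Γ →
    PrDisc Γ → Cocpt Γ → TorGen Γ → ∀ (K : IntermediateField ℚ ℝ) [NumberField K],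
      ArithOver Γ K →
        (|NumberField.discr K| : ℝ) ≤ (C * n * Module.finrank ℚ K) ^ Module.finrank ℚ K := by
  obtain ⟨C, hC, h⟩ := systole
  refine ⟨8 * Real.exp (2 * C) ^ 2, by positivity, ?_⟩
  intro n hn Γ hΓ hpd hco htg K _ hA
  obtain ⟨g, hg, he, x, hx, hgx⟩ := h n hn Γ hΓ hpd hco htg
  obtain ⟨ι, hι, l, a, p, μ, hS, hμ⟩ := exists_sal hΓ hA hg he hx hgx
  refine (disc_sal hS hμ).trans ?_
  have hn1 : ((n + 1 : ℕ) : ℝ) ≤ 2 * n := by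
    push_cast
    have : (2 : ℝ) ≤ n := by exact_mod_cast hn
    linarith
  have h1 : 4 * ((Module.finrank ℚ K : ℝ) * ((n + 1 : ℕ) : ℝ)) * Real.exp (2 * C) ^ 2 ≤
      8 * Real.exp (2 * C) ^ 2 * n * Module.finrank ℚ K := by
    calc 4 * ((Module.finrank ℚ K : ℝ) * ((n + 1 : ℕ) : ℝ)) * Real.exp (2 * C) ^ 2 ≤
        4 * ((Module.finrank ℚ K : ℝ) * (2 * n)) * Real.exp (2 * C) ^ 2 := by gcongr
      _ = _ := by ring
  gcongr

end Pool.Agent.TGS
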