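import Pool.Agent.TGS.X1
import Pool.Agent.ZPB.A1

set_option autoImplicit false
open Set Pool.Agent.TGL Polynomial

namespace Pool.Agent.TGS

/-- Row TGS-D1a. `τ` generates `L = K(τ)` over `ℚ`: embeddings of `L` in `ℂ` are determined by the
image of `τ`, provided `τ > 2` and embeddings moving `K` send `τ` to a number of absolute value
`≤ 2`.

Proof. Let `φ τ = φ' τ`. `L` is finite over `ℚ`; let `L' := L.restrictScalars ℚ` as in
`Sal.emb`, `Ω := algebraicClosure ℚ ℂ`. By `exists_ext` there is `σ : Ω →ₐ[ℚ] ℂ` with `σ ∘ incl = φ`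
on `L`. The image of `σ` lies in `Ω` (algebraic elements) and is all of `Ω`: an algebraic extension
has only bijective endomorphisms (`Algebra.IsAlgebraic.algHom_bijective`), so `σ` induces an
automorphism `s` of `Ω` (`AlgEquiv.ofBijective`, codomain restricted with
`AlgHom.codRestrict`). `φ'` has values in `Ω` too (elements of `L` are algebraic). Let
`ψ := s⁻¹ ∘ φ' : L → Ω ⊆ ℂ`. Then `ψ τ = s⁻¹ (φ' τ) = s⁻¹ (φ τ) = τ` has absolute value `τ > 2`, so by
`hA` (contrapositive) `ψ` is the inclusion on `K`. Then `ψ` and the inclusion `L → ℂ` are two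
`K`-algebra homs (`K → ℂ` by the inclusion) agreeing on the generator, so they agree on `L`
(`IntermediateField.algHom_ext_of_eq_adjoin` or `IntermediateField.adjoin_induction`). Hence
`φ' = s ∘ ψ = s ∘ incl = φ`.
(Alternative: show that the minimal polynomial argument `Field.primitive_element_iff_...`; any proof
is fine.) -/
theorem emb_inj (K : IntermediateField ℚ ℝ) [FiniteDimensional ℚ K] {τ : ℝ} (hτ : 2 < τ)
    (hint : IsIntegral ℤ τ)
    (hA : ∀ φ : Lf K τ →+* ℂ, (∃ x : K, φ (algebraMap K (Lf K τ) x) ≠ ((x : ℝ) : ℂ)) →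
      ‖φ (gn K τ)‖ ≤ 2) (φ φ' : Lf K τ →+* ℂ) (h : φ (gn K τ) = φ' (gn K τ)) : φ = φ' := by
  have hK : IsIntegral K τ := hint.tower_top
  have hfd : FiniteDimensional K (Lf K τ) := IntermediateField.adjoin.finiteDimensional hK
  have hfdQ : FiniteDimensional ℚ (Lf K τ) := FiniteDimensional.trans ℚ K (Lf K τ)
  let F : IntermediateField ℚ (Lf K τ) := IntermediateField.adjoin ℚ {gn K τ}
  have hgF : gn K τ ∈ F := IntermediateField.mem_adjoin_simple_self ℚ (gn K τ)
  have hfdF : FiniteDimensional F (Lf K τ) := inferInstance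
  have hsF : Algebra.IsSeparable F (Lf K τ) := inferInstance
  have e : Fintype.card (Lf K τ →ₐ[F] ℂ) = Module.finrank F (Lf K τ) :=
    AlgHom.card F (Lf K τ) ℂ
  have hval : ∀ ψ : Lf K τ →ₐ[F] ℂ, ψ (gn K τ) = ((τ : ℝ) : ℂ) := by
    intro ψ
    exact ψ.commutes ⟨gn K τ, hgF⟩
  have hincl : ∀ ψ : Lf K τ →ₐ[F] ℂ, ∀ x : K, ψ (algebraMap K (Lf K τ) x) = ((x : ℝ) : ℂ) := by
    intro ψ x
    by_contra hx
    have h1 := hA ψ.toRingHom ⟨x, hx⟩
    have h2 : ‖ψ (gn K τ)‖ ≤ 2 := h1
    rw [hval ψ, Complex.norm_real, Real.norm_eq_abs, abs_of_pos (by linarith)] at h2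
    linarith
  have hsub : ∀ ψ ψ' : Lf K τ →ₐ[F] ℂ, ψ = ψ' := by
    intro ψ ψ'
    let χ : Lf K τ →ₐ[K] ℂ := { ψ.toRingHom with commutes' := hincl ψ }
    let χ' : Lf K τ →ₐ[K] ℂ := { ψ'.toRingHom with commutes' := hincl ψ' }
    have h1 : χ = χ' := by
      refine (IntermediateField.adjoin.powerBasis hK).algHom_ext ?_
      rw [IntermediateField.adjoin.powerBasis_gen]
      exact (hval ψ).trans (hval ψ').symm
    ext x
    exact DFunLike.congr_fun h1 x
  have hcard : Module.finrank F (Lf K τ) = 1 := by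
    have h1 : Fintype.card (Lf K τ →ₐ[F] ℂ) ≤ 1 :=
      Fintype.card_le_one_iff.2 hsub
    have h2 : 0 < Module.finrank F (Lf K τ) := Module.finrank_pos
    omega
  have htop : F = ⊤ := IntermediateField.finrank_eq_one_iff_eq_top.1 hcard
  have hall : ∀ x ∈ F, φ x = φ' x := by
    intro x hx
    refine IntermediateField.adjoin_induction ℚ (p := fun y _ => φ y = φ' y) ?_ ?_ ?_ ?_ ?_ hx
    · intro y hy
      rw [Set.mem_singleton_iff.1 hy]
      exact h
    · intro y
      rw [eq_ratCast, map_ratCast, map_ratCast]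
    · intro y z _ _ hy hz
      rw [map_add, map_add, hy, hz]
    · intro y _ hy
      rw [map_inv₀, map_inv₀, hy]
    · intro y z _ _ hy hz
      rw [map_mul, map_mul, hy, hz]
  ext x
  exact hall x (htop ▸ IntermediateField.mem_top)

end Pool.Agent.TGS
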