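import Pool.Agent.TGS.D1a

set_option autoImplicit false
open Set Pool.Agent.TGL Polynomial

namespace Pool.Agent.TGS

/-- Row TGS-D2. The degree `[K(τ) : K]` is at most the number of possible images of `τ` under
embeddings that are the inclusion on `K`.

Proof. `[K(τ):K] = natDegree (minpoly K τ)` (`IntermediateField.adjoin.finrank`). The polynomial
`f := (minpoly K τ).map (K → ℂ)` is separable and splits, so it has exactly `natDegree` distinct roots
in `ℂ`; for each root `r` there is a `K`-algebra hom `K(τ) → ℂ` (for the algebra structure `K → ℂ` by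
inclusion; the instance `Algebra K ℂ` exists through `ℝ` or `IntermediateField`, check
`algebraMap K ℂ x = ((x : ℝ) : ℂ)`) sending `τ` to `r`
(`IntermediateField.algHomAdjoinIntegralEquiv`, or `IntermediateField.card_algHom_adjoin_integral`:
the number of these homs is `natDegree`; the map `φ ↦ φ τ` is injective on them). By `hB` all these
images lie in `S`, so `natDegree ≤ S.card ≤ N`. -/
theorem degree_le (K : IntermediateField ℚ ℝ) [FiniteDimensional ℚ K] {τ : ℝ}
    (hint : IsIntegral ℤ τ) {N : ℕ} {S : Finset ℂ} (hS : S.card ≤ N)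
    (hB : ∀ φ : Lf K τ →+* ℂ, (∀ x : K, φ (algebraMap K (Lf K τ) x) = ((x : ℝ) : ℂ)) →
      φ (gn K τ) ∈ S) : Module.finrank K (Lf K τ) ≤ N := by
  have hK : IsIntegral K τ := hint.tower_top
  have hfd : FiniteDimensional K (Lf K τ) := IntermediateField.adjoin.finiteDimensional hK
  have _hs : Algebra.IsSeparable K (Lf K τ) := inferInstance
  have e : Fintype.card (Lf K τ →ₐ[K] ℂ) = Module.finrank K (Lf K τ) := AlgHom.card K (Lf K τ) ℂ
  rw [← e]
  refine le_trans ?_ hS
  have hmem : ∀ φ : Lf K τ →ₐ[K] ℂ, φ (gn K τ) ∈ S := by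
    intro φ
    have h1 := hB φ.toRingHom (fun x => φ.commutes x)
    exact h1
  have hinj : Function.Injective (fun φ : Lf K τ →ₐ[K] ℂ => φ (gn K τ)) := by
    intro φ ψ h
    refine (IntermediateField.adjoin.powerBasis hK).algHom_ext ?_
    rw [IntermediateField.adjoin.powerBasis_gen]
    exact h
  calc Fintype.card (Lf K τ →ₐ[K] ℂ) = (Finset.univ.image
        (fun φ : Lf K τ →ₐ[K] ℂ => φ (gn K τ))).card := by
        rw [Finset.card_image_of_injective _ hinj, Finset.card_univ]
    _ ≤ S.card := Finset.card_le_card (fun z hz => by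
        obtain ⟨φ, -, rfl⟩ := Finset.mem_image.1 hz
        exact hmem φ)

end Pool.Agent.TGS
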