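import Pool.Agent.TGS.D2

set_option autoImplicit false
open Set Pool.Agent.TGL Polynomial

namespace Pool.Agent.TGS

theorem D3a_step {p q : ℤ[X]} {n : ℕ} (hp : p.Monic) (hpd : p.natDegree = n + 2)
    (hqd : q.natDegree ≤ n + 1) :
    (X * p - C (1 : ℤ) * q).Monic ∧ (X * p - C (1 : ℤ) * q).natDegree = n + 3 := by
  have h1 : (X * p).Monic := monic_X.mul hp
  have h2 : (X * p).natDegree = n + 3 := by
    rw [monic_X.natDegree_mul hp, natDegree_X, hpd]
    ring
  have h3 : (C (1 : ℤ) * q).natDegree ≤ n + 1 := (natDegree_C_mul_le _ _).trans hqd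
  have h4 : (C (1 : ℤ) * q).natDegree < (X * p).natDegree := by omega
  constructor
  · exact h1.sub_of_left (degree_lt_degree h4)
  · rw [natDegree_sub_eq_left_of_natDegree_lt h4, h2]

theorem D3a_dick (n : ℕ) :
    ((dickson 1 (1 : ℤ) (n + 1)).Monic ∧ (dickson 1 (1 : ℤ) (n + 1)).natDegree = n + 1) ∧
      ((dickson 1 (1 : ℤ) (n + 2)).Monic ∧ (dickson 1 (1 : ℤ) (n + 2)).natDegree = n + 2) := by
  induction n with
  | zero =>
    have e1 : dickson 1 (1 : ℤ) (0 + 1) = X := dickson_one 1 1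
    have e2 : dickson 1 (1 : ℤ) (0 + 2) = X ^ 2 - C 2 := by
      have := dickson_two 1 (1 : ℤ)
      rw [zero_add, this]
      congr 1
      rw [C_1, one_mul]
      norm_num
    refine ⟨⟨?_, ?_⟩, ?_, ?_⟩
    · rw [e1]; exact monic_X
    · rw [e1]; exact natDegree_X
    · rw [e2]; exact monic_X_pow_sub_C 2 (by norm_num)
    · rw [e2]; exact natDegree_X_pow_sub_C
  | succ n ih =>
    obtain ⟨⟨h1, h2⟩, h3, h4⟩ := ih
    refine ⟨⟨h3, h4⟩, ?_⟩
    have e : dickson 1 (1 : ℤ) (n + 1 + 2) =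
        X * dickson 1 (1 : ℤ) (n + 2) - C (1 : ℤ) * dickson 1 (1 : ℤ) (n + 1) :=
      dickson_add_two 1 1 (n + 1)
    rw [e]
    exact D3a_step h3 h4 h2.le

/-- Row TGS-D3a. Chebyshev polynomials normalised by `P_j (z + 1/z) = z^j + z^(-j)`.

Proof. `P_0 := 1`, and for `j ≥ 1` `P_j := Polynomial.dickson 1 (1 : ℤ) j`
(`Polynomial.dickson_one_one_eval_add_inv`, `Polynomial.map_dickson`); monic of degree `j` for
`j ≥ 1` by the recursion `dickson 1 1 (j+2) = X * dickson 1 1 (j+1) - dickson 1 1 j`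
(`Polynomial.dickson_add_two`), `dickson 1 1 0 = 2`, `dickson 1 1 1 = X`; prove by strong induction
`natDegree = j` and `Monic` for `j ≥ 1` (for `j = 2`: `X^2 - 2`). Or define the sequence directly by
this recursion. -/
theorem exists_cheb : ∃ P : ℕ → ℤ[X], (∀ j, (P j).Monic ∧ (P j).natDegree = j) ∧
    P 0 = 1 ∧ ∀ j, 1 ≤ j → ∀ z : ℂ, z ≠ 0 → ((P j).map (Int.castRingHom ℂ)).eval (z + z⁻¹) =
      z ^ j + (z⁻¹) ^ j := by
  refine ⟨fun j => if j = 0 then 1 else dickson 1 (1 : ℤ) j, ?_, if_pos rfl, ?_⟩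
  · intro j
    rcases Nat.eq_zero_or_pos j with rfl | hj
    · dsimp only
      rw [if_pos rfl]
      exact ⟨monic_one, natDegree_one⟩
    · dsimp only
      rw [if_neg (by omega)]
      obtain ⟨n, rfl⟩ : ∃ n, j = n + 1 := ⟨j - 1, by omega⟩
      exact (D3a_dick n).1
  · intro j hj z hz
    dsimp only
    rw [if_neg (by omega), map_dickson, map_one]
    exact dickson_one_one_eval_add_inv z z⁻¹ (mul_inv_cancel₀ hz) j

end Pool.Agent.TGS
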