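import Pool.Agent.TGS.D3a

set_option autoImplicit false
open Set Pool.Agent.TGL Polynomial

namespace Pool.Agent.TGS

theorem D3b_prod {M : ℕ} {μ : ℝ} (hμ : 1 < μ) (v : Fin M → ℂ) (hv : Function.Injective v)
    (c : ℂ) (R : Fin M → ℝ) (h0 : ∀ i, 0 ≤ R i)
    (h1 : ∀ i, R i ≤ 4 * (M : ℝ) * (if v i = c then μ ^ (2 * M) else 1)) :
    ∏ i, R i ≤ (4 * (M : ℝ) * μ ^ 2) ^ M := by
  classical
  have h2 : ∏ i, R i ≤ ∏ i : Fin M, (4 * (M : ℝ) * (if v i = c then μ ^ (2 * M) else 1)) :=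
    Finset.prod_le_prod (fun i _ => h0 i) fun i _ => h1 i
  refine h2.trans ?_
  rw [Finset.prod_mul_distrib, Finset.prod_const, Finset.card_univ, Fintype.card_fin,
    Finset.prod_ite, Finset.prod_const_one, mul_one, Finset.prod_const, mul_pow (4 * (M : ℝ)),
    ← pow_mul μ 2 M]
  refine mul_le_mul_of_nonneg_left ?_ (by positivity)
  have h3 : (Finset.univ.filter fun i => v i = c).card ≤ 1 := by
    refine Finset.card_le_one.2 fun a ha b hb => hv ?_
    rw [(Finset.mem_filter.1 ha).2, (Finset.mem_filter.1 hb).2]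
  calc (μ ^ (2 * M)) ^ (Finset.univ.filter fun i => v i = c).card ≤ (μ ^ (2 * M)) ^ 1 :=
        pow_le_pow_right₀ (one_le_pow₀ hμ.le) h3
    _ = μ ^ (2 * M) := pow_one _

theorem D3b_disc {L : Type} [Field L] [NumberField L]
    (β : Fin (Module.finrank ℚ L) → NumberField.RingOfIntegers L) :
    ∃ d : ℤ, Algebra.discr ℚ (fun j => algebraMap (NumberField.RingOfIntegers L) L (β j)) =
      (d : ℚ) ^ 2 * (NumberField.discr L : ℚ) := by
  classical
  have hc : Fintype.card (Module.Free.ChooseBasisIndex ℤ (NumberField.RingOfIntegers L)) =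
      Module.finrank ℚ L := by
    rw [← NumberField.RingOfIntegers.rank, Module.finrank_eq_card_chooseBasisIndex]
  let e1 : Module.Free.ChooseBasisIndex ℤ (NumberField.RingOfIntegers L) ≃
      Fin (Module.finrank ℚ L) := Fintype.equivFinOfCardEq hc
  let B0 : Module.Basis (Fin (Module.finrank ℚ L)) ℚ L := (NumberField.integralBasis L).reindex e1
  let C : Matrix (Fin (Module.finrank ℚ L)) (Fin (Module.finrank ℚ L)) ℤ :=
    fun i j => (NumberField.RingOfIntegers.basis L).repr (β j) (e1.symm i)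
  have hC : B0.toMatrix (fun j => algebraMap (NumberField.RingOfIntegers L) L (β j)) =
      C.map (algebraMap ℤ ℚ) := by
    ext i j
    rw [Module.Basis.toMatrix_apply, Module.Basis.repr_reindex_apply, Matrix.map_apply]
    exact NumberField.integralBasis_repr_apply L (β j) (e1.symm i)
  refine ⟨C.det, ?_⟩
  have h1 := Module.Basis.toMatrix_map_vecMul B0
    (fun j => algebraMap (NumberField.RingOfIntegers L) L (β j))
  have h2 := Algebra.discr_of_matrix_vecMul (A := ℚ) B0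
    (B0.toMatrix fun j => algebraMap (NumberField.RingOfIntegers L) L (β j))
  rw [h1] at h2
  have h3 : Algebra.discr ℚ B0 = (NumberField.discr L : ℚ) := by
    rw [NumberField.coe_discr, ← Algebra.discr_reindex ℚ (NumberField.integralBasis L) e1]
    congr 1
    exact Module.Basis.coe_reindex _ _
  rw [h2, hC, ← RingHom.mapMatrix_apply, ← RingHom.map_det, h3, eq_intCast]

/-- Row TGS-D3b. Upper bound for the discriminant of a number field `L` with an algebraic integer
`t` that generates it, all of whose conjugates but one are of the form `z + 1/z`, `‖z‖ = 1`, the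
exceptional one being `μ + 1/μ`, `μ > 1`.

Proof. Let `M := finrank ℚ L`, `P` from `exists_cheb`, `b j := aeval t (P j) ∈ L` for `j : Fin M`
(algebraic integers: `IsIntegral` is closed under integer polynomials). Let
`e : Fin M ≃ (L →ₐ[ℚ] ℂ)` (`NumberField.Embeddings`/`AlgHom.card`), `A : Matrix (Fin M) (Fin M) ℂ`,
`A i j := e i (b j) = (P j).eval (v i)` with `v i := e i t`, `v` injective by `hinj`.
(1) `det A = det (vandermonde v) ≠ 0`: `Matrix.det_eval_matrixOfPolynomials_eq_det_vandermonde` for the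
polynomials `(P j).map`, and `Matrix.det_vandermonde_ne_zero_iff`.
(2) `Algebra.discr ℚ b = (det A)^2` in `ℂ` (`Algebra.discr_eq_det_embeddingsMatrixReindex_pow_two`,
careful with the transpose, `Matrix.det_transpose`). So `Algebra.discr ℚ b ≠ 0`.
(3) `|discr L| ≤ |Algebra.discr ℚ b|`: write `b` in the integral basis `NumberField.integralBasis L`
with an integer matrix `C` (the `b j` are integral); `Algebra.discr ℚ b = (det C)^2 * discr L`
(`Algebra.discr_of_matrix_mulVec` / `discr_of_matrix_vecMul`, `NumberField.discr_eq_discr`,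
`NumberField.coe_discr`), and `det C` is a non-zero integer, so `(det C)^2 ≥ 1`.
(4) Hadamard (`Pool.Agent.ZPB.hadamard`): `‖det A‖² ≤ ∏ i, ∑ j, ‖A i j‖²`. For `i` with `v i` of the form
`z + z⁻¹`, `‖z‖ = 1`, all `‖A i j‖ ≤ 2`, so the row contributes at most `4 M`. For the (at most one,
as `v` is injective) `i` with `v i = μ + μ⁻¹`: `‖A i j‖ ≤ μ^j + μ^(-j) ≤ 2 μ^M`, contribution at most
`4 M μ^(2M)`. Product `≤ (4M)^M μ^(2M) = (4 M μ²)^M`. -/
theorem discr_le {L : Type} [Field L] [NumberField L] {t : L} (ht : IsIntegral ℤ t)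
    (hinj : ∀ φ φ' : L →+* ℂ, φ t = φ' t → φ = φ') {μ : ℝ} (hμ : 1 < μ)
    (hval : ∀ φ : L →+* ℂ, φ t = ((μ + μ⁻¹ : ℝ) : ℂ) ∨ ∃ z : ℂ, ‖z‖ = 1 ∧ φ t = z + z⁻¹) :
    (|NumberField.discr L| : ℝ) ≤
      (4 * (Module.finrank ℚ L : ℝ) * μ ^ 2) ^ Module.finrank ℚ L := by
  classical
  obtain ⟨P, hP, hP0, hPz⟩ := exists_cheb
  let tO : NumberField.RingOfIntegers L := ⟨t, ht⟩
  let β : Fin (Module.finrank ℚ L) → NumberField.RingOfIntegers L := fun j => aeval tO (P j)
  obtain ⟨d, hd⟩ := D3b_disc β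
  have hb : (fun j => algebraMap (NumberField.RingOfIntegers L) L (β j)) =
      fun j : Fin (Module.finrank ℚ L) => aeval t (P j) := by
    funext j
    exact (aeval_algebraMap_apply L tO (P j)).symm
  rw [hb] at hd
  have hcard : Fintype.card (L →ₐ[ℚ] ℂ) = Module.finrank ℚ L := AlgHom.card ℚ L ℂ
  let e : Fin (Module.finrank ℚ L) ≃ (L →ₐ[ℚ] ℂ) := (Fintype.equivFinOfCardEq hcard).symm
  let v : Fin (Module.finrank ℚ L) → ℂ := fun i => e i t
  have hv : Function.Injective v := by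
    intro i j hij
    have h1 : ((e i : L →ₐ[ℚ] ℂ) : L →+* ℂ) = ((e j : L →ₐ[ℚ] ℂ) : L →+* ℂ) := hinj _ _ hij
    apply e.injective
    exact AlgHom.ext fun x => DFunLike.congr_fun h1 x
  let p : Fin (Module.finrank ℚ L) → ℂ[X] := fun j => (P j).map (Int.castRingHom ℂ)
  have hdetV := Matrix.det_eval_matrixOfPolynomials_eq_det_vandermonde v p
    (fun j => by
      show ((P j).map (Int.castRingHom ℂ)).natDegree = j
      rw [(hP j).1.natDegree_map]
      exact (hP j).2) (fun j => (hP j).1.map _)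
  let A : Matrix (Fin (Module.finrank ℚ L)) (Fin (Module.finrank ℚ L)) ℂ :=
    Matrix.of (fun i j => ((p j).eval (v i)))
  have hA0 : A.det ≠ 0 := by
    rw [← hdetV]
    exact Matrix.det_vandermonde_ne_zero_iff.2 hv
  have hE : Algebra.embeddingsMatrixReindex ℚ ℂ
      (fun j : Fin (Module.finrank ℚ L) => aeval t (P j)) e = A.transpose := by
    ext i j
    show e j (aeval t (P i)) = ((P i).map (Int.castRingHom ℂ)).eval (e j t)
    rw [eval_map, ← algebraMap_int_eq, ← aeval_def]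
    exact (aeval_algHom_apply ((e j).restrictScalars ℤ) t (P i)).symm
  have h5 := Algebra.discr_eq_det_embeddingsMatrixReindex_pow_two ℚ ℂ
    (fun j : Fin (Module.finrank ℚ L) => aeval t (P j)) e
  rw [hE, Matrix.det_transpose, hd] at h5
  have hd0 : d ≠ 0 := by
    rintro rfl
    apply pow_ne_zero 2 hA0
    rw [← h5]
    simp
  have h6 : (|NumberField.discr L| : ℝ) ≤ ‖A.det‖ ^ 2 := by
    rw [← norm_pow, ← h5]
    have h7 : algebraMap ℚ ℂ ((d : ℚ) ^ 2 * (NumberField.discr L : ℚ)) =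
        (((d : ℝ) ^ 2 * (NumberField.discr L : ℝ) : ℝ) : ℂ) := by
      push_cast
      simp
    rw [h7, Complex.norm_real, Real.norm_eq_abs, abs_mul, abs_of_nonneg (sq_nonneg (d : ℝ))]
    have h8 : (1 : ℝ) ≤ (d : ℝ) ^ 2 := by
      have : (1 : ℤ) ≤ d ^ 2 := by
        have := sq_pos_of_ne_zero hd0
        omega
      exact_mod_cast this
    exact le_mul_of_one_le_left (abs_nonneg _) h8
  refine h6.trans ((Pool.Agent.ZPB.hadamard A).trans ?_)
  have hμ0 : 0 < μ := by linarith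
  refine D3b_prod hμ v hv ((μ + μ⁻¹ : ℝ) : ℂ) _ (fun i => Finset.sum_nonneg fun j _ => sq_nonneg _)
    fun i => ?_
  have hAij : ∀ j, ∀ z : ℂ, z ≠ 0 → v i = z + z⁻¹ → ∀ B : ℝ, 1 ≤ B → (∀ k : ℕ, k ≤ j →
      ‖z‖ ^ k ≤ B ∧ ‖z⁻¹‖ ^ k ≤ B) → ∀ hj : j < Module.finrank ℚ L, ‖A i ⟨j, hj⟩‖ ≤ 2 * B := by
    intro j z hz hvz B hB hk hj
    show ‖((P j).map (Int.castRingHom ℂ)).eval (v i)‖ ≤ 2 * B
    rcases Nat.eq_zero_or_pos j with rfl | hj1
    · rw [hP0, Polynomial.map_one, eval_one, norm_one]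
      linarith
    · rw [hvz, hPz j hj1 z hz]
      refine (norm_add_le _ _).trans ?_
      rw [norm_pow, norm_pow]
      linarith [(hk j le_rfl).1, (hk j le_rfl).2]
  have hsum : ∀ B : ℝ, 1 ≤ B → (∀ j, ‖A i j‖ ≤ 2 * B) →
      ∑ j, ‖A i j‖ ^ 2 ≤ 4 * (Module.finrank ℚ L : ℝ) * B ^ 2 := by
    intro B hB hj
    calc ∑ j, ‖A i j‖ ^ 2 ≤ ∑ _j : Fin (Module.finrank ℚ L), (2 * B) ^ 2 :=
          Finset.sum_le_sum fun j _ => pow_le_pow_left₀ (norm_nonneg _) (hj j) 2
      _ = 4 * (Module.finrank ℚ L : ℝ) * B ^ 2 := by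
          rw [Finset.sum_const, Finset.card_univ, Fintype.card_fin, nsmul_eq_mul]
          ring
  split_ifs with hc
  · have hz0 : ((μ : ℝ) : ℂ) ≠ 0 := by exact_mod_cast hμ0.ne'
    have h9 : (1 : ℝ) ≤ μ ^ Module.finrank ℚ L := one_le_pow₀ hμ.le
    have h10 := hsum (μ ^ Module.finrank ℚ L) h9 (fun j => by
      refine hAij j.1 ((μ : ℝ) : ℂ) hz0 (by rw [hc]; push_cast; rfl) _ h9 ?_ j.2
      intro k hk
      rw [norm_inv, Complex.norm_real, Real.norm_eq_abs, abs_of_pos hμ0]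
      refine ⟨pow_le_pow_right₀ hμ.le (hk.trans j.2.le), ?_⟩
      exact (pow_le_one₀ (inv_nonneg.2 hμ0.le) (inv_le_one_of_one_le₀ hμ.le)).trans h9)
    refine h10.trans (le_of_eq ?_)
    rw [← pow_mul, mul_comm (Module.finrank ℚ L) 2]
  · rcases hval ((e i : L →ₐ[ℚ] ℂ) : L →+* ℂ) with h | ⟨z, hz1, hz2⟩
    · exact absurd h hc
    · have hz0 : z ≠ 0 := by
        rintro rfl
        rw [norm_zero] at hz1
        norm_num at hz1
      have h10 := hsum 1 le_rfl (fun j => by
        refine hAij j.1 z hz0 hz2 _ le_rfl ?_ j.2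
        intro k _
        rw [norm_inv, hz1, inv_one, one_pow]
        exact ⟨le_rfl, le_rfl⟩)
      refine h10.trans (le_of_eq ?_)
      ring

end Pool.Agent.TGS
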