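import Pool.Agent.TGS.D3b

set_option autoImplicit false
open Set Pool.Agent.TGL Polynomial

namespace Pool.Agent.TGS

/-- Row TGS-D4. `|discr K| ^ [L : K] ≤ |discr L|`.

Proof. `NumberField.natAbs_discr_eq_absNorm_differentIdeal_mul_natAbs_discr_pow` (Mathlib,
NumberTheory/NumberField/Discriminant/Different.lean) with `𝒪 := 𝓞 K`, `𝒪' := 𝓞 L`: `|discr L|` is
`|discr K| ^ [L:K]` times the absolute norm of the different ideal, a natural number which is
non-zero because `discr L ≠ 0` (`NumberField.discr_ne_zero`), hence `≥ 1`. -/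
theorem discr_pow_le {K L : Type} [Field K] [NumberField K] [Field L] [NumberField L] [Algebra K L] :
    (|NumberField.discr K| : ℝ) ^ Module.finrank K L ≤ (|NumberField.discr L| : ℝ) := by
  have h := NumberField.natAbs_discr_eq_absNorm_differentIdeal_mul_natAbs_discr_pow K
    (NumberField.RingOfIntegers K) L (NumberField.RingOfIntegers L)
  have h1 : 1 ≤ Ideal.absNorm (differentIdeal (NumberField.RingOfIntegers K)
      (NumberField.RingOfIntegers L)) := by
    rcases Nat.eq_zero_or_pos (Ideal.absNorm (differentIdeal (NumberField.RingOfIntegers K)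
      (NumberField.RingOfIntegers L))) with h0 | h0
    · rw [h0, zero_mul] at h
      exact absurd (Int.natAbs_eq_zero.1 h) (NumberField.discr_ne_zero L)
    · exact h0
  have h2 : (NumberField.discr K).natAbs ^ Module.finrank K L ≤ (NumberField.discr L).natAbs := by
    rw [h]
    exact Nat.le_mul_of_pos_left _ h1
  have h3 : (((NumberField.discr K).natAbs : ℕ) : ℝ) ^ Module.finrank K L ≤
      (((NumberField.discr L).natAbs : ℕ) : ℝ) := by exact_mod_cast h2
  rwa [Nat.cast_natAbs, Nat.cast_natAbs, Int.cast_abs, Int.cast_abs] at h3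

end Pool.Agent.TGS
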