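import Pool.Agent.TGS.Defs

set_option autoImplicit false
open Set Pool.Agent.TGL

namespace Pool.Agent.TGS

variable {n : ℕ}

/-- The complex matrix of `g`. -/
noncomputable def cm (g : GLn n) : Matrix (Fin (n+1)) (Fin (n+1)) ℂ :=
  (g : Matrix (Fin (n+1)) (Fin (n+1)) ℝ).map Complex.ofReal

/-- `c` is a complex eigenvalue of `g`. -/
def IsEig (g : GLn n) (c : ℂ) : Prop := ∃ w : Fin (n+1) → ℂ, w ≠ 0 ∧ (cm g).mulVec w = c • w

/-- The number theoretic data extracted from a hyperbolic element `g` of an arithmetic group over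
`K`: `l` is the family of the `N` eigenvalues of `g`, `p k = tr (g ^ k)`, `μ = l a ^ 2` where `l a` is
the eigenvalue of absolute value `> 1`. -/
structure Sal (K : IntermediateField ℚ ℝ) (N : ℕ) (μ : ℝ) (ι : Type) [Fintype ι] (l : ι → ℂ)
    (a : ι) (p : ℕ → ℝ) : Prop where
  card : Fintype.card ι = N
  psum : ∀ k : ℕ, 1 ≤ k → ((p k : ℝ) : ℂ) = ∑ i, l i ^ k
  integral : ∀ k : ℕ, 1 ≤ k → IsIntegral ℤ (p k)
  mem : ∀ k : ℕ, 1 ≤ k → p k ^ 2 ∈ K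
  bound : ∀ σ : K →+* ℂ, (∃ x : K, σ x ≠ ((x : ℝ) : ℂ)) → ∀ k : ℕ, 1 ≤ k → ∀ x : K,
    (x : ℝ) = p k ^ 2 → ‖σ x‖ ≤ (N : ℝ) ^ 2
  ne_zero : ∀ i, l i ≠ 0
  inv : ∀ i, ∃ j, l j = (l i)⁻¹
  big : 1 < ‖l a‖
  uniq : ∀ i, 1 < ‖l i‖ → l i = l a
  sq : ((μ : ℝ) : ℂ) = l a ^ 2
  one_lt : 1 < μ

/-- The field `K(τ)`. -/
noncomputable abbrev Lf (K : IntermediateField ℚ ℝ) (τ : ℝ) : IntermediateField K ℝ :=
  IntermediateField.adjoin K {τ}

/-- The generator `τ` of `K(τ)`. -/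
noncomputable abbrev gn (K : IntermediateField ℚ ℝ) (τ : ℝ) : Lf K τ :=
  IntermediateField.AdjoinSimple.gen K τ

end Pool.Agent.TGS
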