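import Pool.Agent.TGS.E0
import Pool.Agent.TGS.T1

set_option autoImplicit false
open Set Pool.Agent.TGL

namespace Pool.Agent.TGS

variable {n : ℕ}

theorem E1a_family {V : Type*} [AddCommGroup V] [Module ℂ V] [FiniteDimensional ℂ V]
    (L : V →ₗ[ℂ] V) : ∃ (ι : Type) (_ : Fintype ι) (l : ι → ℂ),
      (∀ m : ℕ, LinearMap.trace ℂ V (L ^ m) = ∑ i, l i ^ m) ∧
      (∀ i, ∃ f, f ≠ 0 ∧ L f = l i • f) ∧ ∀ c, (∃ f, f ≠ 0 ∧ L f = c • f) → ∃ i, l i = c := by
  classical
  have hds := DirectSum.isInternal_submodule_of_iSupIndep_of_iSup_eq_top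
      (Module.End.independent_maxGenEigenspace (R := ℂ) L)
      (Module.End.iSup_maxGenEigenspace_eq_top L)
  have h_fin : {μ | Module.End.maxGenEigenspace L μ ≠ ⊥}.Finite :=
      WellFoundedGT.finite_ne_bot_of_iSupIndep (Module.End.independent_maxGenEigenspace (R := ℂ) L)
  have hf : ∀ (m : ℕ) (μ : ℂ), Set.MapsTo (L ^ m) (Module.End.maxGenEigenspace L μ : Set V)
      (Module.End.maxGenEigenspace L μ : Set V) := fun m μ =>
    Module.End.mapsTo_maxGenEigenspace_of_comm ((Commute.refl L).pow_right m) μ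
  have hf1 : ∀ (μ : ℂ), Set.MapsTo L (Module.End.maxGenEigenspace L μ : Set V)
      (Module.End.maxGenEigenspace L μ : Set V) := fun μ =>
    Module.End.mapsTo_maxGenEigenspace_of_comm (Commute.refl L) μ
  refine ⟨Σ c : h_fin.toFinset, Fin (Module.finrank ℂ (Module.End.maxGenEigenspace L (c : ℂ))),
    inferInstance, fun i => (i.1 : ℂ), fun m => ?_, ?_, ?_⟩
  · have hmain : LinearMap.trace ℂ V (L ^ m) = ∑ c ∈ h_fin.toFinset,
        (Module.finrank ℂ (Module.End.maxGenEigenspace L c) : ℂ) * c ^ m := by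
      rw [LinearMap.trace_eq_sum_trace_restrict' hds h_fin (hf m)]
      refine Finset.sum_congr rfl fun μ _ => ?_
      have key : ∀ k : ℕ, LinearMap.trace ℂ (Module.End.maxGenEigenspace L μ)
          ((L.restrict (hf1 μ)) ^ k) =
            Module.finrank ℂ (Module.End.maxGenEigenspace L μ) * μ ^ k := by
        intro k
        induction k with
        | zero => rw [pow_zero, pow_zero, mul_one, LinearMap.trace_one]
        | succ k ih =>
          have h1 := Module.End.isNilpotent_restrict_maxGenEigenspace_sub_algebraMap L μ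
          have h2 := LinearMap.trace_comp_eq_mul_of_commute_of_isNilpotent (R := ℂ)
            (M := Module.End.maxGenEigenspace L μ) (f := (L.restrict (hf1 μ)) ^ k)
            (g := L.restrict (hf1 μ)) μ ((Commute.refl _).pow_left k) h1
          rw [pow_succ, Module.End.mul_eq_comp, h2, ih]
          ring
      rw [← key m]
      congr 1
      rw [Module.End.pow_restrict]
    rw [hmain, Fintype.sum_sigma, ← Finset.sum_coe_sort h_fin.toFinset]
    refine Finset.sum_congr rfl fun μ _ => ?_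
    simp only [Finset.sum_const, Finset.card_univ, Fintype.card_fin, nsmul_eq_mul]
  · rintro ⟨⟨c, hc⟩, _⟩
    have hc' : Module.End.maxGenEigenspace L c ≠ ⊥ := h_fin.mem_toFinset.1 hc
    have h0 : Module.End.HasUnifEigenvalue L c ⊤ := hc'
    have h1 : Module.End.HasEigenvalue L c := h0.lt zero_lt_one
    obtain ⟨f, hf⟩ := h1.exists_hasEigenvector
    exact ⟨f, hf.2, hf.apply_eq_smul⟩
  · rintro c ⟨f, hf0, hfc⟩
    have h1 : Module.End.HasEigenvalue L c :=
      Module.End.hasEigenvalue_of_hasEigenvector ⟨Module.End.mem_eigenspace_iff.mpr hfc, hf0⟩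
    have hmem : f ∈ Module.End.maxGenEigenspace L c := by
      rw [Module.End.mem_maxGenEigenspace]
      refine ⟨1, ?_⟩
      rw [pow_one, LinearMap.sub_apply, hfc]
      simp
    have hc' : Module.End.maxGenEigenspace L c ≠ ⊥ := by
      intro h
      rw [h, Submodule.mem_bot] at hmem
      exact hf0 hmem
    have hpos : 0 < Module.finrank ℂ (Module.End.maxGenEigenspace L c) := by
      rw [Nat.pos_iff_ne_zero]
      intro h0
      exact hc' (Submodule.finrank_eq_zero.1 h0)
    exact ⟨⟨⟨c, h_fin.mem_toFinset.2 hc'⟩, ⟨0, hpos⟩⟩, rfl⟩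

/-- Row TGS-E1a. The family of eigenvalues with multiplicities and the power traces.

Proof. Copy the proof of `Pool.Agent.ST5.trace_pow_eq_sum` (copy of the file: Pool/Agent/TGS/ref_ST5_F1.txt; in the
repository outputs/live; it imports only Mathlib) for `L := Matrix.toLin' (cm g)` (or
`Matrix.mulVecLin`): with `s` the finite set of `c` with `Module.End.maxGenEigenspace L c ≠ ⊥` and
`m c := finrank (maxGenEigenspace L c) > 0` one has `trace (L ^ k) = ∑ c ∈ s, m c * c ^ k`. Let
`ι := Σ c : s, Fin (m c)` (a `Type`, with `Fintype` instance) and `l ⟨c, _⟩ := c`. Then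
`∑ i, l i ^ k = ∑ c ∈ s, m c * c ^ k` (`Fintype.sum_sigma`, `Finset.sum_coe_sort`). `k = 0` gives the
cardinality `n + 1` (trace of the identity; cast `ℕ → ℂ` is injective). `trace (L ^ k) =
Matrix.trace ((cm g) ^ k) = ((tr (g ^ k) : ℝ) : ℂ)` (`Matrix.toLin'_pow` or `Matrix.toLin'_mul`,
`Matrix.trace_toLin'_eq` / `LinearMap.trace_eq_matrix_trace`, `Matrix.map` is a ring hom:
`RingHom.mapMatrix`, `map_pow`, `Units.val_pow_eq_pow_val`). Members of `s` are eigenvalues
(`Module.End.HasUnifEigenvalue.lt zero_lt_one`, see ref_ST5_X1.txt), and if `c` is an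
eigenvalue, its generalised eigenspace is not `⊥`, so `c ∈ s` and `m c > 0`, giving an index. -/
theorem eig_family (g : GLn n) : ∃ (ι : Type) (_ : Fintype ι) (l : ι → ℂ),
    Fintype.card ι = n + 1 ∧ (∀ k : ℕ, ((tr (g ^ k) : ℝ) : ℂ) = ∑ i, l i ^ k) ∧
    (∀ i, IsEig g (l i)) ∧ ∀ c, IsEig g c → ∃ i, l i = c := by
  obtain ⟨ι, hι, l, h1, h2, h3⟩ := E1a_family (Matrix.toLin' (cm g))
  have htr : ∀ k : ℕ, ((tr (g ^ k) : ℝ) : ℂ) = ∑ i, l i ^ k := by
    intro k
    rw [← h1 k, ← Matrix.toLin'_pow, Matrix.trace_toLin'_eq]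
    have e : (cm g) ^ k = ((g ^ k : GLn n) : Matrix (Fin (n+1)) (Fin (n+1)) ℝ).map
        Complex.ofReal := by
      have e2 : cm g = Complex.ofRealHom.mapMatrix (g : Matrix (Fin (n+1)) (Fin (n+1)) ℝ) := rfl
      rw [e2, ← map_pow, ← Units.val_pow_eq_pow_val]
      rfl
    rw [e, tr, Matrix.trace, Matrix.trace, Complex.ofReal_sum]
    rfl
  refine ⟨ι, hι, l, ?_, htr, ?_, ?_⟩
  · have h4 := htr 0
    rw [pow_zero, tr, Units.val_one, Matrix.trace_one, Fintype.card_fin] at h4
    simp only [pow_zero, Finset.sum_const, Finset.card_univ, nsmul_eq_mul, mul_one] at h4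
    have h5 : ((Fintype.card ι : ℕ) : ℂ) = ((n + 1 : ℕ) : ℂ) := by
      rw [← h4]
      push_cast
      rfl
    exact_mod_cast h5
  · intro i
    obtain ⟨f, hf0, hf⟩ := h2 i
    exact ⟨f, hf0, by rw [← hf, Matrix.toLin'_apply]⟩
  · rintro c ⟨w, hw0, hw⟩
    exact h3 c ⟨w, hw0, by rw [Matrix.toLin'_apply, hw]⟩

end Pool.Agent.TGS
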