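import Pool.Agent.TGS.E1a

set_option autoImplicit false
open Set Pool.Agent.TGL

namespace Pool.Agent.TGS

variable {n : ℕ}

/-- the complex form matrix -/
noncomputable def E1b_J (n : ℕ) : Matrix (Fin (n+1)) (Fin (n+1)) ℂ := (J n).map Complex.ofReal

theorem E1b_JJ : E1b_J n * E1b_J n = 1 := by
  have e : E1b_J n = Matrix.diagonal (fun i : Fin (n+1) => if i = 0 then (1:ℂ) else -1) := by
    unfold E1b_J J
    ext i j
    rw [Matrix.map_apply, Matrix.diagonal_apply, Matrix.diagonal_apply]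
    split_ifs <;> simp
  rw [e, Matrix.diagonal_mul_diagonal, ← Matrix.diagonal_one]
  congr 1
  funext j
  split_ifs <;> norm_num

theorem E1b_A {g : GLn n} (hg : IsIso (g : Matrix (Fin (n+1)) (Fin (n+1)) ℝ)) :
    (cm g).transpose * E1b_J n * cm g = E1b_J n := by
  have h := hg.1
  have h2 := congrArg (fun M => (Complex.ofRealHom.mapMatrix M :
    Matrix (Fin (n+1)) (Fin (n+1)) ℂ)) h
  simp only [map_mul] at h2
  exact h2

/-- Row TGS-E1b. Eigenvalues are non-zero and closed under inversion.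

Proof. Let `A := cm g`, `A w = c w`, `w ≠ 0`, `Jc := (J n).map Complex.ofReal`. From
`gᵀ J g = J` (cast to `ℂ`, `Matrix.map_mul`, `Matrix.transpose_map`): `Aᵀ Jc A = Jc`, so
`Jc w = Aᵀ Jc A w = c Aᵀ (Jc w)`. `Jc w ≠ 0` (`Jc` is diagonal with entries `±1`, `Jc (Jc w) = w`).
Hence `c ≠ 0` and `Aᵀ (Jc w) = c⁻¹ Jc w`, so `det (Aᵀ - c⁻¹ 1) = 0`
(`Matrix.exists_mulVec_eq_zero_iff`), `det (A - c⁻¹ 1) = 0` (`Matrix.det_transpose`), and the same
lemma gives an eigenvector of `A` for `c⁻¹`. -/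
theorem eig_inv {g : GLn n} (hg : IsIso (g : Matrix (Fin (n+1)) (Fin (n+1)) ℝ)) {c : ℂ}
    (hc : IsEig g c) : c ≠ 0 ∧ IsEig g c⁻¹ := by
  obtain ⟨w, hw0, hw⟩ := hc
  set u := (E1b_J n).mulVec w with hu
  have hu0 : u ≠ 0 := by
    intro h
    apply hw0
    have h1 : (E1b_J n).mulVec u = w := by
      rw [hu, Matrix.mulVec_mulVec, E1b_JJ, Matrix.one_mulVec]
    rw [← h1, h, Matrix.mulVec_zero]
  have h1 : u = c • (cm g).transpose.mulVec u := by
    calc u = ((cm g).transpose * E1b_J n * cm g).mulVec w := by rw [E1b_A hg]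
      _ = (cm g).transpose.mulVec ((E1b_J n).mulVec ((cm g).mulVec w)) := by
          rw [← Matrix.mulVec_mulVec, ← Matrix.mulVec_mulVec]
      _ = c • (cm g).transpose.mulVec u := by
          rw [hw, Matrix.mulVec_smul, Matrix.mulVec_smul]
  have hc0 : c ≠ 0 := by
    rintro rfl
    rw [zero_smul] at h1
    exact hu0 h1
  refine ⟨hc0, ?_⟩
  have h2 : (cm g).transpose.mulVec u = c⁻¹ • u := by
    conv_rhs => rw [h1]
    rw [smul_smul, inv_mul_cancel₀ hc0, one_smul]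
  have h3 : ((cm g).transpose - c⁻¹ • (1 : Matrix (Fin (n+1)) (Fin (n+1)) ℂ)).mulVec u = 0 := by
    rw [Matrix.sub_mulVec, h2, Matrix.smul_mulVec, Matrix.one_mulVec, sub_self]
  have h4 : ((cm g).transpose - c⁻¹ • (1 : Matrix (Fin (n+1)) (Fin (n+1)) ℂ)).det = 0 :=
    Matrix.exists_mulVec_eq_zero_iff.mp ⟨u, hu0, h3⟩
  have h5 : (cm g - c⁻¹ • (1 : Matrix (Fin (n+1)) (Fin (n+1)) ℂ)).det = 0 := by
    rw [← Matrix.det_transpose, Matrix.transpose_sub, Matrix.transpose_smul,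
      Matrix.transpose_one]
    exact h4
  obtain ⟨v, hv0, hv⟩ := Matrix.exists_mulVec_eq_zero_iff.mpr h5
  refine ⟨v, hv0, ?_⟩
  rw [Matrix.sub_mulVec, Matrix.smul_mulVec, Matrix.one_mulVec, sub_eq_zero] at hv
  exact hv

end Pool.Agent.TGS
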