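import Pool.Agent.TGS.E1b

set_option autoImplicit false
open Set Pool.Agent.TGL

namespace Pool.Agent.TGS

variable {n : ℕ}

/-- Row TGS-E1c. Eigenvalues are closed under complex conjugation.

Proof. Conjugate `A w = c w` coordinatewise (`A` has real entries: `Complex.conj_ofReal`). -/
theorem eig_conj {g : GLn n} {c : ℂ} (hc : IsEig g c) : IsEig g (starRingEnd ℂ c) := by
  obtain ⟨w, hw0, hw⟩ := hc
  refine ⟨fun i => starRingEnd ℂ (w i), ?_, ?_⟩
  · intro h
    apply hw0
    funext i
    have h1 := congrFun h i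
    simp only [Pi.zero_apply] at h1
    rw [Pi.zero_apply]
    exact (map_eq_zero (starRingEnd ℂ)).mp h1
  · funext i
    have h1 := congrArg (starRingEnd ℂ) (congrFun hw i)
    rw [Pi.smul_apply, smul_eq_mul, map_mul] at h1
    rw [Pi.smul_apply, smul_eq_mul, ← h1, Matrix.mulVec, Matrix.mulVec, dotProduct, dotProduct,
      map_sum]
    refine Finset.sum_congr rfl fun j _ => ?_
    rw [map_mul, cm, Matrix.map_apply, Complex.conj_ofReal]

end Pool.Agent.TGS
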