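import Pool.Agent.TGS.E1c

set_option autoImplicit false
open Set Pool.Agent.TGL

namespace Pool.Agent.TGS

variable {n : ℕ}

/-- the hermitian form -/
noncomputable def E1d_h (u v : Fin (n+1) → ℂ) : ℂ := star u ⬝ᵥ (E1b_J n).mulVec v

theorem E1d_h_eq (u v : Fin (n+1) → ℂ) : E1d_h u v =
    starRingEnd ℂ (u 0) * v 0 - ∑ i : Fin n, starRingEnd ℂ (u i.succ) * v i.succ := by
  have e : E1b_J n = Matrix.diagonal (fun i : Fin (n+1) => if i = 0 then (1:ℂ) else -1) := by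
    unfold E1b_J J
    ext i j
    rw [Matrix.map_apply, Matrix.diagonal_apply, Matrix.diagonal_apply]
    split_ifs <;> simp
  rw [E1d_h, e, dotProduct, Fin.sum_univ_succ]
  simp only [Matrix.mulVec_diagonal, if_true, one_mul, Fin.succ_ne_zero, if_false, neg_mul,
    mul_neg, Finset.sum_neg_distrib, Pi.star_apply]
  rfl

theorem E1d_h_A {g : GLn n} (hg : IsIso (g : Matrix (Fin (n+1)) (Fin (n+1)) ℝ))
    (u v : Fin (n+1) → ℂ) : E1d_h ((cm g).mulVec u) ((cm g).mulVec v) = E1d_h u v := by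
  have e : (cm g).conjTranspose = (cm g).transpose := by
    ext i j
    rw [Matrix.conjTranspose_apply, Matrix.transpose_apply, cm, Matrix.map_apply]
    exact Complex.conj_ofReal _
  rw [E1d_h, Matrix.star_mulVec, e, Matrix.mulVec_mulVec, ← Matrix.dotProduct_mulVec,
    Matrix.mulVec_mulVec, ← Matrix.mul_assoc, E1b_A hg, E1d_h]

theorem E1d_sq (u : Fin (n+1) → ℂ) (h0 : u 0 = 0) (h : E1d_h u u = 0) : u = 0 := by
  rw [E1d_h_eq, h0, mul_zero, zero_sub, neg_eq_zero] at h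
  have h1 : ∑ i : Fin n, starRingEnd ℂ (u i.succ) * u i.succ =
      ((∑ i : Fin n, ‖u i.succ‖ ^ 2 : ℝ) : ℂ) := by
    rw [Complex.ofReal_sum]
    refine Finset.sum_congr rfl fun i _ => ?_
    rw [Complex.conj_mul', Complex.ofReal_pow]
  rw [h1, Complex.ofReal_eq_zero] at h
  have h2 := (Finset.sum_eq_zero_iff_of_nonneg (fun i _ => sq_nonneg (‖u (Fin.succ i)‖))).1 h
  funext i
  refine Fin.cases h0 (fun j => ?_) i
  have h3 := h2 j (Finset.mem_univ j)
  exact norm_eq_zero.mp (pow_eq_zero_iff (two_ne_zero) |>.1 h3)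

theorem E1d_smul (a b : ℂ) (u v : Fin (n+1) → ℂ) :
    E1d_h (a • u) (b • v) = starRingEnd ℂ a * b * E1d_h u v := by
  rw [E1d_h, star_smul, Matrix.mulVec_smul, smul_dotProduct, dotProduct_smul, smul_eq_mul,
    smul_eq_mul, E1d_h, mul_assoc]
  rfl

theorem E1d_zero {g : GLn n} (hg : IsIso (g : Matrix (Fin (n+1)) (Fin (n+1)) ℝ)) {c c' : ℂ}
    (h : 1 < ‖c‖) (h' : 1 < ‖c'‖) {w w' : Fin (n+1) → ℂ} (hw : (cm g).mulVec w = c • w)
    (hw' : (cm g).mulVec w' = c' • w') : E1d_h w w' = 0 := by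
  have h1 := E1d_h_A hg w w'
  rw [hw, hw', E1d_smul] at h1
  have h2 : (starRingEnd ℂ c * c' - 1) * E1d_h w w' = 0 := by
    rw [sub_mul, h1, one_mul, sub_self]
  rcases mul_eq_zero.mp h2 with h3 | h3
  · exfalso
    have h4 : starRingEnd ℂ c * c' = 1 := sub_eq_zero.mp h3
    have h5 := congrArg norm h4
    rw [norm_mul, RCLike.norm_conj, norm_one] at h5
    nlinarith [mul_lt_mul'' h h' zero_le_one zero_le_one]
  · exact h3

theorem E1d_sub (u v u' v' : Fin (n+1) → ℂ) :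
    E1d_h (u - v) (u' - v') = E1d_h u u' - E1d_h u v' - E1d_h v u' + E1d_h v v' := by
  unfold E1d_h
  rw [star_sub, Matrix.mulVec_sub, sub_dotProduct, dotProduct_sub, dotProduct_sub]
  ring

/-- Row TGS-E1d. There is at most one eigenvalue of absolute value `> 1`.

Proof. For `u v : Fin (n+1) → ℂ` put `h u v := conj (u 0) * v 0 - ∑ i, conj (u i.succ) * v i.succ`
`= star u ⬝ᵥ Jc v`. From `Aᵀ Jc A = Jc` and `A` real: `h (A u) (A v) = h u v`. Let `A w = c w`,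
`A w' = c' w'`. Then `(conj c * c' - 1) * h w w' = 0`, and `conj c * c' ≠ 1` as
`‖c‖ ‖c'‖ > 1`; so `h w w' = 0`, similarly `h w w = 0`, `h w' w' = 0`, `h w' w = 0`.
`w 0 ≠ 0`: otherwise `h w w = - ∑ ‖w i‖² = 0` forces `w = 0`. Likewise `w' 0 ≠ 0`. Let
`z := w' 0 • w - w 0 • w'`. Then `z 0 = 0` and `h z z = 0` by sesquilinearity, so `z = 0`, that is
`w' 0 • w = w 0 • w'`. Apply `A`: `c • (w' 0 • w) = c' • (w 0 • w')`, so `(c - c') • (w' 0 • w) = 0`
and `c = c'`. -/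
theorem eig_unique {g : GLn n} (hg : IsIso (g : Matrix (Fin (n+1)) (Fin (n+1)) ℝ)) {c c' : ℂ}
    (hc : IsEig g c) (hc' : IsEig g c') (h : 1 < ‖c‖) (h' : 1 < ‖c'‖) : c = c' := by
  obtain ⟨w, hw0, hw⟩ := hc
  obtain ⟨w', hw0', hw'⟩ := hc'
  have z1 := E1d_zero hg h h hw hw
  have z2 := E1d_zero hg h h' hw hw'
  have z3 := E1d_zero hg h' h hw' hw
  have z4 := E1d_zero hg h' h' hw' hw'
  have n1 : w 0 ≠ 0 := fun hc => hw0 (E1d_sq w hc z1)
  have n2 : w' 0 ≠ 0 := fun hc => hw0' (E1d_sq w' hc z4)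
  have hz : w' 0 • w - w 0 • w' = 0 := by
    apply E1d_sq
    · simp only [Pi.sub_apply, Pi.smul_apply, smul_eq_mul]
      ring
    · rw [E1d_sub, E1d_smul, E1d_smul, E1d_smul, E1d_smul, z1, z2, z3, z4]
      ring
  have hz' : w' 0 • w = w 0 • w' := sub_eq_zero.mp hz
  have h1 : c • (w' 0 • w) = c' • (w' 0 • w) := by
    have h2 := congrArg (fun v => (cm g).mulVec v) hz'
    simp only [Matrix.mulVec_smul, hw, hw'] at h2
    conv_rhs => rw [hz']
    rw [smul_comm c, smul_comm c']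
    exact h2
  have h2 : (c - c') • (w' 0 • w) = 0 := by rw [sub_smul, h1, sub_self]
  rcases smul_eq_zero.mp h2 with h3 | h3
  · exact sub_eq_zero.mp h3
  · exact absurd h3 (smul_ne_zero n2 hw0)

end Pool.Agent.TGS
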