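import Pool.Agent.TGS.E1d

set_option autoImplicit false
open Set Pool.Agent.TGL

namespace Pool.Agent.TGS

variable {n : ℕ}

theorem E1e_col {g : Matrix (Fin (n+1)) (Fin (n+1)) ℝ} (hg : g.transpose * J n * g = J n)
    (i : Fin (n+1)) :
    g 0 i * g 0 i - ∑ j : Fin n, g j.succ i * g j.succ i = if i = 0 then 1 else -1 := by
  have h1 := q_mulVec hg (Pi.single i 1) (Pi.single i 1)
  rw [Matrix.mulVec_single_one] at h1
  have h2 : q (Pi.single i 1 : Fin (n+1) → ℝ) (Pi.single i 1) = if i = 0 then 1 else -1 := by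
    unfold q
    refine Fin.cases ?_ (fun k => ?_) i
    · rw [if_pos rfl]
      simp [Fin.succ_ne_zero]
    · rw [if_neg (Fin.succ_ne_zero k)]
      simp [Pi.single_apply, (Fin.succ_ne_zero k).symm]
  rw [h2] at h1
  exact h1

theorem E1e_sq {g : Matrix (Fin (n+1)) (Fin (n+1)) ℝ} (hg : IsIso g)
    (i j : Fin (n+1)) : (g i j) ^ 2 ≤ (g 0 0) ^ 2 := by
  have hJ2 : J n * J n = 1 := by
    unfold J
    rw [Matrix.diagonal_mul_diagonal, ← Matrix.diagonal_one]
    congr 1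
    funext j
    split_ifs <;> norm_num
  have ht : g.transpose.transpose * J n * g.transpose = J n := by
    rw [Matrix.transpose_transpose]
    have h1 : (J n * g.transpose * J n) * g = 1 := by
      rw [Matrix.mul_assoc, Matrix.mul_assoc, ← Matrix.mul_assoc g.transpose, hg.1, hJ2]
    have h2 : g * (J n * g.transpose * J n) = 1 := mul_eq_one_comm.1 h1
    calc g * J n * g.transpose = g * (J n * g.transpose * J n) * J n := by
          rw [Matrix.mul_assoc g, Matrix.mul_assoc g, Matrix.mul_assoc (J n * g.transpose), hJ2,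
            Matrix.mul_one]
      _ = J n := by rw [h2, Matrix.one_mul]
  -- first row
  have hr := E1e_col ht 0
  rw [if_pos rfl] at hr
  simp only [Matrix.transpose_apply] at hr
  have h0 : ∀ k : Fin n, (g 0 k.succ) ^ 2 ≤ (g 0 0) ^ 2 - 1 := by
    intro k
    have h1 : g 0 k.succ * g 0 k.succ ≤ ∑ j : Fin n, g 0 j.succ * g 0 j.succ :=
      Finset.single_le_sum (f := fun j : Fin n => g 0 j.succ * g 0 j.succ)
        (fun j _ => mul_self_nonneg _) (Finset.mem_univ k)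
    nlinarith
  have hrow : ∀ j : Fin (n+1), (g 0 j) ^ 2 ≤ (g 0 0) ^ 2 := by
    intro j
    refine Fin.cases le_rfl (fun k => ?_) j
    linarith [h0 k]
  refine Fin.cases (hrow j) (fun k => ?_) i
  have hc := E1e_col hg.1 j
  have h1 : g k.succ j * g k.succ j ≤ ∑ l : Fin n, g l.succ j * g l.succ j :=
    Finset.single_le_sum (f := fun l : Fin n => g l.succ j * g l.succ j)
      (fun l _ => mul_self_nonneg _) (Finset.mem_univ k)
  revert hc h1
  refine Fin.cases ?_ (fun m => ?_) j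
  · intro hc h1
    rw [if_pos rfl] at hc
    nlinarith
  · intro hc h1
    rw [if_neg (Fin.succ_ne_zero m)] at hc
    nlinarith [h0 m]

/-- Row TGS-E1e. Entries of an isometry are bounded by `2 g₀₀`.

Proof. `gᵀ J g = J` gives `g₀ⱼ² - ∑_{i ≥ 1} gᵢⱼ² = J j j` (see `E1e_col` in TGL/H12). Also
`g J gᵀ = J`: from `(J gᵀ J) g = J J = 1` the matrix `J gᵀ J` is the inverse of `g`, so
`g (J gᵀ J) = 1` (`Matrix.mul_eq_one_comm`), multiply by `J`. Its `(0,0)` entry:
`g₀₀² - ∑_{j ≥ 1} g₀ⱼ² = 1`, so `|g₀ⱼ| ≤ g₀₀` and `1 ≤ g₀₀`. For `i ≥ 1, j ≥ 1`: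
`gᵢⱼ² ≤ 1 + g₀ⱼ² ≤ 2 g₀₀² ≤ (2 g₀₀)²`; for `j = 0`: `gᵢ₀² ≤ g₀₀² - 1`. -/
theorem entry_le {g : GLn n} (hg : IsIso (g : Matrix (Fin (n+1)) (Fin (n+1)) ℝ))
    (i j : Fin (n+1)) : |(g : Matrix (Fin (n+1)) (Fin (n+1)) ℝ) i j| ≤
      2 * (g : Matrix (Fin (n+1)) (Fin (n+1)) ℝ) 0 0 := by
  have h1 := abs_le_of_sq_le_sq (E1e_sq hg i j) hg.2.le
  have h2 := hg.2
  linarith

end Pool.Agent.TGS
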