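import Pool.Agent.TGS.E1e

set_option autoImplicit false
open Set Pool.Agent.TGL

namespace Pool.Agent.TGS

variable {n : ℕ}

theorem E1f_isIso {g : GLn n} (hg : IsIso (g : Matrix (Fin (n+1)) (Fin (n+1)) ℝ)) (k : ℕ) :
    IsIso ((g ^ k : GLn n) : Matrix (Fin (n+1)) (Fin (n+1)) ℝ) := by
  induction k with
  | zero => rw [pow_zero, Units.val_one]; exact IsIso.one
  | succ k ih => rw [pow_succ, Units.val_mul]; exact IsIso.mul ih hg

theorem E1f_cm {g : GLn n} {w : Fin (n+1) → ℂ} {c : ℂ} (hw : (cm g).mulVec w = c • w) (k : ℕ) :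
    (cm (g ^ k)).mulVec w = c ^ k • w := by
  induction k with
  | zero =>
    rw [pow_zero, pow_zero, one_smul]
    have e : cm (1 : GLn n) = 1 := by
      have : cm (1 : GLn n) = Complex.ofRealHom.mapMatrix
        (((1 : GLn n)) : Matrix (Fin (n+1)) (Fin (n+1)) ℝ) := rfl
      rw [this, Units.val_one, map_one]
    rw [e, Matrix.one_mulVec]
  | succ k ih =>
    have e : cm (g ^ (k + 1)) = cm (g ^ k) * cm g := by
      have e1 : cm (g ^ (k + 1)) = Complex.ofRealHom.mapMatrix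
        (((g ^ (k + 1) : GLn n)) : Matrix (Fin (n+1)) (Fin (n+1)) ℝ) := rfl
      rw [e1, pow_succ, Units.val_mul, map_mul]
      rfl
    rw [e, ← Matrix.mulVec_mulVec, hw, Matrix.mulVec_smul, ih, smul_smul, pow_succ, mul_comm c]

/-- Row TGS-E1f. Eigenvalues are bounded by `exp` of the displacement at any point.

Proof. Let `A := cm g`, `A w = c w`, `w ≠ 0`, `r := hd x (ac g x)`, `D := hd (e0 n) x`. For `k : ℕ`:
`(cm (g^k)) w = c^k w`. `(g^k)₀₀ = q (e0 n) (ac (g^k) (e0 n)) = cosh (hd (e0 n) (ac (g^k) (e0 n)))`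
(`q_e0`, `cosh_hd`; `(ac h (e0 n)) 0 = h 0 0`: `h2_e0` in TGL/H2) and by the triangle inequality and
invariance `hd (e0 n) (g^k e0) ≤ 2 D + k r` (induction: `hd x (g^k x) ≤ k r`), so
`(g^k)₀₀ ≤ exp (2 D + k r)`. Choose `i` with `‖w i‖` maximal, `> 0`:
`‖c‖^k ‖w i‖ = ‖∑ j, (g^k)ᵢⱼ w j‖ ≤ (n+1) * 2 (g^k)₀₀ * ‖w i‖` (`entry_le`), hence
`‖c‖^k ≤ 2 (n+1) exp (2D) * (exp r)^k` for all `k`. If `‖c‖ > exp r` the powers of
`‖c‖ / exp r > 1` would be bounded (`tendsto_pow_atTop_atTop_of_one_lt`), contradiction. -/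
theorem eig_le {g : GLn n} (hg : IsIso (g : Matrix (Fin (n+1)) (Fin (n+1)) ℝ))
    {x : Fin (n+1) → ℝ} (hx : x ∈ Hyp n) {c : ℂ} (hc : IsEig g c) :
    ‖c‖ ≤ Real.exp (hd x (ac g x)) := by
  obtain ⟨w, hw0, hw⟩ := hc
  set r := hd x (ac g x) with hr
  set D := hd (e0 n) x with hD
  have he := e0_mem (n := n)
  -- displacement of the powers at `x`
  have hdx : ∀ k : ℕ, hd x (ac (g ^ k) x) ≤ k * r := by
    intro k
    induction k with
    | zero => rw [pow_zero, ac_one, hd_self hx]; simp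
    | succ k ih =>
      have hk := E1f_isIso hg k
      have h1 := hd_triangle hx (ac_mem hk hx) (ac_mem (E1f_isIso hg (k + 1)) hx)
      have h2 : hd (ac (g ^ k) x) (ac (g ^ (k + 1)) x) = r := by
        rw [pow_succ, ac_mul, hd_ac hk]
      rw [h2] at h1
      push_cast
      linarith
  have h00 : ∀ k : ℕ, ((g ^ k : GLn n) : Matrix (Fin (n+1)) (Fin (n+1)) ℝ) 0 0 ≤
      Real.exp (2 * D + k * r) := by
    intro k
    have hk := E1f_isIso hg k
    have h1 : ((g ^ k : GLn n) : Matrix (Fin (n+1)) (Fin (n+1)) ℝ) 0 0 =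
        Real.cosh (hd (e0 n) (ac (g ^ k) (e0 n))) := by
      rw [cosh_hd he (ac_mem hk he), q_e0]
      exact (h2_e0 _).symm
    have h2 : hd (e0 n) (ac (g ^ k) (e0 n)) ≤ 2 * D + k * r := by
      have h3 := hd_triangle he hx (ac_mem hk he)
      have h4 := hd_triangle hx (ac_mem hk hx) (ac_mem hk he)
      have h5 : hd (ac (g ^ k) x) (ac (g ^ k) (e0 n)) = D := by
        rw [hd_ac hk, hd_symm]
      rw [h5] at h4
      linarith [hdx k]
    have h6 : 0 ≤ hd (e0 n) (ac (g ^ k) (e0 n)) := hd_nonneg he (ac_mem hk he)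
    rw [h1]
    refine le_trans ?_ (Real.exp_le_exp.mpr h2)
    rw [Real.cosh_eq]
    have h7 : Real.exp (-hd (e0 n) (ac (g ^ k) (e0 n))) ≤ Real.exp (hd (e0 n) (ac (g ^ k) (e0 n))) :=
      Real.exp_le_exp.mpr (by linarith)
    linarith
  -- the largest coordinate
  obtain ⟨i, hi⟩ := Finite.exists_max (fun i => ‖w i‖)
  have hwi : 0 < ‖w i‖ := by
    by_contra hcon
    apply hw0
    funext j
    have h1 := hi j
    have h2 : ‖w j‖ ≤ 0 := by linarith
    exact norm_le_zero_iff.mp h2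
  have hb : ∀ k : ℕ, ‖c‖ ^ k ≤ (n + 1 : ℝ) * (2 * Real.exp (2 * D + k * r)) := by
    intro k
    have h1 := congrFun (E1f_cm hw k) i
    rw [Pi.smul_apply, smul_eq_mul, Matrix.mulVec, dotProduct] at h1
    have h2 : ‖c‖ ^ k * ‖w i‖ ≤ (n + 1 : ℝ) * (2 * Real.exp (2 * D + k * r)) * ‖w i‖ := by
      rw [← norm_pow, ← norm_mul, ← h1]
      refine (norm_sum_le _ _).trans ?_
      have h3 : ∀ j ∈ (Finset.univ : Finset (Fin (n+1))), ‖cm (g ^ k) i j * w j‖ ≤
          2 * Real.exp (2 * D + k * r) * ‖w i‖ := by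
        intro j _
        rw [norm_mul, cm, Matrix.map_apply]
        refine mul_le_mul ?_ (hi j) (norm_nonneg _) (by positivity)
        rw [Complex.norm_real, Real.norm_eq_abs]
        have h4 := entry_le (E1f_isIso hg k) i j
        have h5 := h00 k
        linarith
      refine (Finset.sum_le_card_nsmul _ _ _ h3).trans ?_
      rw [Finset.card_univ, Fintype.card_fin, nsmul_eq_mul]
      push_cast
      linarith
    exact le_of_mul_le_mul_right h2 hwi
  by_contra hcon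
  push Not at hcon
  have hq : 1 < ‖c‖ / Real.exp r := (one_lt_div (Real.exp_pos r)).mpr hcon
  have h1 : ∀ k : ℕ, (‖c‖ / Real.exp r) ^ k ≤ (n + 1 : ℝ) * (2 * Real.exp (2 * D)) := by
    intro k
    rw [div_pow, div_le_iff₀ (by positivity), ← Real.exp_nat_mul]
    have h2 := hb k
    rw [Real.exp_add] at h2
    linarith
  obtain ⟨k, hk⟩ := pow_unbounded_of_one_lt ((n + 1 : ℝ) * (2 * Real.exp (2 * D))) hq
  linarith [h1 k]

end Pool.Agent.TGS
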