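import Pool.Agent.TGS.E1f

set_option autoImplicit false
open Set Pool.Agent.TGL

namespace Pool.Agent.TGS

variable {n : ℕ}

section Gelfand

attribute [local instance] Matrix.linftyOpNormedRing Matrix.linftyOpNormedAlgebra
  Matrix.linftyOpNormedAddCommGroup Matrix.linftyOpNormedSpace

/-- If all eigenvalues of `B` have absolute value `≤ 1`, the powers of `B` do not grow
exponentially. -/
private theorem e1g_gelfand (B : Matrix (Fin (n+1)) (Fin (n+1)) ℂ)
    (hB : ∀ c : ℂ, (∃ w : Fin (n+1) → ℂ, w ≠ 0 ∧ B.mulVec w = c • w) → ‖c‖ ≤ 1)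
    (κ ε : ℝ) (hκ : 0 < κ) (hε : 0 < ε)
    (hgrow : ∀ m : ℕ, κ * Real.exp (m * ε) ≤ ‖B ^ (m + 1)‖) : False := by
  haveI : CompleteSpace (Matrix (Fin (n+1)) (Fin (n+1)) ℂ) := FiniteDimensional.complete ℂ _
  have hspec : spectralRadius ℂ B ≤ 1 := by
    unfold spectralRadius
    refine iSup₂_le fun c hc => ?_
    have h1 : c ∈ spectrum ℂ (Matrix.toLin' B) := by rwa [Matrix.spectrum_toLin']
    obtain ⟨w, hw⟩ := (Module.End.hasEigenvalue_iff_mem_spectrum.2 h1).exists_hasEigenvector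
    have h2 : ‖c‖ ≤ 1 := hB c ⟨w, hw.2, by simpa using hw.apply_eq_smul⟩
    exact_mod_cast h2
  have hlim := spectrum.pow_norm_pow_one_div_tendsto_nhds_spectralRadius B
  have hlt : spectralRadius ℂ B < ENNReal.ofReal (Real.exp (ε / 2)) := by
    refine lt_of_le_of_lt hspec ?_
    rw [← ENNReal.ofReal_one]
    exact (ENNReal.ofReal_lt_ofReal_iff (Real.exp_pos _)).2 (Real.one_lt_exp_iff.2 (by linarith))
  have hev := hlim.eventually_lt_const hlt
  have hev2 : ∀ᶠ m : ℕ in Filter.atTop, Real.exp ε / κ < Real.exp (m * (ε / 2)) := by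
    have h3 : Filter.Tendsto (fun m : ℕ => Real.exp (m * (ε / 2))) Filter.atTop Filter.atTop :=
      Real.tendsto_exp_atTop.comp
        ((tendsto_natCast_atTop_atTop).atTop_mul_const (by linarith))
    exact h3.eventually_gt_atTop _
  obtain ⟨m, ⟨hm1, hm2⟩, hm3⟩ := ((hev.and hev2).and (Filter.eventually_ge_atTop 1)).exists
  obtain ⟨k, rfl⟩ : ∃ k, m = k + 1 := ⟨m - 1, by omega⟩
  have h4 : ‖B ^ (k + 1)‖ ^ (1 / ((k + 1 : ℕ) : ℝ)) < Real.exp (ε / 2) :=
    (ENNReal.ofReal_lt_ofReal_iff (Real.exp_pos _)).1 hm1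
  have h5 : ‖B ^ (k + 1)‖ < Real.exp (((k + 1 : ℕ) : ℝ) * (ε / 2)) := by
    have h6 := Real.rpow_lt_rpow (Real.rpow_nonneg (norm_nonneg _) _) h4
      (z := ((k + 1 : ℕ) : ℝ)) (by positivity)
    rw [← Real.rpow_mul (norm_nonneg _), one_div, inv_mul_cancel₀ (by positivity),
      Real.rpow_one, ← Real.exp_mul, mul_comm] at h6
    exact h6
  have h7 := (hgrow k).trans_lt h5
  rw [div_lt_iff₀ hκ] at hm2
  have h8 : Real.exp ((k : ℝ) * ε) * Real.exp ε
      = Real.exp (((k + 1 : ℕ) : ℝ) * (ε / 2)) * Real.exp (((k + 1 : ℕ) : ℝ) * (ε / 2)) := by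
    rw [← Real.exp_add, ← Real.exp_add]
    congr 1
    push_cast
    ring
  set E := Real.exp (((k + 1 : ℕ) : ℝ) * (ε / 2)) with hE
  have hEpos : 0 < E := Real.exp_pos _
  have h9 : κ * (Real.exp ((k : ℝ) * ε) * Real.exp ε) < E * Real.exp ε := by
    have := mul_lt_mul_of_pos_right h7 (Real.exp_pos ε)
    linarith
  rw [h8] at h9
  nlinarith

private theorem e1g_lower (A : Matrix (Fin (n+1)) (Fin (n+1)) ℝ) (y : Fin (n+1) → ℝ) :
    q y (A.mulVec y) ≤ (∑ i, |y i|) * (∑ i, |y i|) * ‖A.map Complex.ofReal‖ := by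
  set v : Fin (n+1) → ℂ := fun i => ((y i : ℝ) : ℂ) with hv
  have hw : (A.map Complex.ofReal).mulVec v = fun i => ((A.mulVec y i : ℝ) : ℂ) := by
    funext i
    simp [Matrix.mulVec, dotProduct, hv]
  have hvn : ‖v‖ ≤ ∑ i, |y i| := by
    refine (pi_norm_le_iff_of_nonneg (Finset.sum_nonneg fun i _ => abs_nonneg _)).2 fun i => ?_
    have : ‖v i‖ = |y i| := by simp [hv]
    rw [this]
    exact Finset.single_le_sum (f := fun i => |y i|) (fun i _ => abs_nonneg _) (Finset.mem_univ i)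
  have hwi : ∀ i, |A.mulVec y i| ≤ ‖A.map Complex.ofReal‖ * ∑ i, |y i| := by
    intro i
    have h1 : |A.mulVec y i| = ‖((A.map Complex.ofReal).mulVec v) i‖ := by
      rw [hw]; simp
    rw [h1]
    refine (norm_le_pi_norm _ i).trans ((Matrix.linfty_opNorm_mulVec _ _).trans ?_)
    exact mul_le_mul_of_nonneg_left hvn (norm_nonneg _)
  have hq : q y (A.mulVec y) ≤ ∑ i, |y i| * |A.mulVec y i| := by
    rw [Fin.sum_univ_succ]
    unfold q
    have h2 : y 0 * A.mulVec y 0 ≤ |y 0| * |A.mulVec y 0| := by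
      rw [← abs_mul]; exact le_abs_self _
    have h3 : -∑ i : Fin n, y i.succ * A.mulVec y i.succ
        ≤ ∑ i : Fin n, |y i.succ| * |A.mulVec y i.succ| := by
      rw [← Finset.sum_neg_distrib]
      refine Finset.sum_le_sum fun i _ => ?_
      rw [← abs_mul]; exact neg_le_abs _
    linarith
  refine hq.trans ?_
  calc ∑ i, |y i| * |A.mulVec y i|
      ≤ ∑ i, |y i| * (‖A.map Complex.ofReal‖ * ∑ i, |y i|) :=
        Finset.sum_le_sum fun i _ => mul_le_mul_of_nonneg_left (hwi i) (abs_nonneg _)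
    _ = (∑ i, |y i|) * (∑ i, |y i|) * ‖A.map Complex.ofReal‖ := by
        rw [← Finset.sum_mul]; ring

/-- Row TGS-E1g. A hyperbolic isometry has an eigenvalue of absolute value `> 1`.

Proof. `¬ Ell g` gives `y ∈ Hyp n` with `ε := a₂ - a₁ - 4 > 0` in the notation of `growth`, so
`hd y (ac (g^(m+1)) y) ≥ m ε` for all `m` and `q y (ac (g^(m+1)) y) = cosh (..) ≥ exp (m ε) / 2`
(`cosh_hd`). On the other hand `|q y (ac (g^k) y)| ≤ (∑ |y i|)^2 * max entry of g^k
≤ (∑ |y i|)^2 * ‖(cm g)^k‖` for the operator norm `Matrix.linftyOpNormedRing` etc. (local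
instances `Matrix.linftyOpNormedRing`, `Matrix.linftyOpNormedAlgebra`; an entry is bounded by the
norm: `Matrix.linfty_opNorm_def`); `cm (g^k) = (cm g)^k`. So `‖(cm g)^(m+1)‖ ≥ κ exp (m ε)` with
`κ > 0`, hence (Gelfand formula `spectrum.pow_nnnorm_pow_one_div_tendsto_nhds_spectralRadius`,
the algebra is complete as a finite dimensional space) `spectralRadius ℂ (cm g) ≥ exp ε > 1`, and
`spectrum.exists_nnnorm_eq_spectralRadius` gives `c ∈ spectrum ℂ (cm g)` with `‖c‖ > 1`; `c` is an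
eigenvalue: `Matrix.mem_spectrum_iff_isRoot_charpoly` / `det = 0`,
`Matrix.exists_mulVec_eq_zero_iff`. (Any other proof is fine, for example: if all eigenvalues have
absolute value `≤ 1` the entries of the powers grow at most polynomially.) -/
theorem eig_big {g : GLn n} (hg : IsIso (g : Matrix (Fin (n+1)) (Fin (n+1)) ℝ)) (h : ¬ Ell g) :
    ∃ c, IsEig g c ∧ 1 < ‖c‖ := by
  classical
  unfold Ell at h
  push Not at h
  obtain ⟨y, hy, hlt⟩ := h
  by_contra hcon
  push Not at hcon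
  have hpow : ∀ m : ℕ, IsIso ((g ^ m : GLn n) : Matrix (Fin (n+1)) (Fin (n+1)) ℝ) := by
    intro m
    induction m with
    | zero => rw [pow_zero]; exact IsIso.one
    | succ k ih => rw [pow_succ, Units.val_mul]; exact ih.mul hg
  set ε : ℝ := hd y (ac (g * g) y) - hd y (ac g y) - 4 with hε
  have hεpos : 0 < ε := by rw [hε]; linarith
  have hgr : ∀ m : ℕ, (m : ℝ) * ε ≤ hd y (ac (g ^ (m + 1)) y) := by
    intro m
    have h1 := growth hg hy hlt m
    have h2 := hd_nonneg hy (ac_mem hg hy)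
    rw [← hε] at h1
    linarith
  have hqq : ∀ m : ℕ, Real.exp (m * ε) / 2 ≤ q y (ac (g ^ (m + 1)) y) := by
    intro m
    rw [← cosh_hd hy (ac_mem (hpow (m + 1)) hy), Real.cosh_eq]
    have h1 := Real.exp_le_exp.2 (hgr m)
    have h2 := Real.exp_pos (-hd y (ac (g ^ (m + 1)) y))
    linarith
  have hcm : ∀ m : ℕ, (((g ^ m : GLn n) : Matrix (Fin (n+1)) (Fin (n+1)) ℝ)).map Complex.ofReal
      = (cm g) ^ m := by
    intro m
    have h1 : ∀ M : Matrix (Fin (n+1)) (Fin (n+1)) ℝ, M.map Complex.ofReal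
        = (Complex.ofRealHom.mapMatrix M) := fun M => rfl
    rw [cm, h1, h1, Units.val_pow_eq_pow_val, map_pow]
  set S : ℝ := ∑ i, |y i| with hS
  have hS0 : 0 < S := by
    have h1 : 0 < y 0 := hy.1
    have h2 : |y 0| ≤ S := Finset.single_le_sum (f := fun i => |y i|)
      (fun i _ => abs_nonneg _) (Finset.mem_univ 0)
    have h3 : 0 < |y 0| := abs_pos.2 h1.ne'
    linarith
  refine e1g_gelfand (cm g) (fun c hc => hcon c hc) (1 / (2 * (S * S))) ε (by positivity) hεpos ?_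
  intro m
  have h1 := hqq m
  have h2 := e1g_lower ((g ^ (m + 1) : GLn n) : Matrix (Fin (n+1)) (Fin (n+1)) ℝ) y
  rw [hcm, ← hS] at h2
  have h3 : Real.exp (m * ε) / 2 ≤ S * S * ‖(cm g) ^ (m + 1)‖ := h1.trans h2
  rw [div_mul_eq_mul_div, one_mul, div_le_iff₀ (by positivity)]
  linarith

end Gelfand

end Pool.Agent.TGS
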