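import Mathlib

set_option autoImplicit false
open Finset

namespace Pool.Agent.TGS

private lemma sum_eval_aux {ι : Type*} [Fintype ι] (x : ι → ℂ) (l : Polynomial ℂ) :
    ∑ j, l.eval (x j) = ∑ k ∈ range (l.natDegree + 1), l.coeff k * ∑ j, x j ^ k := by
  simp_rw [Polynomial.eval_eq_sum_range, Finset.mul_sum]
  exact Finset.sum_comm

/-- Row TGS-P1a. Families with equal power sums have the same non-zero values.

Proof. Let `Z` be the finite set of all values of `x` and `y` other than `x i`, and
`ℓ := X * ∏ z ∈ Z, (X - C z)`, a polynomial without constant term. For every polynomial without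
constant term `∑_j ℓ(x j) = ∑_j ℓ(y j)` (write it as `∑ k ≥ 1` coefficients times power sums,
`Polynomial.eval_eq_sum_range`, `Finset.sum_comm`). The left side is
`#{j | x j = x i} * ℓ(x i) ≠ 0` (all other values are roots of `ℓ`; `ℓ(x i) ≠ 0` as `x i ≠ 0` and
`x i ∉ Z`; characteristic zero). If no `y j` equals `x i`, the right side is `0`. -/
theorem mem_of_psum {ι κ : Type*} [Fintype ι] [Fintype κ] (x : ι → ℂ) (y : κ → ℂ)
    (h : ∀ k : ℕ, 1 ≤ k → ∑ j, x j ^ k = ∑ j, y j ^ k) (i : ι) (hi : x i ≠ 0) : ∃ j, y j = x i := by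
  classical
  by_contra hcon
  push Not at hcon
  set Z : Finset ℂ := ((univ.image x) ∪ (univ.image y)).erase (x i) with hZ
  set l : Polynomial ℂ := Polynomial.X * ∏ z ∈ Z, (Polynomial.X - Polynomial.C z) with hl
  have hc0 : l.coeff 0 = 0 := by
    rw [hl, Polynomial.mul_coeff_zero]; simp
  have hev : ∀ w, l.eval w = w * ∏ z ∈ Z, (w - z) := by
    intro w
    rw [hl, Polynomial.eval_mul, Polynomial.eval_prod]
    simp
  have hroot : ∀ w, w ∈ Z → l.eval w = 0 := by
    intro w hw
    rw [hev, Finset.prod_eq_zero hw (sub_self w), mul_zero]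
  have hli : l.eval (x i) ≠ 0 := by
    rw [hev]
    refine mul_ne_zero hi (Finset.prod_ne_zero_iff.2 fun z hz => ?_)
    rw [hZ, Finset.mem_erase] at hz
    exact sub_ne_zero.2 (Ne.symm hz.1)
  have hsum : ∑ j, l.eval (x j) = ∑ j, l.eval (y j) := by
    rw [sum_eval_aux, sum_eval_aux]
    refine Finset.sum_congr rfl fun k _ => ?_
    rcases Nat.eq_zero_or_pos k with rfl | hk
    · rw [hc0, zero_mul, zero_mul]
    · rw [h k hk]
  have hR : ∑ j, l.eval (y j) = 0 := by
    refine Finset.sum_eq_zero fun j _ => hroot _ ?_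
    rw [hZ, Finset.mem_erase]
    exact ⟨hcon j, Finset.mem_union_right _ (Finset.mem_image_of_mem _ (mem_univ j))⟩
  have hL : ∑ j, l.eval (x j) = ((univ.filter fun j => x j = x i).card : ℂ) * l.eval (x i) := by
    rw [← Finset.sum_filter_add_sum_filter_not univ (fun j => x j = x i)]
    have h1 : ∑ j ∈ univ.filter (fun j => x j = x i), l.eval (x j)
        = ((univ.filter fun j => x j = x i).card : ℂ) * l.eval (x i) := by
      rw [Finset.sum_congr rfl (g := fun _ => l.eval (x i))]
      · rw [Finset.sum_const, nsmul_eq_mul]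
      · intro j hj
        rw [(Finset.mem_filter.1 hj).2]
    have h2 : ∑ j ∈ univ.filter (fun j => ¬ x j = x i), l.eval (x j) = 0 := by
      refine Finset.sum_eq_zero fun j hj => hroot _ ?_
      rw [hZ, Finset.mem_erase]
      exact ⟨(Finset.mem_filter.1 hj).2,
        Finset.mem_union_left _ (Finset.mem_image_of_mem _ (mem_univ j))⟩
    rw [h1, h2, add_zero]
  rw [hR] at hsum
  rw [hL] at hsum
  refine mul_ne_zero ?_ hli hsum
  have : 0 < (univ.filter fun j => x j = x i).card :=
    Finset.card_pos.2 ⟨i, Finset.mem_filter.2 ⟨mem_univ i, rfl⟩⟩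
  exact_mod_cast this.ne'

end Pool.Agent.TGS
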