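import Pool.Agent.TGS.P1a

set_option autoImplicit false
open Finset

namespace Pool.Agent.TGS

/-- Row TGS-P1b. Bounded power sums force the numbers into the closed unit disc.

Proof. If `x i = 0` it is clear. Otherwise let `Z` be the set of the values of `x` other than `x i` and
`ℓ := X * ∏ z ∈ Z, (X - C z) = ∑_{k ≥ 1} ℓ_k X^k`. For every `j : ℕ`,
`∑_k ℓ_k (∑_m x m ^ (k + j)) = ∑_m x m ^ j ℓ(x m) = #{m | x m = x i} * ℓ(x i) * x i ^ j`, with
`a := #{..} * ℓ(x i) ≠ 0`. So `‖a‖ * ‖x i‖ ^ j ≤ B * ∑_k ‖ℓ_k‖` for all `j`, hence `‖x i‖ ≤ 1`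
(`tendsto_pow_atTop_atTop_of_one_lt`). -/
theorem norm_le_one_of_psum {ι : Type*} [Fintype ι] (x : ι → ℂ) (B : ℝ)
    (h : ∀ k : ℕ, 1 ≤ k → ‖∑ j, x j ^ k‖ ≤ B) (i : ι) : ‖x i‖ ≤ 1 := by
  classical
  by_contra hcon
  push Not at hcon
  have hi : x i ≠ 0 := by
    intro h0
    rw [h0, norm_zero] at hcon
    linarith
  set Z : Finset ℂ := (univ.image x).erase (x i) with hZ
  set l : Polynomial ℂ := Polynomial.X * ∏ z ∈ Z, (Polynomial.X - Polynomial.C z) with hl
  have hc0 : l.coeff 0 = 0 := by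
    rw [hl, Polynomial.mul_coeff_zero]; simp
  have hev : ∀ w, l.eval w = w * ∏ z ∈ Z, (w - z) := by
    intro w
    rw [hl, Polynomial.eval_mul, Polynomial.eval_prod]
    simp
  have hroot : ∀ w, w ∈ Z → l.eval w = 0 := by
    intro w hw
    rw [hev, Finset.prod_eq_zero hw (sub_self w), mul_zero]
  have hli : l.eval (x i) ≠ 0 := by
    rw [hev]
    refine mul_ne_zero hi (Finset.prod_ne_zero_iff.2 fun z hz => ?_)
    rw [hZ, Finset.mem_erase] at hz
    exact sub_ne_zero.2 (Ne.symm hz.1)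
  have hL : ∀ j : ℕ, ∑ m, x m ^ j * l.eval (x m)
      = ((univ.filter fun m => x m = x i).card : ℂ) * l.eval (x i) * x i ^ j := by
    intro j
    rw [← Finset.sum_filter_add_sum_filter_not univ (fun m => x m = x i)]
    have h1 : ∑ m ∈ univ.filter (fun m => x m = x i), x m ^ j * l.eval (x m)
        = ((univ.filter fun m => x m = x i).card : ℂ) * l.eval (x i) * x i ^ j := by
      rw [Finset.sum_congr rfl (g := fun _ => x i ^ j * l.eval (x i))]
      · rw [Finset.sum_const, nsmul_eq_mul]; ring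
      · intro m hm
        rw [(Finset.mem_filter.1 hm).2]
    have h2 : ∑ m ∈ univ.filter (fun m => ¬ x m = x i), x m ^ j * l.eval (x m) = 0 := by
      refine Finset.sum_eq_zero fun m hm => ?_
      rw [hroot _ (by
        rw [hZ, Finset.mem_erase]
        exact ⟨(Finset.mem_filter.1 hm).2, Finset.mem_image_of_mem _ (mem_univ m)⟩), mul_zero]
    rw [h1, h2, add_zero]
  have hR : ∀ j : ℕ, ∑ m, x m ^ j * l.eval (x m)
      = ∑ k ∈ range (l.natDegree + 1), l.coeff k * ∑ m, x m ^ (k + j) := by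
    intro j
    simp_rw [Polynomial.eval_eq_sum_range, Finset.mul_sum]
    rw [Finset.sum_comm]
    refine Finset.sum_congr rfl fun k _ => Finset.sum_congr rfl fun m _ => ?_
    rw [pow_add]; ring
  set a : ℂ := ((univ.filter fun m => x m = x i).card : ℂ) * l.eval (x i) with ha
  have ha0 : a ≠ 0 := by
    refine mul_ne_zero ?_ hli
    have : 0 < (univ.filter fun m => x m = x i).card :=
      Finset.card_pos.2 ⟨i, Finset.mem_filter.2 ⟨mem_univ i, rfl⟩⟩
    exact_mod_cast this.ne'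
  have hbound : ∀ j : ℕ, ‖a‖ * ‖x i‖ ^ j ≤ ∑ k ∈ range (l.natDegree + 1), ‖l.coeff k‖ * B := by
    intro j
    rw [← norm_pow, ← norm_mul, ← hL j, hR j]
    refine (norm_sum_le _ _).trans (Finset.sum_le_sum fun k _ => ?_)
    rcases Nat.eq_zero_or_pos k with rfl | hk
    · rw [hc0, zero_mul, norm_zero, zero_mul]
    · rw [norm_mul]
      exact mul_le_mul_of_nonneg_left (h (k + j) (by omega)) (norm_nonneg _)
  have htend := tendsto_pow_atTop_atTop_of_one_lt hcon
  have hpos : 0 < ‖a‖ := norm_pos_iff.2 ha0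
  obtain ⟨j, hj⟩ := (htend.eventually_gt_atTop
    ((∑ k ∈ range (l.natDegree + 1), ‖l.coeff k‖ * B) / ‖a‖)).exists
  have := hbound j
  rw [div_lt_iff₀ hpos] at hj
  nlinarith

end Pool.Agent.TGS
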