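import Pool.Agent.TGS.P1b

set_option autoImplicit false
open Finset

namespace Pool.Agent.TGS

/-- Row TGS-P2a. If all power sums are algebraic integers then `N! * x i` is an algebraic integer,
`N` the number of terms.

Proof. Let `e k` be the elementary symmetric polynomials of the family and `p k` the power sums.
Newton (`MvPolynomial.mul_esymm_eq_sum`, apply `MvPolynomial.aeval x`): `k e_k = ± ∑ ± e_i p_{k-i}`
(sum over `i < k`). By strong induction `k! e_k` is integral (`(k-1)! e_i = ((k-1)!/i!) (i! e_i)` for
`i ≤ k-1`), so `D e_k` is integral for `k ≤ N`, `D := N!`. Then `D x i` is a root of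
`∏_j (X - D x j) = ∑_k (-1)^k D^k e_k X^(N-k)` (`MvPolynomial`/`Multiset.prod_X_sub_X_eq_sum_esymm`,
or `Multiset.prod_X_add_C_eq_sum_esymm`), a monic polynomial whose coefficients `D^k e_k =
D^(k-1) (D e_k)` (`k ≥ 1`) are algebraic integers; so `D x i` is integral over the integral closure
of `ℤ` in `ℂ` and hence over `ℤ` (`isIntegral_trans`, or `integralClosure` is integrally closed:
`integralClosure_idem`). -/
theorem fact_mul_integral {ι : Type*} [Fintype ι] (x : ι → ℂ)
    (h : ∀ k : ℕ, 1 ≤ k → IsIntegral ℤ (∑ j, x j ^ k)) (i : ι) :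
    IsIntegral ℤ (((Fintype.card ι).factorial : ℂ) * x i) := by
  classical
  have hnat : ∀ n : ℕ, IsIntegral ℤ ((n : ℂ)) := fun n => by
    have := isIntegral_algebraMap (R := ℤ) (A := ℂ) (x := (n : ℤ))
    simpa using this
  set e : ℕ → ℂ := fun k => (univ.val.map x).esymm k with he
  have hnewton : ∀ k : ℕ, (k : ℂ) * e k = (-1) ^ (k + 1) *
      ∑ a ∈ antidiagonal k with a.1 < k, (-1) ^ a.1 * e a.1 * ∑ j, x j ^ a.2 := by
    intro k
    have h1 := congrArg (MvPolynomial.aeval x) (MvPolynomial.mul_esymm_eq_sum ι ℤ k)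
    simp only [map_mul, map_natCast, map_pow, map_neg, map_one, map_sum,
      MvPolynomial.aeval_esymm_eq_multiset_esymm, MvPolynomial.psum, MvPolynomial.aeval_X] at h1
    exact h1
  have hint : ∀ k : ℕ, IsIntegral ℤ ((k.factorial : ℂ) * e k) := by
    intro k
    induction k using Nat.strong_induction_on with
    | _ k ih =>
      rcases Nat.eq_zero_or_pos k with rfl | hk
      · have : e 0 = 1 := by simp [he, Multiset.esymm]
        rw [this]
        simpa using hnat 1
      · obtain ⟨m, rfl⟩ : ∃ m, k = m + 1 := ⟨k - 1, by omega⟩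
        have h1 : (((m + 1).factorial : ℕ) : ℂ) * e (m + 1)
            = (-1) ^ (m + 1 + 1) * ∑ a ∈ antidiagonal (m + 1) with a.1 < m + 1,
              (-1) ^ a.1 * ((m.factorial : ℂ) * e a.1) * ∑ j, x j ^ a.2 := by
          have h2 := hnewton (m + 1)
          have h3 : (((m + 1).factorial : ℕ) : ℂ) * e (m + 1)
              = (m.factorial : ℂ) * (((m + 1 : ℕ) : ℂ) * e (m + 1)) := by
            rw [Nat.factorial_succ]; push_cast; ring
          rw [h3, h2, mul_left_comm, Finset.mul_sum]
          congr 1
          refine Finset.sum_congr rfl fun a _ => ?_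
          ring
        rw [h1]
        have hneg : IsIntegral ℤ (-1 : ℂ) := (by simpa using (hnat 1).neg)
        refine (hneg.pow _).mul (IsIntegral.sum _ fun a ha => ?_)
        rw [Finset.mem_filter, Finset.HasAntidiagonal.mem_antidiagonal] at ha
        refine ((hneg.pow _).mul ?_).mul (h _ (by omega))
        have hdvd : a.1.factorial ∣ m.factorial := Nat.factorial_dvd_factorial (by omega)
        obtain ⟨c, hc⟩ := hdvd
        have : (m.factorial : ℂ) * e a.1 = (c : ℂ) * ((a.1.factorial : ℂ) * e a.1) := by
          rw [hc]; push_cast; ring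
        rw [this]
        exact (hnat c).mul (ih _ ha.2)
  set N := Fintype.card ι with hN
  set D : ℂ := (N.factorial : ℂ) with hD
  have hDe : ∀ k ≤ N, IsIntegral ℤ (D * e k) := by
    intro k hk
    obtain ⟨c, hc⟩ := Nat.factorial_dvd_factorial hk
    have : D * e k = (c : ℂ) * ((k.factorial : ℂ) * e k) := by
      rw [hD, hc]; push_cast; ring
    rw [this]
    exact (hnat c).mul (hint k)
  have hcard : Multiset.card (univ.val.map fun j => D * x j) = N := by
    rw [Multiset.card_map, Finset.card_val, Finset.card_univ]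
  have hesymm : ∀ k, (univ.val.map fun j => D * x j).esymm k = D ^ k * e k := by
    intro k
    have := Multiset.pow_smul_esymm D k (univ.val.map x)
    rw [Multiset.map_map] at this
    simpa [smul_eq_mul, Function.comp_def, he] using this.symm
  set f : Polynomial ℂ := ((univ.val.map fun j => D * x j).map
    fun t => Polynomial.X - Polynomial.C t).prod with hf
  have hmonic : f.Monic := Polynomial.monic_multisetProd_X_sub_C _
  have hcoeff : ∀ k, IsIntegral ℤ (f.coeff k) := by
    intro k
    rcases Nat.lt_or_ge N k with hk | hk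
    · have hdeg : f.natDegree = N := by
        rw [hf, Polynomial.natDegree_multiset_prod_X_sub_C_eq_card, hcard]
      rw [Polynomial.coeff_eq_zero_of_natDegree_lt (by omega)]
      exact isIntegral_zero
    · rw [hf, Multiset.prod_X_sub_C_coeff _ (by rw [hcard]; exact hk), hcard, hesymm]
      have hneg : IsIntegral ℤ (-1 : ℂ) := (by simpa using (hnat 1).neg)
      refine (hneg.pow _).mul ?_
      rcases Nat.eq_zero_or_pos (N - k) with h0 | h0
      · rw [h0]
        have : e 0 = 1 := by simp [he, Multiset.esymm]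
        rw [this]
        simpa using hnat 1
      · obtain ⟨m, hm⟩ : ∃ m, N - k = m + 1 := ⟨N - k - 1, by omega⟩
        rw [hm, pow_succ, mul_assoc]
        exact ((hnat _).pow _).mul (hDe _ (by omega))
  have hlift : f ∈ Polynomial.lifts (algebraMap (integralClosure ℤ ℂ) ℂ) := by
    rw [Polynomial.lifts_iff_coeff_lifts]
    intro k
    exact ⟨⟨f.coeff k, hcoeff k⟩, rfl⟩
  obtain ⟨q, hq1, _, hq3⟩ := Polynomial.lifts_and_natDegree_eq_and_monic hlift hmonic
  have hroot : Polynomial.eval₂ (algebraMap (integralClosure ℤ ℂ) ℂ) (D * x i) q = 0 := by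
    rw [← Polynomial.eval_map, hq1, hf, Polynomial.eval_multiset_prod]
    refine Multiset.prod_eq_zero ?_
    rw [Multiset.mem_map]
    refine ⟨Polynomial.X - Polynomial.C (D * x i), ?_, by simp⟩
    rw [Multiset.mem_map]
    exact ⟨D * x i, Multiset.mem_map.2 ⟨i, Finset.mem_univ_val i, rfl⟩, rfl⟩
  have hI : IsIntegral (integralClosure ℤ ℂ) (D * x i) := ⟨q, hq3, hroot⟩
  exact isIntegral_trans (R := ℤ) (A := integralClosure ℤ ℂ) _ hI

end Pool.Agent.TGS
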