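import Pool.Agent.TGS.P2a

set_option autoImplicit false
open Finset

namespace Pool.Agent.TGS

/-- Row TGS-P2b. If `D y^j` is an algebraic integer for all `j ≥ 1` (`D` a non-zero natural number)
then `y` is an algebraic integer.

Proof. `y = (D y) / D` is algebraic over `ℚ`, let `E := ℚ⟮y⟯ ⊆ ℂ`, finite dimensional over `ℚ`, and
`O := integralClosure ℤ E`, a finitely generated `ℤ`-module (`IsIntegralClosure.isNoetherian` /
`NumberField.RingOfIntegers`), hence Noetherian. The `ℤ`-submodule `M` of `E` spanned by the elements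
`D y^j`, `j ≥ 1`, is contained in `O`, so it is finitely generated. If `y = 0` we are done; otherwise
`M ≠ ⊥` and `y • M ⊆ M`. `isIntegral_of_smul_mem_submodule` gives that `y` (in `E`) is integral over
`ℤ`; map to `ℂ`. -/
theorem integral_of_mul_pow {D : ℕ} (hD : D ≠ 0) (y : ℂ)
    (h : ∀ j : ℕ, 1 ≤ j → IsIntegral ℤ ((D : ℂ) * y ^ j)) : IsIntegral ℤ y := by
  classical
  rcases eq_or_ne y 0 with rfl | hy0
  · exact isIntegral_zero
  have hDC : (D : ℂ) ≠ 0 := by exact_mod_cast hD
  have hyQ : IsIntegral ℚ y := by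
    have h1 : IsIntegral ℚ ((D : ℂ) * y ^ 1) := (h 1 le_rfl).tower_top
    have h2 : IsIntegral ℚ (algebraMap ℚ ℂ ((D : ℚ)⁻¹)) := isIntegral_algebraMap
    have h3 := h2.mul h1
    have h4 : algebraMap ℚ ℂ ((D : ℚ)⁻¹) * ((D : ℂ) * y ^ 1) = y := by
      rw [map_inv₀, map_natCast, pow_one, ← mul_assoc, inv_mul_cancel₀ hDC, one_mul]
    rwa [h4] at h3
  let E : IntermediateField ℚ ℂ := IntermediateField.adjoin ℚ {y}
  haveI : FiniteDimensional ℚ E := IntermediateField.adjoin.finiteDimensional hyQ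
  haveI : NumberField E := ⟨⟩
  let z : E := ⟨y, IntermediateField.mem_adjoin_simple_self ℚ y⟩
  have hz0 : z ≠ 0 := fun hz => hy0 (congrArg Subtype.val hz)
  let O : Submodule ℤ E := Subalgebra.toSubmodule (integralClosure ℤ E)
  haveI hO : IsNoetherian ℤ O := inferInstanceAs (IsNoetherian ℤ (NumberField.RingOfIntegers E))
  let M : Submodule ℤ E := Submodule.span ℤ (Set.range fun j : ℕ => (D : E) * z ^ (j + 1))
  have hMO : M ≤ O := by
    refine Submodule.span_le.2 ?_
    rintro _ ⟨j, rfl⟩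
    change IsIntegral ℤ ((D : E) * z ^ (j + 1))
    have h1 := h (j + 1) (by omega)
    refine (isIntegral_algHom_iff (E.val.restrictScalars ℤ) (E.val.injective)).1 ?_
    have h2 : (E.val.restrictScalars ℤ) ((D : E) * z ^ (j + 1)) = (D : ℂ) * y ^ (j + 1) := by
      change ((((D : E) * z ^ (j + 1) : E)) : ℂ) = _
      push_cast
      rfl
    rw [h2]
    exact h1
  haveI : IsNoetherian ℤ M := isNoetherian_of_le hMO
  have hfg : M.FG := (Submodule.fg_top M).1 (IsNoetherian.noetherian ⊤)
  have hne : M ≠ ⊥ := by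
    intro hbot
    have h1 : (D : E) * z ^ (0 + 1) ∈ M := Submodule.subset_span ⟨0, rfl⟩
    rw [hbot, Submodule.mem_bot] at h1
    have hDE : (D : E) ≠ 0 := by exact_mod_cast hD
    exact mul_ne_zero hDE (pow_ne_zero _ hz0) h1
  have hsm : ∀ n ∈ M, z • n ∈ M := by
    intro n hn
    refine Submodule.span_induction (p := fun n _ => z • n ∈ M) ?_ ?_ ?_ ?_ hn
    · rintro _ ⟨j, rfl⟩
      have : z • ((D : E) * z ^ (j + 1)) = (D : E) * z ^ (j + 1 + 1) := by
        rw [smul_eq_mul]; ring
      change z • ((D : E) * z ^ (j + 1)) ∈ M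
      rw [this]
      exact Submodule.subset_span ⟨j + 1, rfl⟩
    · rw [smul_zero]; exact M.zero_mem
    · intro a b _ _ ha hb
      rw [smul_add]; exact M.add_mem ha hb
    · intro c a _ ha
      rw [smul_comm]; exact M.smul_mem c ha
  have hint : IsIntegral ℤ z := isIntegral_of_smul_mem_submodule M hne hfg z hsm
  exact hint.map (E.val.restrictScalars ℤ)

end Pool.Agent.TGS
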