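import Pool.Agent.TGS.P2b

set_option autoImplicit false
open Finset

namespace Pool.Agent.TGS

/-- If all power sums are algebraic integers, so are all the numbers. -/
theorem integral_of_psum {ι : Type*} [Fintype ι] (x : ι → ℂ)
    (h : ∀ k : ℕ, 1 ≤ k → IsIntegral ℤ (∑ j, x j ^ k)) (i : ι) : IsIntegral ℤ (x i) := by
  refine integral_of_mul_pow (Nat.factorial_ne_zero (Fintype.card ι)) (x i) ?_
  intro j hj
  refine fact_mul_integral (fun m => x m ^ j) ?_ i
  intro k hk
  have e : ∀ m, (x m ^ j) ^ k = x m ^ (j * k) := fun m => by rw [pow_mul]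
  simp only [e]
  exact h (j * k) (Nat.one_le_iff_ne_zero.mpr (Nat.mul_ne_zero (by omega) (by omega)))

end Pool.Agent.TGS
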