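import Pool.Agent.TGS.P2c

set_option autoImplicit false
open Finset

namespace Pool.Agent.TGS

/-- Row TGS-P3. If the squares of the power sums of `x` and `l` agree, where `l` is closed under
inversion and has only one value `l a` of absolute value `> 1`, then `x = ± l` up to order; we need
only: every `(x i)^2` is some `(l j)^2`.

Proof. The families `(i, j) ↦ x i * x j` and `(i, j) ↦ l i * l j` over `ι × ι` have the same power
sums (`∑ (x i x j)^k = (∑ x i^k)^2`: `Finset.sum_mul_sum`, `Fintype.sum_prod_type`), so by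
`mem_of_psum` (1) every `x i * x j` is some `l i' * l j'` and (2) every `l i' * l j'` is some
`x i * x j`. Let `R := ‖l a‖ > 1`. Every `‖l j‖` is `R`, `1` or `R⁻¹`, and is `R` only if `l j = l a`,
`R⁻¹` only if `l j = (l a)⁻¹` (use `hli`, `hlu`). By (1), `‖x i‖² = ‖l i' l j'‖ ≤ R²`, so
`‖x i‖ ≤ R` for all `i`. By (2), `l a * l a = x i * x j` for some `i, j`, so `‖x i‖ = R` for some
`i =: b`. By (1) `x b * x b = l i' * l j'` with norm `R²`, so `l i' = l j' = l a`, `(x b)^2 = (l a)^2`.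
Now let `i` be arbitrary. Write `x b * x i = l i' * l j'`, norm `R ‖x i‖ ∈ {R², R, 1, R⁻¹, R⁻²}`.
Case `‖x i‖ = R`: then `(x i)^2 = (l a)^2` as for `b`. Case `‖x i‖ = 1`: the norm is `R`, so (up to
order) `l i' = l a` and `‖l j'‖ = 1`; squaring, `(l a)^2 (x i)^2 = (x b)^2 (x i)^2 = (l a)^2 (l j')^2`
and `(x i)^2 = (l j')^2`. Case `‖x i‖ < 1`: by `hxi` there is `j` with `x j = (x i)⁻¹`,
`‖x j‖ > 1`, and `‖x j‖ ∈ {R, 1, R⁻¹, R⁻², R⁻³}` (from the list), so `‖x j‖ = R`,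
`(x j)^2 = (l a)^2`, `(x i)^2 = ((l a)⁻¹)^2`, and `(l a)⁻¹` is some `l j'` by `hli`. Case
`1 < ‖x i‖ < R`: excluded by the list of possible values of `‖x i‖ = (norm)/R`. -/
theorem sign_family {ι : Type*} [Fintype ι] (l x : ι → ℂ) (a : ι) (ha : 1 < ‖l a‖)
    (hl0 : ∀ i, l i ≠ 0) (hli : ∀ i, ∃ j, l j = (l i)⁻¹) (hlu : ∀ i, 1 < ‖l i‖ → l i = l a)
    (hx0 : ∀ i, x i ≠ 0) (hxi : ∀ i, ∃ j, x j = (x i)⁻¹)
    (hp : ∀ k : ℕ, 1 ≤ k → (∑ i, x i ^ k) ^ 2 = (∑ i, l i ^ k) ^ 2) (i : ι) :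
    ∃ j, (x i) ^ 2 = (l j) ^ 2 := by
  classical
  have hsq : ∀ (y : ι → ℂ) (k : ℕ), ∑ p : ι × ι, (y p.1 * y p.2) ^ k = (∑ i, y i ^ k) ^ 2 := by
    intro y k
    rw [sq, Finset.sum_mul_sum, Fintype.sum_prod_type]
    exact Finset.sum_congr rfl fun u _ => Finset.sum_congr rfl fun v _ => mul_pow _ _ _
  have h1 : ∀ u v, ∃ u' v', l u' * l v' = x u * x v := by
    intro u v
    obtain ⟨⟨u', v'⟩, h⟩ := mem_of_psum (fun p : ι × ι => x p.1 * x p.2)
      (fun p : ι × ι => l p.1 * l p.2) (fun k hk => by rw [hsq, hsq, hp k hk]) (u, v)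
      (mul_ne_zero (hx0 u) (hx0 v))
    exact ⟨u', v', h⟩
  have h2 : ∀ u v, ∃ u' v', x u' * x v' = l u * l v := by
    intro u v
    obtain ⟨⟨u', v'⟩, h⟩ := mem_of_psum (fun p : ι × ι => l p.1 * l p.2)
      (fun p : ι × ι => x p.1 * x p.2) (fun k hk => by rw [hsq, hsq, hp k hk]) (u, v)
      (mul_ne_zero (hl0 u) (hl0 v))
    exact ⟨u', v', h⟩
  set R : ℝ := ‖l a‖ with hR
  have hle : ∀ j, ‖l j‖ ≤ R := by
    intro j
    rcases lt_or_ge 1 ‖l j‖ with h | h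
    · rw [hlu j h]
    · exact h.trans ha.le
  -- a product of two values of `l` with norm `> R` is `l a * l a`
  have hbig : ∀ u v, R < ‖l u * l v‖ → l u = l a ∧ l v = l a := by
    intro u v h
    rw [norm_mul] at h
    constructor
    · refine hlu u ?_
      by_contra hc
      push Not at hc
      nlinarith [hle v, norm_nonneg (l u), norm_nonneg (l v)]
    · refine hlu v ?_
      by_contra hc
      push Not at hc
      nlinarith [hle u, norm_nonneg (l u), norm_nonneg (l v)]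
  have hla2 : (l a) ^ 2 ≠ 0 := pow_ne_zero _ (hl0 a)
  obtain ⟨b, hb⟩ : ∃ b, (x b) ^ 2 = (l a) ^ 2 := by
    obtain ⟨u, v, huv⟩ := h2 a a
    have hn : ‖x u‖ * ‖x v‖ = R * R := by rw [← norm_mul, huv, norm_mul]
    have hor : R ≤ ‖x u‖ ∨ R ≤ ‖x v‖ := by
      by_contra hc
      push Not at hc
      nlinarith [norm_nonneg (x u), norm_nonneg (x v)]
    have hgen : ∀ b, R ≤ ‖x b‖ → (x b) ^ 2 = (l a) ^ 2 := by
      intro b hb
      obtain ⟨u', v', h⟩ := h1 b b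
      have hh : R < ‖l u' * l v'‖ := by
        rw [h, norm_mul]
        nlinarith
      obtain ⟨e1, e2⟩ := hbig u' v' hh
      rw [e1, e2] at h
      rw [sq, sq, ← h]
    rcases hor with h | h
    · exact ⟨u, hgen u h⟩
    · exact ⟨v, hgen v h⟩
  have hbn : ‖x b‖ = R := by
    have h3 : ‖x b‖ ^ 2 = R ^ 2 := by rw [← norm_pow, hb, norm_pow]
    exact (pow_left_inj₀ (norm_nonneg _) (by linarith) two_ne_zero).1 h3
  have hA : ∀ u, 1 < ‖x u‖ → (x u) ^ 2 = (l a) ^ 2 := by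
    intro u hu
    obtain ⟨u', v', h⟩ := h1 b u
    have hh : R < ‖l u' * l v'‖ := by
      rw [h, norm_mul, hbn]
      nlinarith
    obtain ⟨e1, e2⟩ := hbig u' v' hh
    rw [e1, e2] at h
    have h4 : (l a) ^ 2 * (l a) ^ 2 = (l a) ^ 2 * (x u) ^ 2 := by
      calc (l a) ^ 2 * (l a) ^ 2 = (l a * l a) ^ 2 := by ring
        _ = (x b * x u) ^ 2 := by rw [h]
        _ = (x b) ^ 2 * (x u) ^ 2 := by ring
        _ = (l a) ^ 2 * (x u) ^ 2 := by rw [hb]
    exact (mul_left_cancel₀ hla2 h4).symm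
  rcases lt_trichotomy ‖x i‖ 1 with hi | hi | hi
  · obtain ⟨j, hj⟩ := hxi i
    have hjn : 1 < ‖x j‖ := by
      rw [hj, norm_inv]
      exact (one_lt_inv₀ (norm_pos_iff.2 (hx0 i))).2 hi
    have h5 := hA j hjn
    obtain ⟨j', hj'⟩ := hli a
    refine ⟨j', ?_⟩
    rw [hj', inv_pow, ← h5, hj, inv_pow, inv_inv]
  · obtain ⟨u', v', h⟩ := h1 b i
    have hn : ‖l u'‖ * ‖l v'‖ = R := by rw [← norm_mul, h, norm_mul, hbn, hi, mul_one]
    have hsqr : (l u') ^ 2 * (l v') ^ 2 = (l a) ^ 2 * (x i) ^ 2 := by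
      calc (l u') ^ 2 * (l v') ^ 2 = (l u' * l v') ^ 2 := by ring
        _ = (x b * x i) ^ 2 := by rw [h]
        _ = (x b) ^ 2 * (x i) ^ 2 := by ring
        _ = (l a) ^ 2 * (x i) ^ 2 := by rw [hb]
    rcases lt_or_ge 1 ‖l u'‖ with hu | hu
    · refine ⟨v', ?_⟩
      rw [hlu u' hu] at hsqr
      exact (mul_left_cancel₀ hla2 hsqr).symm
    · rcases lt_or_ge 1 ‖l v'‖ with hv | hv
      · refine ⟨u', ?_⟩
        rw [hlu v' hv, mul_comm] at hsqr
        exact (mul_left_cancel₀ hla2 hsqr).symm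
      · exfalso
        nlinarith [norm_nonneg (l u'), norm_nonneg (l v')]
  · exact ⟨a, hA i hi⟩

end Pool.Agent.TGS
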