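import Pool.Agent.TGS.Defs

set_option autoImplicit false
open Set Pool.Agent.TGL

namespace Pool.Agent.TGS

variable {n : ℕ}

theorem chd_nonneg (u v : Fin (n+1) → ℝ) : 0 ≤ chd u v := Real.sqrt_nonneg _

theorem chd_self (u : Fin (n+1) → ℝ) : chd u u = 0 := by
  unfold chd
  rw [sub_self, q_zero_left, neg_zero, Real.sqrt_zero]

theorem chd_comm (u v : Fin (n+1) → ℝ) : chd u v = chd v u := by
  unfold chd
  rw [← neg_sub v u, q_neg_left, q_neg_right, neg_neg]

theorem q_expand (u v : Fin (n+1) → ℝ) : q (u - v) (u - v) = q u u - 2 * q u v + q v v := by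
  rw [q_sub_left, q_sub_right, q_sub_right, q_comm v u]
  ring

theorem chd_sq {c u v : Fin (n+1) → ℝ} (hc : c ∈ Hyp n) (hu : IsUT c u) (hv : IsUT c v) :
    chd u v ^ 2 = 2 + 2 * q u v := by
  have h := abs_le.mp (abs_q_UT hc hu hv)
  unfold chd
  rw [Real.sq_sqrt]
  · rw [q_expand, hu.2, hv.2]
    ring
  · rw [q_expand, hu.2, hv.2]
    linarith [h.1]

theorem q_eq_chd {c u v : Fin (n+1) → ℝ} (hc : c ∈ Hyp n) (hu : IsUT c u) (hv : IsUT c v) :
    q u v = chd u v ^ 2 / 2 - 1 := by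
  rw [chd_sq hc hu hv]
  ring

theorem chd_le_two {c u v : Fin (n+1) → ℝ} (hc : c ∈ Hyp n) (hu : IsUT c u) (hv : IsUT c v) :
    chd u v ≤ 2 := by
  have h := abs_le.mp (abs_q_UT hc hu hv)
  have h2 := chd_sq hc hu hv
  nlinarith [chd_nonneg u v]

/-- Norm triangle inequality on the tangent space. -/
theorem nn_add_le {c w w' : Fin (n+1) → ℝ} (hc : c ∈ Hyp n) (h : q c w = 0) (h' : q c w' = 0) :
    Real.sqrt (-q (w + w') (w + w')) ≤ Real.sqrt (-q w w) + Real.sqrt (-q w' w') := by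
  have h1 := q_neg hc h
  have h2 := q_neg hc h'
  have hcs := q_cs hc h h'
  have e1 : Real.sqrt (-q w w) ^ 2 = -q w w := Real.sq_sqrt (by linarith)
  have e2 : Real.sqrt (-q w' w') ^ 2 = -q w' w' := Real.sq_sqrt (by linarith)
  have n1 := Real.sqrt_nonneg (-q w w)
  have n2 := Real.sqrt_nonneg (-q w' w')
  apply Real.sqrt_le_iff.mpr
  refine ⟨by positivity, ?_⟩
  have hx : q (w + w') (w + w') = q w w + 2 * q w w' + q w' w' := by
    rw [q_add_left, q_add_right, q_add_right, q_comm w' w]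
    ring
  rw [hx]
  have h3 : -q w w' ≤ Real.sqrt (-q w w) * Real.sqrt (-q w' w') := by
    have h4 : (-q w w') ^ 2 ≤ (Real.sqrt (-q w w) * Real.sqrt (-q w' w')) ^ 2 := by
      rw [mul_pow, e1, e2]
      linarith
    exact (le_abs_self _).trans (abs_le_of_sq_le_sq h4 (by positivity))
  nlinarith

theorem chd_triangle {c u v w : Fin (n+1) → ℝ} (hc : c ∈ Hyp n) (hu : IsUT c u) (hv : IsUT c v)
    (hw : IsUT c w) : chd u w ≤ chd u v + chd v w := by
  have h := nn_add_le (w := u - v) (w' := v - w) hc (by rw [q_sub_right, hu.1, hv.1, sub_zero])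
    (by rw [q_sub_right, hv.1, hw.1, sub_zero])
  rwa [sub_add_sub_cancel] at h

theorem chd_ac {g : GLn n} (hg : IsIso (g : Matrix (Fin (n+1)) (Fin (n+1)) ℝ))
    (u v : Fin (n+1) → ℝ) : chd (ac g u) (ac g v) = chd u v := by
  unfold chd
  have e : ac g u - ac g v = ac g (u - v) := by
    have h1 := ac_add g u ((-1 : ℝ) • v)
    rw [ac_smul] at h1
    have h2 : u + (-1 : ℝ) • v = u - v := by
      rw [neg_one_smul, sub_eq_add_neg]
    rw [h2, neg_one_smul, ← sub_eq_add_neg] at h1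
    exact h1.symm
  rw [e, q_ac hg]

theorem eq_of_chd {c u v : Fin (n+1) → ℝ} (hc : c ∈ Hyp n) (hu : IsUT c u) (hv : IsUT c v)
    (h : chd u v = 0) : u = v := by
  have h1 : q c (u - v) = 0 := by rw [q_sub_right, hu.1, hv.1, sub_zero]
  have h2 := q_neg hc h1
  have h3 : q (u - v) (u - v) = 0 := by
    unfold chd at h
    have := (Real.sqrt_eq_zero (by linarith)).mp h
    linarith
  exact sub_eq_zero.mp (q_neg_eq hc h1 h3)

theorem UT_neg {c u : Fin (n+1) → ℝ} (hu : IsUT c u) : IsUT c (-u) := by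
  refine ⟨?_, ?_⟩
  · rw [q_neg_right, hu.1, neg_zero]
  · rw [q_neg_left, q_neg_right, neg_neg, hu.2]

theorem chd_neg {c u : Fin (n+1) → ℝ} (hc : c ∈ Hyp n) (hu : IsUT c u) : chd u (-u) = 2 := by
  have h := chd_sq hc hu (UT_neg hu)
  rw [q_neg_right, hu.2] at h
  nlinarith [chd_nonneg u (-u)]

theorem UT_ac {c u : Fin (n+1) → ℝ} {g : GLn n} (hg : IsIso (g : Matrix (Fin (n+1)) (Fin (n+1)) ℝ))
    (hgc : ac g c = c) (hu : IsUT c u) : IsUT c (ac g u) := by
  refine ⟨?_, ?_⟩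
  · have := q_ac hg c u
    rw [hgc] at this
    rw [this]
    exact hu.1
  · rw [q_ac hg]
    exact hu.2

theorem continuous_chd {α : Type*} [TopologicalSpace α] {f g : α → Fin (n+1) → ℝ}
    (hf : Continuous f) (hg : Continuous g) : Continuous (fun t => chd (f t) (g t)) := by
  unfold chd
  apply Real.continuous_sqrt.comp
  apply Continuous.neg
  have : Continuous (fun t => f t - g t) := hf.sub hg
  exact h13b_cont.comp (this.prodMk this)

/-- Hyperbolic distance in polar coordinates. -/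
theorem cosh_hd_ray {c u v : Fin (n+1) → ℝ} (hc : c ∈ Hyp n) (hu : IsUT c u) (hv : IsUT c v)
    (s t : ℝ) : Real.cosh (hd (ray c u s) (ray c v t)) =
      Real.cosh (s - t) + Real.sinh s * Real.sinh t * chd u v ^ 2 / 2 := by
  rw [cosh_hd (ray_mem hc hu s) (ray_mem hc hv t), q_ray_ray hc hu hv, q_eq_chd hc hu hv,
    Real.cosh_sub]
  ring

theorem ray_ac {c u : Fin (n+1) → ℝ} {g : GLn n} (hgc : ac g c = c) (s : ℝ) :
    ac g (ray c u s) = ray c (ac g u) s := by
  rw [ac_ray, hgc]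

end Pool.Agent.TGS
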