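import Pool.Agent.TGS.S1

set_option autoImplicit false
open Set Pool.Agent.TGL

namespace Pool.Agent.TGS

variable {n : ℕ}

theorem s3a_w {c u v : Fin (n+1) → ℝ} (hu : IsUT c u) (hv : IsUT c v) :
    q c (v + q u v • u) = 0 ∧ q u (v + q u v • u) = 0 ∧
      q (v + q u v • u) (v + q u v • u) = -1 + q u v ^ 2 := by
  refine ⟨?_, ?_, ?_⟩
  · rw [q_add_right, q_smul_right, hu.1, hv.1]
    ring
  · rw [q_add_right, q_smul_right, hu.2]
    ring
  · rw [q_add_left, q_add_right, q_add_right, q_smul_left, q_smul_left, q_smul_right, q_smul_right,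
      hu.2, hv.2, q_comm v u]
    ring

theorem s3a_norm {c u w : Fin (n+1) → ℝ} (hc : c ∈ Hyp n) (h1 : q c w = 0) (h2 : q u w = 0)
    (h0 : w ≠ 0) : 0 < Real.sqrt (-q w w) ∧ IsUT c ((Real.sqrt (-q w w))⁻¹ • w) ∧
      q u ((Real.sqrt (-q w w))⁻¹ • w) = 0 := by
  have h3 := q_neg hc h1
  have h4 : q w w ≠ 0 := fun h => h0 (q_neg_eq hc h1 h)
  have h5 : 0 < -q w w := by
    have := lt_of_le_of_ne h3 h4
    linarith
  have h6 := Real.sqrt_pos.mpr h5
  have h7 := Real.sq_sqrt h5.le
  refine ⟨h6, ⟨?_, ?_⟩, ?_⟩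
  · rw [q_smul_right, h1, mul_zero]
  · rw [q_smul_left, q_smul_right]
    have h8 : q w w = -(Real.sqrt (-q w w)) ^ 2 := by linarith
    have h9 : (Real.sqrt (-q w w))⁻¹ * ((Real.sqrt (-q w w))⁻¹ * q w w) = -1 := by
      generalize Real.sqrt (-q w w) = r at h6 h8
      rw [h8]
      field_simp
    exact h9
  · rw [q_smul_right, h2, mul_zero]

/-- Row TGS-S3a. Every unit tangent vector `u` at `c` has an orthogonal unit tangent vector `e`
(`n ≥ 2`), and moreover for a second unit tangent vector `v` one can choose `e` such that `v` lies in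
the plane of `u` and `e`: `v = cos α • u + sin α • e` for some real `α`.
(Careful with signs: the form is `-q` on the tangent space, `IsUT c u` means `q c u = 0`,
`q u u = -1`.)

Proof. Put `w := v + (q u v) • u`; then `q u w = q u v + (q u v) * (q u u) = 0` and `q c w = 0` and
`q w w = q v v + 2 (q u v)^2 + (q u v)^2 (q u u) = -1 + (q u v)^2 ≤ 0` (by `abs_q_UT`).
Case `w ≠ 0`: then `q w w < 0` (`q_neg`, `q_neg_eq`), put `r := √(-q w w) > 0`, `e := r⁻¹ • w`; then
`IsUT c e`, `q u e = 0`, `v = (-(q u v)) • u + r • e` and `(-(q u v))^2 + r^2 = 1`, so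
`-(q u v) = cos α`, `r = sin α` with `α := Real.arccos (-(q u v))` (`Real.cos_arccos`,
`Real.sin_arccos`: `sin (arccos x) = √(1 - x^2)`).
Case `w = 0`: then `v = -(q u v) • u` and `(q u v)^2 = 1`, so `v = u` or `v = -u`, and any unit `e`
orthogonal to `u` works with `α = 0` or `α = π`. Existence of `e`: `exists_frame hc` (file TGL/H8,
read its statement) gives `n` tangent unit vectors `f i` at `c`, pairwise orthogonal; since `2 ≤ n`
there are two of them `f0 ≠ f1`; not both `f0 + (q u f0) • u` and `f1 + (q u f1) • u` vanish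
(otherwise `f0 = ± u` and `f1 = ± u`, contradicting `q f0 f1 = 0`); normalise a non-vanishing one as
above (the first construction with `v := f0` or `f1`). -/
theorem exists_orth (hn : 2 ≤ n) {c u v : Fin (n+1) → ℝ} (hc : c ∈ Hyp n) (hu : IsUT c u)
    (hv : IsUT c v) : ∃ e, IsUT c e ∧ q u e = 0 ∧ ∃ α : ℝ, v = Real.cos α • u + Real.sin α • e := by
  obtain ⟨w1, w2, w3⟩ := s3a_w hu hv
  have hab := abs_le.mp (abs_q_UT hc hu hv)
  by_cases h0 : v + q u v • u = 0
  · -- any orthogonal unit vector works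
    obtain ⟨e, he, hue⟩ : ∃ e, IsUT c e ∧ q u e = 0 := by
      obtain ⟨f, hf, hff⟩ := exists_frame hc
      have hne : (⟨0, by omega⟩ : Fin n) ≠ ⟨1, by omega⟩ := by
        intro h
        simp at h
      have hq := hff _ _ hne
      obtain ⟨a1, a2, a3⟩ := s3a_w hu (hf ⟨0, by omega⟩)
      obtain ⟨b1, b2, b3⟩ := s3a_w hu (hf ⟨1, by omega⟩)
      by_cases ha : f ⟨0, by omega⟩ + q u (f ⟨0, by omega⟩) • u = 0
      · by_cases hb : f ⟨1, by omega⟩ + q u (f ⟨1, by omega⟩) • u = 0
        · exfalso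
          rw [ha, q_zero_left] at a3
          rw [hb, q_zero_left] at b3
          have e1 : f ⟨0, by omega⟩ = (-q u (f ⟨0, by omega⟩)) • u := by
            rw [neg_smul]
            exact eq_neg_of_add_eq_zero_left ha
          have e2 : f ⟨1, by omega⟩ = (-q u (f ⟨1, by omega⟩)) • u := by
            rw [neg_smul]
            exact eq_neg_of_add_eq_zero_left hb
          have e3 : q (f ⟨0, by omega⟩) (f ⟨1, by omega⟩) =
              -(q u (f ⟨0, by omega⟩) * q u (f ⟨1, by omega⟩)) := by
            conv_lhs => rw [e1, e2]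
            rw [q_smul_left, q_smul_right, hu.2]
            ring
          rw [e3] at hq
          have h5 : (q u (f ⟨0, by omega⟩) * q u (f ⟨1, by omega⟩)) ^ 2 = 1 := by
            have a4 : q u (f ⟨0, by omega⟩) ^ 2 = 1 := by linarith
            have b4 : q u (f ⟨1, by omega⟩) ^ 2 = 1 := by linarith
            rw [mul_pow, a4, b4, one_mul]
          have h6 : q u (f ⟨0, by omega⟩) * q u (f ⟨1, by omega⟩) = 0 := by linarith
          rw [h6] at h5
          norm_num at h5
        · exact ⟨_, (s3a_norm hc b1 b2 hb).2.1, (s3a_norm hc b1 b2 hb).2.2⟩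
      · exact ⟨_, (s3a_norm hc a1 a2 ha).2.1, (s3a_norm hc a1 a2 ha).2.2⟩
    refine ⟨e, he, hue, ?_⟩
    rw [h0, q_zero_left] at w3
    have h1 : q u v ^ 2 = 1 := by linarith
    have h2 : v = (-q u v) • u := by
      rw [neg_smul]
      exact eq_neg_of_add_eq_zero_left h0
    have h3 : (q u v - 1) * (q u v + 1) = 0 := by linear_combination h1
    rcases mul_eq_zero.mp h3 with h | h
    · refine ⟨Real.pi, ?_⟩
      rw [Real.cos_pi, Real.sin_pi, zero_smul, add_zero]
      have h4 : q u v = 1 := by linarith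
      rw [h4] at h2
      exact h2
    · refine ⟨0, ?_⟩
      rw [Real.cos_zero, Real.sin_zero, zero_smul, add_zero, one_smul]
      have h4 : q u v = -1 := by linarith
      rw [h4, neg_neg, one_smul] at h2
      exact h2
  · obtain ⟨r0, he, hue⟩ := s3a_norm hc w1 w2 h0
    refine ⟨_, he, hue, Real.arccos (-q u v), ?_⟩
    rw [Real.cos_arccos (by linarith [hab.2]) (by linarith [hab.1]), Real.sin_arccos]
    have h1 : 1 - (-q u v) ^ 2 = -q (v + q u v • u) (v + q u v • u) := by
      rw [w3]
      ring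
    rw [h1, smul_smul, mul_inv_cancel₀ r0.ne', one_smul, neg_smul]
    abel

end Pool.Agent.TGS
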