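import Pool.Agent.TGS.S3a

set_option autoImplicit false
open Set Pool.Agent.TGL

namespace Pool.Agent.TGS

variable {n : ℕ}

/-- Row TGS-S3b. Arc between two unit tangent vectors.

Proof. With `e, α` from `exists_orth` put `f t := cos (α t) • u + sin (α t) • e`; continuity by
`fun_prop`/`continuity`; `f 0 = u`, `f 1 = v`; `q (f t) (f t) = -(cos² + sin²) = -1` because
`q u u = -1`, `q e e = -1`, `q u e = 0`; `q c (f t) = 0`. -/
theorem exists_arc (hn : 2 ≤ n) {c u v : Fin (n+1) → ℝ} (hc : c ∈ Hyp n) (hu : IsUT c u)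
    (hv : IsUT c v) : ∃ f : ℝ → (Fin (n+1) → ℝ), Continuous f ∧ f 0 = u ∧ f 1 = v ∧
      ∀ t, IsUT c (f t) := by
  obtain ⟨e, he, hue, α, hα⟩ := exists_orth hn hc hu hv
  refine ⟨fun t => Real.cos (α * t) • u + Real.sin (α * t) • e, ?_, ?_, ?_, fun t => ⟨?_, ?_⟩⟩
  · fun_prop
  · simp
  · simp only [mul_one]
    exact hα.symm
  · rw [q_add_right, q_smul_right, q_smul_right, hu.1, he.1]
    ring
  · have h1 : q e u = 0 := by rw [q_comm, hue]
    rw [q_add_right, q_add_left, q_add_left, q_smul_right, q_smul_right, q_smul_right,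
      q_smul_right, q_smul_left, q_smul_left, q_smul_left, q_smul_left, hu.2, he.2, hue, h1]
    have h2 := Real.sin_sq_add_cos_sq (α * t)
    linarith

end Pool.Agent.TGS
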