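import Pool.Agent.TGS.S3b

set_option autoImplicit false
open Set Pool.Agent.TGL

namespace Pool.Agent.TGS

variable {n : ℕ}

/-- Row TGS-S3c. There are infinitely many unit tangent vectors.

Proof. With `e` from `exists_orth hn hc hu hu`, the map `t ↦ cos t • u + sin t • e` on `[0, 1]` takes
values in `{v | IsUT c v}` and is injective there: pairing with `u` gives
`q u (f t) = - cos t` and `cos` is injective on `[0, π]` (`Real.injOn_cos`). Use
`Set.infinite_of_injOn_mapsTo` with the infinite set `Set.Icc (0:ℝ) 1` (`Set.Icc_infinite`). -/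
theorem infinite_UT (hn : 2 ≤ n) {c u : Fin (n+1) → ℝ} (hc : c ∈ Hyp n) (hu : IsUT c u) :
    Set.Infinite {v | IsUT c v} := by
  obtain ⟨e, he, hue, -⟩ := exists_orth hn hc hu hu
  have hq : ∀ t : ℝ, q u (Real.cos t • u + Real.sin t • e) = -Real.cos t := by
    intro t
    rw [q_add_right, q_smul_right, q_smul_right, hu.2, hue]
    ring
  refine Set.infinite_of_injOn_mapsTo (f := fun t : ℝ => Real.cos t • u + Real.sin t • e)
    (s := Set.Icc (0 : ℝ) 1) ?_ ?_ (Set.Icc_infinite (by norm_num))
  · intro s hs t ht hst
    have h1 : q u (Real.cos s • u + Real.sin s • e) = q u (Real.cos t • u + Real.sin t • e) :=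
      congrArg (q u) hst
    rw [hq, hq] at h1
    have hpi : (1 : ℝ) ≤ Real.pi := by
      have := Real.pi_gt_three
      linarith
    exact Real.injOn_cos ⟨hs.1, hs.2.trans hpi⟩ ⟨ht.1, ht.2.trans hpi⟩ (by linarith)
  · intro t _
    refine ⟨?_, ?_⟩
    · rw [q_add_right, q_smul_right, q_smul_right, hu.1, he.1]
      ring
    · rw [q_add_left, q_add_right, q_add_right, q_smul_left, q_smul_left, q_smul_left, q_smul_left,
        q_smul_right, q_smul_right, q_smul_right, q_smul_right, q_comm e u, hue, hu.2, he.2]
      have := Real.sin_sq_add_cos_sq t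
      linear_combination -this

end Pool.Agent.TGS
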