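import Pool.Agent.TGS.S1

set_option autoImplicit false
open Set Pool.Agent.TGL

namespace Pool.Agent.TGS

variable {n : ℕ}

theorem sinh_le_half (s : ℝ) : Real.sinh s ≤ Real.exp s / 2 := by
  rw [Real.sinh_eq]
  have := Real.exp_pos (-s)
  linarith

theorem exp_le_sinh {s : ℝ} (hs : 1 ≤ s) : Real.exp s / 4 ≤ Real.sinh s := by
  rw [Real.sinh_eq]
  have h1 : Real.exp (-s) ≤ Real.exp s / 2 := by
    have h2 : Real.exp (-s) = Real.exp s * Real.exp (-(2 * s)) := by
      rw [← Real.exp_add]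
      ring_nf
    have h3 : Real.exp (-(2 * s)) ≤ 1 / 2 := by
      rw [Real.exp_neg, ← one_div]
      apply one_div_le_one_div_of_le (by norm_num)
      have := Real.add_one_le_exp (2 * s)
      linarith
    have := Real.exp_pos s
    rw [h2]
    nlinarith
  linarith

theorem exp_neg_two_le : Real.exp (-2) ≤ 1 / 2 := by
  rw [Real.exp_neg, ← one_div]
  apply one_div_le_one_div_of_le (by norm_num)
  have := Real.add_one_le_exp (2 : ℝ)
  linarith

/-- Small rotation angle gives small displacement. -/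
theorem disp_le_one {c u : Fin (n+1) → ℝ} {g : GLn n} (hc : c ∈ Hyp n)
    (hg : IsIso (g : Matrix (Fin (n+1)) (Fin (n+1)) ℝ)) (hgc : ac g c = c) (hu : IsUT c u) {s : ℝ}
    (hs : 0 ≤ s) (h : chd u (ac g u) ≤ 2 * Real.exp (-s - 1)) :
    hd (ray c u s) (ac g (ray c u s)) ≤ 1 := by
  have hgu := UT_ac hg hgc hu
  rw [ray_ac hgc]
  rw [hd_le_iff (ray_mem hc hu s) (ray_mem hc hgu s) zero_le_one,
    ← cosh_hd (ray_mem hc hu s) (ray_mem hc hgu s), cosh_hd_ray hc hu hgu, sub_self, Real.cosh_zero]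
  have h1 := sinh_le_half s
  have h2 : 0 ≤ Real.sinh s := Real.sinh_nonneg_iff.mpr hs
  have h3 := chd_nonneg u (ac g u)
  have h4 : Real.sinh s * chd u (ac g u) ≤ Real.exp (-1) := by
    calc Real.sinh s * chd u (ac g u) ≤ Real.exp s / 2 * (2 * Real.exp (-s - 1)) :=
          mul_le_mul h1 h h3 (by positivity)
      _ = Real.exp s * Real.exp (-s - 1) := by ring
      _ = Real.exp (-1) := by rw [← Real.exp_add]; ring_nf
  have h5 : Real.exp (-1) ≤ 1 / 2 := by
    rw [Real.exp_neg, ← one_div]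
    apply one_div_le_one_div_of_le (by norm_num)
    have := Real.add_one_le_exp (1 : ℝ)
    linarith
  have h6 : 0 ≤ Real.sinh s * chd u (ac g u) := by positivity
  have h7 : (Real.sinh s * chd u (ac g u)) ^ 2 ≤ 1 / 4 := by nlinarith
  have h8 : 1 + 1 / 2 ≤ Real.cosh 1 := by
    rw [Real.cosh_eq]
    have e1 := Real.exp_one_gt_d9
    have e2 := Real.exp_one_lt_d9
    have e3 : 1 / 3 ≤ Real.exp (-1) := by
      rw [Real.exp_neg, ← one_div]
      apply one_div_le_one_div_of_le (Real.exp_pos 1)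
      linarith
    linarith
  have e : Real.sinh s * Real.sinh s * chd u (ac g u) ^ 2 / 2 =
    (Real.sinh s * chd u (ac g u)) ^ 2 / 2 := by ring
  rw [e]
  linarith

/-- Nearly radial extension. -/
theorem hd_close {c u v : Fin (n+1) → ℝ} (hc : c ∈ Hyp n) (hu : IsUT c u) (hv : IsUT c v) {s Λ : ℝ}
    (hs : 0 ≤ s) (hΛ : 0 ≤ Λ) (h : chd u v ≤ Real.exp (-s - 1)) :
    hd (ray c u s) (ray c v (s + Λ)) ≤ Λ + 1 := by
  rw [hd_le_iff (ray_mem hc hu s) (ray_mem hc hv _) (by linarith),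
    ← cosh_hd (ray_mem hc hu s) (ray_mem hc hv _), cosh_hd_ray hc hu hv,
    show s - (s + Λ) = -Λ by ring, Real.cosh_neg]
  have h1 := sinh_le_half s
  have h2 : 0 ≤ Real.sinh s := Real.sinh_nonneg_iff.mpr hs
  have h1' := sinh_le_half (s + Λ)
  have h2' : 0 ≤ Real.sinh (s + Λ) := Real.sinh_nonneg_iff.mpr (by linarith)
  have h3 := chd_nonneg u v
  have h4 : Real.sinh s * Real.sinh (s + Λ) * chd u v ^ 2 ≤ Real.exp (Λ - 2) / 4 := by
    calc Real.sinh s * Real.sinh (s + Λ) * chd u v ^ 2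
        ≤ (Real.exp s / 2) * (Real.exp (s + Λ) / 2) * (Real.exp (-s - 1)) ^ 2 := by
          apply mul_le_mul _ (pow_le_pow_left₀ h3 h 2) (by positivity) (by positivity)
          exact mul_le_mul h1 h1' h2' (by positivity)
      _ = (Real.exp s * Real.exp (s + Λ) * (Real.exp (-s - 1) * Real.exp (-s - 1))) / 4 := by ring
      _ = Real.exp (Λ - 2) / 4 := by
        rw [← Real.exp_add, ← Real.exp_add, ← Real.exp_add]
        congr 2
        ring
  have h5 : Real.cosh Λ ≤ Real.exp Λ := by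
    rw [Real.cosh_eq]
    have : Real.exp (-Λ) ≤ Real.exp Λ := Real.exp_le_exp.mpr (by linarith)
    linarith
  have h6 : Real.exp (Λ + 1) / 2 ≤ Real.cosh (Λ + 1) := by
    rw [Real.cosh_eq]
    have := Real.exp_pos (-(Λ + 1))
    linarith
  have h7 : Real.exp (Λ + 1) = Real.exp Λ * Real.exp 1 := Real.exp_add _ _
  have h8 : Real.exp (Λ - 2) = Real.exp Λ * Real.exp (-2) := by rw [← Real.exp_add]; ring_nf
  have h9 := exp_neg_two_le
  have h10 : (2.7 : ℝ) ≤ Real.exp 1 := by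
    have := Real.exp_one_gt_d9
    linarith
  have h11 := Real.exp_pos Λ
  rw [h8] at h4
  rw [h7] at h6
  nlinarith

/-- Two directions at chord distance at least `exp (-s-1)` have separated. -/
theorem hd_far {c u v : Fin (n+1) → ℝ} (hc : c ∈ Hyp n) (hu : IsUT c u) (hv : IsUT c v) {s Λ : ℝ}
    (hs : 0 ≤ s) (hΛ : 1 ≤ Λ) (h : Real.exp (-s - 1) ≤ chd u v) :
    2 * Λ - 6 ≤ hd (ray c u (s + Λ)) (ray c v (s + Λ)) := by
  have hx := ray_mem hc hu (s + Λ)
  have hy := ray_mem hc hv (s + Λ)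
  have h0 := cosh_hd_ray hc hu hv (s + Λ) (s + Λ)
  rw [sub_self, Real.cosh_zero] at h0
  have h1 := exp_le_sinh (show 1 ≤ s + Λ by linarith)
  have h2 : Real.exp (Λ - 1) / 4 ≤ Real.sinh (s + Λ) * chd u v := by
    calc Real.exp (Λ - 1) / 4 = Real.exp (s + Λ) / 4 * Real.exp (-s - 1) := by
          rw [div_mul_eq_mul_div, ← Real.exp_add]
          ring_nf
      _ ≤ _ := mul_le_mul h1 h (by positivity) (le_trans (by positivity) h1)
  have h3 : (Real.exp (Λ - 1) / 4) ^ 2 ≤ (Real.sinh (s + Λ) * chd u v) ^ 2 :=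
    pow_le_pow_left₀ (by positivity) h2 2
  have h4 : Real.cosh (hd (ray c u (s + Λ)) (ray c v (s + Λ))) ≤
      Real.exp (hd (ray c u (s + Λ)) (ray c v (s + Λ))) := by
    rw [Real.cosh_eq]
    have : Real.exp (-hd (ray c u (s + Λ)) (ray c v (s + Λ))) ≤
        Real.exp (hd (ray c u (s + Λ)) (ray c v (s + Λ))) :=
      Real.exp_le_exp.mpr (by linarith [hd_nonneg hx hy])
    linarith
  have h5 : Real.exp (2 * Λ - 2) / 32 ≤ Real.exp (hd (ray c u (s + Λ)) (ray c v (s + Λ))) := by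
    have e : (Real.exp (Λ - 1) / 4) ^ 2 = Real.exp (2 * Λ - 2) / 16 := by
      rw [div_pow, sq, ← Real.exp_add]
      norm_num
      ring_nf
    have e2 : Real.sinh (s + Λ) * Real.sinh (s + Λ) * chd u v ^ 2 / 2 =
      (Real.sinh (s + Λ) * chd u v) ^ 2 / 2 := by ring
    rw [e] at h3
    rw [e2] at h0
    linarith
  have h6 : Real.exp (2 * Λ - 6) ≤ Real.exp (2 * Λ - 2) / 32 := by
    have e : Real.exp (2 * Λ - 6) = Real.exp (2 * Λ - 2) * Real.exp (-4) := by
      rw [← Real.exp_add]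
      ring_nf
    have h7 : Real.exp (-4) ≤ 1 / 32 := by
      rw [Real.exp_neg, ← one_div]
      apply one_div_le_one_div_of_le (by norm_num)
      have e4 : Real.exp 4 = Real.exp 1 ^ 4 := by
        rw [← Real.exp_nat_mul]
        norm_num
      rw [e4]
      have h8 : (2.7 : ℝ) ≤ Real.exp 1 := by
        have := Real.exp_one_gt_d9
        linarith
      have h9 : (2.7 : ℝ) ^ 4 ≤ Real.exp 1 ^ 4 := pow_le_pow_left₀ (by norm_num) h8 4
      norm_num at h9 ⊢
      linarith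
    rw [e]
    have := Real.exp_pos (2 * Λ - 2)
    nlinarith
  exact Real.exp_le_exp.mp (h6.trans h5)

end Pool.Agent.TGS
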