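import Pool.Agent.TGS.S3

set_option autoImplicit false
open Set Pool.Agent.TGL

namespace Pool.Agent.TGS

variable {n : ℕ}

/-- Row TGS-S5a. If the orbit `F u` is `η`-dense in the unit tangent sphere at the fixed point `c`,
then `F` is generated by its elements moving `u` by at most `2 η`.

Proof. Let `H` be the closure on the right, suppose `g ∈ F`, `g ∉ H`. Let `f` be an arc from `u` to
`ac g u` (`exists_arc`, the end is a unit tangent vector by `UT_ac`). Let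
`A := {t ∈ Icc 0 1 | ∃ h ∈ F, h ∈ H ∧ chd (ac h u) (f t) ≤ η}` and
`B := {t ∈ Icc 0 1 | ∃ h ∈ F, h ∉ H ∧ chd (ac h u) (f t) ≤ η}`. Both are closed (finite unions, over
the finite set `F`, of closed sets: `continuous_chd`, `Set.Finite.isClosed_biUnion` or
`isClosed_iUnion_of_finite` over the finite type `F`), they cover `Icc 0 1` (density hypothesis
`hd`), `0 ∈ A` (take `h = 1`, `ac_one`, `chd_self`) and `1 ∈ B` (take `h = g`). `Icc 0 1` is
preconnected (`isPreconnected_Icc`, `isPreconnected_closed_iff`), so there is `t ∈ A ∩ B`: `h ∈ H`,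
`h' ∉ H`, `chd (ac h u) (f t) ≤ η`, `chd (ac h' u) (f t) ≤ η`, hence by `chd_triangle` and
`chd_comm` `chd (ac h u) (ac h' u) ≤ 2 η`. Since `ac h u`, `ac h' u` are unit tangent,
`chd u (ac (h⁻¹ * h') u) = chd (ac h u) (ac h' u)` (`chd_ac` applied to `h`, `ac_mul`,
`ac_ac_inv`), so `h⁻¹ * h' ∈ H` and `h' = h * (h⁻¹ * h') ∈ H`, a contradiction. -/
theorem gen_of_dense (hn : 2 ≤ n) {F : Subgroup (GLn n)} (hF : IsoGrp F) (hfin : Finite F)
    {c : Fin (n+1) → ℝ} (hc : c ∈ Hyp n) (hfix : ∀ g ∈ F, ac g c = c) {u : Fin (n+1) → ℝ}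
    (hu : IsUT c u) {η : ℝ} (hη : 0 ≤ η)
    (hd : ∀ v, IsUT c v → ∃ g ∈ F, chd (ac g u) v ≤ η) :
    F ≤ Subgroup.closure {g : GLn n | g ∈ F ∧ chd u (ac g u) ≤ 2 * η} := by
  set H := Subgroup.closure {g : GLn n | g ∈ F ∧ chd u (ac g u) ≤ 2 * η} with hH
  intro g hg
  by_contra hgH
  have hUT : ∀ h ∈ F, IsUT c (ac h u) := fun h hh => UT_ac (hF h hh) (hfix h hh) hu
  obtain ⟨f, fc, f0, f1, fU⟩ := exists_arc hn hc hu (hUT g hg)
  have hcl : ∀ P : F → Prop, IsClosed {t : ℝ | ∃ h : F, P h ∧ chd (ac (h : GLn n) u) (f t) ≤ η} := by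
    intro P
    have : {t : ℝ | ∃ h : F, P h ∧ chd (ac (h : GLn n) u) (f t) ≤ η} =
        ⋃ h : F, {t : ℝ | P h ∧ chd (ac (h : GLn n) u) (f t) ≤ η} := by
      ext t
      simp
    rw [this]
    apply isClosed_iUnion_of_finite
    intro h
    by_cases hP : P h
    · simp only [hP, true_and]
      exact isClosed_le (continuous_chd continuous_const fc) continuous_const
    · simp only [hP, false_and, Set.setOf_false]
      exact isClosed_empty
  have hpre : IsPreconnected (Set.Icc (0 : ℝ) 1) := isPreconnected_Icc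
  rw [isPreconnected_closed_iff] at hpre
  obtain ⟨t, -, ⟨h, h1, h2⟩, ⟨h', h1', h2'⟩⟩ := hpre
    {t : ℝ | ∃ h : F, (h : GLn n) ∈ H ∧ chd (ac (h : GLn n) u) (f t) ≤ η}
    {t : ℝ | ∃ h : F, (h : GLn n) ∉ H ∧ chd (ac (h : GLn n) u) (f t) ≤ η}
    (hcl fun h => (h : GLn n) ∈ H) (hcl fun h => (h : GLn n) ∉ H)
    (by
      intro t _
      obtain ⟨h, hh, hle⟩ := hd (f t) (fU t)
      by_cases hm : h ∈ H
      · exact Or.inl ⟨⟨h, hh⟩, hm, hle⟩
      · exact Or.inr ⟨⟨h, hh⟩, hm, hle⟩)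
    ⟨0, ⟨le_refl _, zero_le_one⟩, ⟨1, F.one_mem⟩, H.one_mem, by
      rw [f0]
      show chd (ac (1 : GLn n) u) u ≤ η
      rw [ac_one, chd_self]
      exact hη⟩
    ⟨1, ⟨zero_le_one, le_refl _⟩, ⟨g, hg⟩, hgH, by
      rw [f1]
      show chd (ac g u) (ac g u) ≤ η
      rw [chd_self]
      exact hη⟩
  have k1 := chd_triangle hc (hUT h h.2) (fU t) (hUT h' h'.2)
  rw [chd_comm (f t)] at k1
  have k2 : chd u (ac ((h : GLn n)⁻¹ * (h' : GLn n)) u) = chd (ac (h : GLn n) u) (ac (h' : GLn n) u) := by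
    rw [← chd_ac (hF h h.2) u (ac ((h : GLn n)⁻¹ * (h' : GLn n)) u), ac_mul, ac_ac_inv]
  have k3 : (h : GLn n)⁻¹ * (h' : GLn n) ∈ H := by
    apply Subgroup.subset_closure
    refine ⟨F.mul_mem (F.inv_mem h.2) h'.2, ?_⟩
    rw [k2]
    linarith
  apply h1'
  have k4 := H.mul_mem h1 k3
  rwa [mul_inv_cancel_left] at k4

end Pool.Agent.TGS
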