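import Pool.Agent.TGS.S5a

set_option autoImplicit false
open Set Pool.Agent.TGL

namespace Pool.Agent.TGS

variable {n : ℕ}

/-- Row TGS-S5b. Under the density hypothesis with `η < 1` the point `c` is the only fixed point
of `F`.

Proof. Suppose `c' ≠ c` is fixed. Write `c' = ray c v r` with `r = hd c c' > 0` (`exists_ray_of_ne`,
positivity by `hd_eq_zero`, `hd_nonneg`). For `g ∈ F`: `ray c (ac g v) r = ac g c' = c' = ray c v r`
(`ray_ac`), hence `sinh r • ac g v = sinh r • v` and `ac g v = v` as `sinh r > 0` (unfold `ray`).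
By density there is `g` with `chd (ac g u) v ≤ η`; `chd (ac g u) v = chd (ac g u) (ac g v) = chd u v`
(`chd_ac`), so `chd u v ≤ η`. Similarly with `-v` (`UT_neg`; `ac g (-v) = -v`): `chd u (-v) ≤ η`.
Then `2 = chd v (-v) ≤ chd v u + chd u (-v) ≤ 2 η < 2` (`chd_neg`, `chd_triangle`, `chd_comm`). -/
theorem unique_fixed (hn : 2 ≤ n) {F : Subgroup (GLn n)} (hF : IsoGrp F)
    {c : Fin (n+1) → ℝ} (hc : c ∈ Hyp n) (hfix : ∀ g ∈ F, ac g c = c) {u : Fin (n+1) → ℝ}
    (hu : IsUT c u) {η : ℝ} (hη : η < 1)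
    (hd : ∀ v, IsUT c v → ∃ g ∈ F, chd (ac g u) v ≤ η) {c' : Fin (n+1) → ℝ} (hc' : c' ∈ Hyp n)
    (hfix' : ∀ g ∈ F, ac g c' = c') : c' = c := by
  by_contra hne
  obtain ⟨v, hv, hcv⟩ := exists_ray_of_ne hc hc' (Ne.symm hne)
  set r := Pool.Agent.TGL.hd c c' with hr
  have hr0 : 0 < r := lt_of_le_of_ne (hd_nonneg hc hc') (fun h => hne (hd_eq_zero hc hc' h.symm).symm)
  have hs : 0 < Real.sinh r := Real.sinh_pos_iff.2 hr0
  have hgv : ∀ g ∈ F, ac g v = v := by
    intro g hg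
    have h1 : ray c (ac g v) r = ray c v r := by
      rw [← ray_ac (hfix g hg), ← hcv]
      exact hfix' g hg
    unfold ray at h1
    have h2 := add_left_cancel h1
    exact smul_right_injective _ hs.ne' h2
  have h1 : chd u v ≤ η := by
    obtain ⟨g, hg, hgu⟩ := hd v hv
    rw [← chd_ac (hF g hg) u v, hgv g hg]
    exact hgu
  have h2 : chd u (-v) ≤ η := by
    obtain ⟨g, hg, hgu⟩ := hd (-v) (UT_neg hv)
    have h3 : ac g (-v) = -v := by
      have h4 := ac_smul g (-1) v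
      rw [hgv g hg] at h4
      rw [neg_one_smul] at h4
      exact h4
    rw [← chd_ac (hF g hg) u (-v), h3]
    exact hgu
  have h3 := chd_neg hc hv
  have h4 := chd_triangle hc hv hu (UT_neg hv)
  rw [h3, chd_comm v u] at h4
  linarith

end Pool.Agent.TGS
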