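import Pool.Agent.TGS.S5b

set_option autoImplicit false
open Set Pool.Agent.TGL

namespace Pool.Agent.TGS

variable {n : ℕ}

/-- Row TGS-S5c. If the orbit `F u` is not `η`-dense (`v` is at distance `> η` from it), there is a
direction `u'` at distance exactly `η` from `u` and at distance at least `η` from the whole orbit.

Proof. Let `f` be an arc from `u` to `v`. `A := {t ∈ Icc 0 1 | ∃ g ∈ F, chd (ac g u) (f t) ≤ η}` is
closed (finite union over the finite type `F`), contains `0` (`g = 1`, `chd_self`) and is bounded;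
let `t := sSup A ∈ A` (`IsClosed.csSup_mem` / `IsCompact.sSup_mem`). So `t ∈ Icc 0 1` and there is
`g ∈ F` with `chd (ac g u) (f t) ≤ η`; in particular `t ≠ 1` by the hypothesis on `v = f 1`, so
`t < 1`. For every `h ∈ F`: `η ≤ chd (ac h u) (f t)`; otherwise by continuity
`chd (ac h u) (f t') < η` for some `t' ∈ (t, 1]`, so `t' ∈ A`, contradicting `t = sSup A`. Hence
`chd (ac g u) (f t) = η`. Put `u' := ac g⁻¹ (f t)` (unit tangent: `UT_ac` with `g⁻¹ ∈ F`,
`hfix g⁻¹`). Then `chd u u' = chd (ac g u) (f t) = η` (`chd_ac`, `ac_ac_inv`) and for `h ∈ F`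
`chd (ac h u) u' = chd (ac (g * h) u) (f t) ≥ η`. -/
theorem exists_turn (hn : 2 ≤ n) {F : Subgroup (GLn n)} (hF : IsoGrp F) (hfin : Finite F)
    {c : Fin (n+1) → ℝ} (hc : c ∈ Hyp n) (hfix : ∀ g ∈ F, ac g c = c) {u v : Fin (n+1) → ℝ}
    (hu : IsUT c u) (hv : IsUT c v) {η : ℝ} (hη : 0 < η) (hd : ∀ g ∈ F, η < chd (ac g u) v) :
    ∃ u', IsUT c u' ∧ chd u u' = η ∧ ∀ g ∈ F, η ≤ chd (ac g u) u' := by
  have hUT : ∀ h ∈ F, IsUT c (ac h u) := fun h hh => UT_ac (hF h hh) (hfix h hh) hu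
  obtain ⟨f, fc, f0, f1, fU⟩ := exists_arc hn hc hu hv
  let A : Set ℝ := Set.Icc (0 : ℝ) 1 ∩ {t : ℝ | ∃ h : F, chd (ac (h : GLn n) u) (f t) ≤ η}
  have hAc : IsClosed {t : ℝ | ∃ h : F, chd (ac (h : GLn n) u) (f t) ≤ η} := by
    have : {t : ℝ | ∃ h : F, chd (ac (h : GLn n) u) (f t) ≤ η} =
        ⋃ h : F, {t : ℝ | chd (ac (h : GLn n) u) (f t) ≤ η} := by
      ext t
      simp
    rw [this]
    apply isClosed_iUnion_of_finite
    intro h
    exact isClosed_le (continuous_chd continuous_const fc) continuous_const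
  have hAk : IsCompact A := isCompact_Icc.inter_right hAc
  have hA0 : (0 : ℝ) ∈ A := by
    refine ⟨⟨le_refl _, zero_le_one⟩, ⟨1, F.one_mem⟩, ?_⟩
    rw [f0]
    show chd (ac (1 : GLn n) u) u ≤ η
    rw [ac_one, chd_self]
    exact hη.le
  have htA : sSup A ∈ A := hAk.sSup_mem ⟨0, hA0⟩
  set t := sSup A with ht
  obtain ⟨⟨t0, t1⟩, ⟨g, hg⟩, hgt⟩ := htA
  change chd (ac g u) (f t) ≤ η at hgt
  have htlt : t < 1 := by
    rcases lt_or_eq_of_le t1 with h | h
    · exact h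
    · exfalso
      rw [h, f1] at hgt
      exact absurd (hd g hg) (not_lt.mpr hgt)
  have hmin : ∀ h ∈ F, η ≤ chd (ac h u) (f t) := by
    intro h hh
    by_contra hlt
    push Not at hlt
    have hcont : Continuous (fun s => chd (ac h u) (f s)) := continuous_chd continuous_const fc
    have hev : ∀ᶠ s in nhds t, chd (ac h u) (f s) < η :=
      hcont.continuousAt.eventually (gt_mem_nhds hlt)
    have hev2 : ∀ᶠ s in nhdsWithin t (Set.Ioi t), chd (ac h u) (f s) < η :=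
      hev.filter_mono nhdsWithin_le_nhds
    have hev3 : ∀ᶠ s in nhdsWithin t (Set.Ioi t), s ∈ Set.Ioo t 1 :=
      Ioo_mem_nhdsGT htlt
    obtain ⟨s, hs1, hs2⟩ := (hev2.and hev3).exists
    have hsA : s ∈ A := ⟨⟨t0.trans hs2.1.le, hs2.2.le⟩, ⟨h, hh⟩, hs1.le⟩
    have := le_csSup hAk.bddAbove hsA
    exact absurd hs2.1 (not_lt.mpr this)
  have heq : chd (ac g u) (f t) = η := le_antisymm hgt (hmin g hg)
  have hgi := F.inv_mem hg
  refine ⟨ac g⁻¹ (f t), UT_ac (hF _ hgi) (hfix _ hgi) (fU t), ?_, ?_⟩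
  · rw [← chd_ac (hF g hg) u, ac_ac_inv, heq]
  · intro h hh
    rw [← chd_ac (hF g hg) (ac h u), ac_ac_inv, ← ac_mul]
    exact hmin _ (F.mul_mem hg hh)

end Pool.Agent.TGS
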