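import Pool.Agent.TGS.S5
import Pool.Agent.TGS.S4

set_option autoImplicit false
open Set Pool.Agent.TGL

namespace Pool.Agent.TGS

variable {n : ℕ}

/-- Row TGS-S8a. Near a hair point the local groups contain the local group of the hair point.

Proof. Let `c, u, s` be the data of `Hair Γ ρ y`, `F := loc Γ ρ y ≤ Γ` (it is a closure of elements
of `Γ`, as in TGL/F6 `hle`). By `gen_of_dense` (with `η = exp (-s-1)`) it is enough that every
`g ∈ F` with `chd u (ac g u) ≤ 2 * exp (-s-1)` lies in `loc Γ ρ z`: by `disp_le_one`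
`hd y (ac g y) ≤ 1`, so `hd z (ac g z) ≤ hd z y + hd y (ac g y) + hd (ac g y) (ac g z) ≤
2 * hd y z + 1 ≤ ρ` (`hd_triangle`, `hd_ac`, `hd_symm`) and `g ∈ Γ`; `Subgroup.subset_closure`. -/
theorem hair_loc_le (hn : 2 ≤ n) {Γ : Subgroup (GLn n)} (hΓ : IsoGrp Γ) {ρ : ℝ}
    {y z : Fin (n+1) → ℝ} (hy : y ∈ Hyp n) (hz : z ∈ Hyp n) (hfin : Finite (loc Γ ρ y))
    (hH : Hair Γ ρ y) (hyz : 2 * hd y z + 1 ≤ ρ) : loc Γ ρ y ≤ loc Γ ρ z := by
  obtain ⟨c, hc, u, hu, s, hs, hys, hfix, hdn⟩ := hH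
  have hle : loc Γ ρ y ≤ Γ := by
    unfold loc
    rw [Subgroup.closure_le]
    intro g hg
    exact hg.1
  have hF : IsoGrp (loc Γ ρ y) := hΓ.mono hle
  have h1 := gen_of_dense hn hF hfin hc hfix hu (Real.exp_pos _).le hdn
  refine h1.trans ?_
  rw [Subgroup.closure_le]
  rintro g ⟨hg, hgu⟩
  apply Subgroup.subset_closure
  refine ⟨hle hg, ?_⟩
  have h2 := disp_le_one hc (hF g hg) (hfix g hg) hu hs hgu
  rw [← hys] at h2
  have gy := hΓ.ac_mem (hle hg) hy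
  have gz := hΓ.ac_mem (hle hg) hz
  have h3 := hd_triangle hz hy gy
  have h4 := hd_triangle hz gy gz
  rw [hd_ac (hF g hg)] at h4
  rw [hd_symm z y] at h3
  linarith

end Pool.Agent.TGS
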