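import Pool.Agent.TGS.S8a

set_option autoImplicit false
open Set Pool.Agent.TGL

namespace Pool.Agent.TGS

variable {n : ℕ}

theorem s8b_conj {Γ : Subgroup (GLn n)} (hΓ : IsoGrp Γ) {ρ : ℝ} {γ : GLn n} (hγ : γ ∈ Γ)
    (y : Fin (n+1) → ℝ) : ∀ g ∈ loc Γ ρ y, γ * g * γ⁻¹ ∈ loc Γ ρ (ac γ y) := by
  intro g hg
  unfold loc at hg
  induction hg using Subgroup.closure_induction with
  | mem g hg =>
    apply Subgroup.subset_closure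
    refine ⟨Γ.mul_mem (Γ.mul_mem hγ hg.1) (Γ.inv_mem hγ), ?_⟩
    rw [ac_mul, ac_inv_ac, ac_mul, hd_ac (hΓ γ hγ)]
    exact hg.2
  | one =>
    rw [mul_one, mul_inv_cancel]
    exact (loc Γ ρ (ac γ y)).one_mem
  | mul a b ha hb iha ihb =>
    have := (loc Γ ρ (ac γ y)).mul_mem iha ihb
    have e : γ * a * γ⁻¹ * (γ * b * γ⁻¹) = γ * (a * b) * γ⁻¹ := by group
    rwa [e] at this
  | inv a ha iha =>
    have := (loc Γ ρ (ac γ y)).inv_mem iha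
    have e : (γ * a * γ⁻¹)⁻¹ = γ * a⁻¹ * γ⁻¹ := by group
    rwa [e] at this

theorem s8b_conj' {Γ : Subgroup (GLn n)} (hΓ : IsoGrp Γ) {ρ : ℝ} {γ : GLn n} (hγ : γ ∈ Γ)
    (y : Fin (n+1) → ℝ) : ∀ g ∈ loc Γ ρ (ac γ y), γ⁻¹ * g * γ ∈ loc Γ ρ y := by
  intro g hg
  have h := s8b_conj hΓ (Γ.inv_mem hγ) (ac γ y) g hg
  rwa [ac_inv_ac, inv_inv] at h

theorem s8b_UT {g : GLn n} (hg : IsIso (g : Matrix (Fin (n+1)) (Fin (n+1)) ℝ))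
    {c u : Fin (n+1) → ℝ} (hu : IsUT c u) : IsUT (ac g c) (ac g u) := by
  refine ⟨?_, ?_⟩
  · rw [q_ac hg]
    exact hu.1
  · rw [q_ac hg]
    exact hu.2

/-- Row TGS-S8b. Being a hair point is invariant under `Γ`.

Proof. `loc Γ ρ (ac γ y)` is the conjugate of `loc Γ ρ y`: if `g ∈ Γ`,
`hd (ac γ y) (ac g (ac γ y)) ≤ ρ`, then `g' := γ⁻¹ * g * γ ∈ Γ` and
`hd y (ac g' y) = hd (ac γ y) (ac g (ac γ y)) ≤ ρ` (`hd_ac`, `ac_mul`, `ac_ac_inv`), and conversely.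
So `h ∈ loc Γ ρ (ac γ y) ↔ γ⁻¹ * h * γ ∈ loc Γ ρ y` (prove `→` and `←` by
`Subgroup.closure_induction`, or use `Subgroup.map`/`MulAut.conj`). Given the data `c, u, s` of
`Hair Γ ρ (ac γ y)`, use `ac γ⁻¹ c`, `ac γ⁻¹ u`, `s`: `ray (ac γ⁻¹ c) (ac γ⁻¹ u) s =
ac γ⁻¹ (ray c u s) = ac γ⁻¹ (ac γ y) = y` (`ac_ray`, `ac_inv_ac`); fixed point: for
`g ∈ loc Γ ρ y`, `γ * g * γ⁻¹ ∈ loc Γ ρ (ac γ y)` fixes `c`, so `g` fixes `ac γ⁻¹ c`; density: for `v`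
unit tangent at `ac γ⁻¹ c`, `ac γ v` is unit tangent at `c`; take `h` with
`chd (ac h u) (ac γ v) ≤ exp (-s-1)`; then `g := γ⁻¹ * h * γ` satisfies
`chd (ac g (ac γ⁻¹ u)) v = chd (ac γ⁻¹ (ac h u)) v = chd (ac h u) (ac γ v)` (`chd_ac`).
(`IsUT` of transported vectors: `q_ac`, `ac_mem`.) -/
theorem hair_ac {Γ : Subgroup (GLn n)} (hΓ : IsoGrp Γ) {ρ : ℝ} {γ : GLn n} (hγ : γ ∈ Γ)
    {y : Fin (n+1) → ℝ} (hy : y ∈ Hyp n) (hH : Hair Γ ρ (ac γ y)) : Hair Γ ρ y := by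
  obtain ⟨c, hc, u, hu, s, hs, hys, hfix, hdn⟩ := hH
  have hγi := Γ.inv_mem hγ
  have iγ := hΓ γ hγ
  have iγi := hΓ _ hγi
  refine ⟨ac γ⁻¹ c, hΓ.ac_mem hγi hc, ac γ⁻¹ u, s8b_UT iγi hu, s, hs, ?_, ?_, ?_⟩
  · rw [← ac_ray, ← hys, ac_inv_ac]
  · intro g hg
    have h1 := hfix _ (s8b_conj hΓ hγ y g hg)
    rw [ac_mul, ac_mul] at h1
    have h2 := congrArg (ac γ⁻¹) h1
    rwa [ac_inv_ac] at h2
  · intro v hv
    have hv' : IsUT c (ac γ v) := by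
      have := s8b_UT iγ hv
      rwa [ac_ac_inv] at this
    obtain ⟨h, hh, hle⟩ := hdn _ hv'
    refine ⟨γ⁻¹ * h * γ, s8b_conj' hΓ hγ y h hh, ?_⟩
    rw [ac_mul, ac_ac_inv, ac_mul, ← chd_ac iγ, ac_ac_inv]
    exact hle

end Pool.Agent.TGS
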