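import Pool.Agent.TGS.S8b

set_option autoImplicit false
open Set Pool.Agent.TGL

namespace Pool.Agent.TGS

variable {n : ℕ}

/-- Row TGS-S8c. Centre and direction of a hair point `z` seen from a bigger group: if `z` is a
hair point, `loc Γ ρ z ≤ F`, `F` fixes `c` and `z = ray c u s` with `0 < s`, `IsUT c u`, then the
`F`-orbit of `u` is `exp (-s-1)`-dense.

Proof. Let `c₁, u₁, s₁` be the data of `Hair Γ ρ z`. `c` is fixed by `loc Γ ρ z`, so `c = c₁`
(`unique_fixed` with `η = exp (-s₁-1) < 1` since `s₁ ≥ 0`: `Real.exp_lt_one`). Then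
`hd c z = s₁` and `hd c z = s` (`hd_self_ray`, `abs_of_nonneg`), so `s₁ = s`, and from
`ray c u₁ s = ray c u s` and `sinh s > 0` we get `u₁ = u` (unfold `ray`). The density for
`loc Γ ρ z` gives the density for `F`. -/
theorem hair_dense (hn : 2 ≤ n) {Γ : Subgroup (GLn n)} (hΓ : IsoGrp Γ) {ρ : ℝ}
    {c u z : Fin (n+1) → ℝ} (hc : c ∈ Hyp n) (hu : IsUT c u) {s : ℝ} (hs : 0 < s)
    (hz : z = ray c u s) {F : Subgroup (GLn n)} (hfix : ∀ g ∈ F, ac g c = c)
    (hle : loc Γ ρ z ≤ F) (hH : Hair Γ ρ z) :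
    ∀ v, IsUT c v → ∃ g ∈ F, chd (ac g u) v ≤ Real.exp (-s - 1) := by
  obtain ⟨c₁, hc₁, u₁, hu₁, s₁, hs₁, hzs, hfix₁, hdn⟩ := hH
  have hleΓ : loc Γ ρ z ≤ Γ := by
    unfold loc
    rw [Subgroup.closure_le]
    intro g hg
    exact hg.1
  have hcc : c = c₁ := unique_fixed hn (hΓ.mono hleΓ) hc₁ hfix₁ hu₁
    (by rw [Real.exp_lt_one_iff]; linarith) hdn hc (fun g hg => hfix g (hle hg))
  subst hcc
  have h1 : hd c z = s₁ := by rw [hzs, hd_self_ray hc hu₁, abs_of_nonneg hs₁]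
  have h2 : hd c z = s := by rw [hz, hd_self_ray hc hu, abs_of_pos hs]
  have h3 : s₁ = s := h1.symm.trans h2
  subst h3
  have h4 : u₁ = u := by
    have h5 : ray c u₁ s₁ = ray c u s₁ := hzs.symm.trans hz
    unfold ray at h5
    have h6 := add_left_cancel h5
    have h7 : Real.sinh s₁ ≠ 0 := (Real.sinh_pos_iff.mpr hs).ne'
    exact smul_right_injective _ h7 h6
  subst h4
  intro v hv
  obtain ⟨g, hg, hle'⟩ := hdn v hv
  exact ⟨g, hle hg, hle'⟩

end Pool.Agent.TGS
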