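import Pool.Agent.TGS.S8c

set_option autoImplicit false
open Set Pool.Agent.TGL

namespace Pool.Agent.TGS

variable {n : ℕ}

/-- Row TGS-S8d. There is a point that is not a hair point.

Proof. Suppose every point of `Hyp n` is a hair point. If `y, z ∈ Hyp n`, `hd y z ≤ 1`, then
`loc Γ ρ y = loc Γ ρ z` by `hair_loc_le` twice (`2 * 1 + 1 ≤ ρ`). Let `F := loc Γ ρ (e0 n)`.
By the propagation lemma `Pool.Agent.TGL.propagate` (file TGL/B1; with `μ = 1`, the cone from
`exists_cone` as it is used in TGL/F7, `Pr z := loc Γ ρ z.1 = F`, `E := Hyp n`) all local groups are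
equal to the finite group `F`. Let `c, u, s` be the data of `Hair Γ ρ (e0 n)`. For every `t > 0` the
point `z := ray c u t` is a hair point, so by `hair_dense` (with this `F`, `loc Γ ρ z = F`) for every
`v` unit tangent at `c` there is `g ∈ F` with `chd (ac g u) v ≤ exp (-t-1)`. Since `F` is finite and
`t > 0` is arbitrary, some `g ∈ F` satisfies `chd (ac g u) v = 0` (otherwise the minimum `m` over the
finite set `F` of `chd (ac g u) v` is positive, take `t` with `exp (-t-1) < m`), i.e. `v = ac g u`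
(`eq_of_chd`, `UT_ac`). So the set of unit tangent vectors at `c` is contained in the finite set
`{ac g u | g ∈ F}`, contradicting `infinite_UT`. -/
theorem exists_core (hn : 2 ≤ n) {Γ : Subgroup (GLn n)} (hΓ : IsoGrp Γ) {ρ : ℝ}
    (hρ : 3 ≤ ρ) (hfin : ∀ y ∈ Hyp n, Finite (loc Γ ρ y)) : ∃ y ∈ Hyp n, ¬ Hair Γ ρ y := by
  by_contra hcon
  push Not at hcon
  have hn1 : 1 ≤ n := by omega
  have hstep : ∀ y ∈ Hyp n, ∀ z ∈ Hyp n, hd y z ≤ 1 → loc Γ ρ y = loc Γ ρ z := by
    intro y hy z hz hyz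
    apply le_antisymm
    · exact hair_loc_le hn hΓ hy hz (hfin y hy) (hcon y hy) (by linarith)
    · exact hair_loc_le hn hΓ hz hy (hfin z hz) (hcon z hz) (by rw [hd_symm z y]; linarith)
  obtain ⟨hcn, hcn'⟩ := exists_cone hn1 (e0_mem (n := n))
  have hmem : ∀ (z : Hyp n) (t : ℝ), hcn t z.1 ∈ Hyp n := fun z t => (hcn' z.1 z.2).2.2.1 t
  have hcone : Cone (fun x y : Hyp n => hd x.1 y.1) ⟨e0 n, e0_mem⟩
      (fun t z => ⟨hcn t z.1, hmem z t⟩) := by
    refine ⟨?_, ?_, ?_, ?_⟩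
    · intro z
      exact Subtype.ext (hcn' z.1 z.2).1
    · intro z
      exact Subtype.ext (hcn' z.1 z.2).2.1
    · intro z s hs t ht
      exact (hcn' z.1 z.2).2.2.2.1 s hs t ht
    · intro z w t ht
      exact (hcn' z.1 z.2).2.2.2.2 w.1 w.2 t ht
  have hall : ∀ z : Hyp n, loc Γ ρ z.1 = loc Γ ρ (e0 n) := by
    refine propagate one_pos hcone (fun z : Hyp n => loc Γ ρ z.1 = loc Γ ρ (e0 n)) ?_
      ⟨e0 n, e0_mem⟩ rfl
    intro z w hz hzw
    exact (hstep z.1 z.2 w.1 w.2 hzw).symm.trans hz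
  set F := loc Γ ρ (e0 n) with hFdef
  have hFfin : Finite F := hfin _ e0_mem
  obtain ⟨c, hc, u, hu, s, hs, hys, hfix, hdn⟩ := hcon (e0 n) e0_mem
  have hleΓ : F ≤ Γ := by
    rw [hFdef]
    unfold loc
    rw [Subgroup.closure_le]
    intro g hg
    exact hg.1
  have hsub : {v | IsUT c v} ⊆ Set.range (fun g : F => ac (g : GLn n) u) := by
    intro v hv
    by_contra hno
    have hpos : ∀ g : F, 0 < chd (ac (g : GLn n) u) v := by
      intro g
      refine lt_of_le_of_ne (chd_nonneg _ _) (fun h => hno ⟨g, ?_⟩)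
      exact eq_of_chd hc (UT_ac (hΓ _ (hleΓ g.2)) (hfix _ g.2) hu) hv h.symm
    obtain ⟨g0, hg0⟩ := Finite.exists_min (fun g : F => chd (ac (g : GLn n) u) v)
    have hm := hpos g0
    obtain ⟨t, ht0, ht⟩ : ∃ t : ℝ, 0 < t ∧ Real.exp (-t - 1) < chd (ac (g0 : GLn n) u) v := by
      refine ⟨max 1 (1 - Real.log (chd (ac (g0 : GLn n) u) v)), by positivity, ?_⟩
      rw [← Real.lt_log_iff_exp_lt hm]
      have := le_max_right 1 (1 - Real.log (chd (ac (g0 : GLn n) u) v))
      linarith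
    have hz := ray_mem hc hu t
    obtain ⟨g, hg, hle⟩ := hair_dense hn hΓ hc hu ht0 rfl (F := F) hfix
      (le_of_eq (hall ⟨_, hz⟩)) (hcon _ hz) v hv
    have := hg0 ⟨g, hg⟩
    simp only at this
    linarith
  exact infinite_UT hn hc hu ((Set.finite_range _).subset hsub)

end Pool.Agent.TGS
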