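import Pool.Agent.TGS.S8

set_option autoImplicit false
open Set Pool.Agent.TGL

namespace Pool.Agent.TGS

variable {n : ℕ}

/-- Row TGS-S9a. A point `y` that is not a hair point has two points `z, z'`, not hair points, at
orbit distance between `Λ / 2` and `3 Λ`, with small Gromov product at `y`.

Proof (model: `Pool.Agent.TGL.nde` in TGL/F6, from which the computations of `oD` can be copied).
`F := loc Γ ρ y ≤ Γ` is finite; let `c` be fixed by `F` (`exists_fixed`), `y = ray c u s`,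
`s = hd c y ≥ 0` (`exists_ray`). Since `y` is not a hair point the orbit `F u` is not
`η`-dense for `η := exp (-s-1)`: there is `v`, `IsUT c v`, with `η < chd (ac g u) v` for all `g ∈ F`.
Let `u'` be as in `exists_turn`. Put `z := ray c u (s + Λ)`, `z' := ray c u' (s + Λ)`.
(1) `hd y z = Λ` (`hd_ray`), `hd y z' ≤ Λ + 1` (`hd_close`, as `chd u u' = η`).
(2) `oD Γ y z = Λ`: exactly as `Dyz` in TGL/F6. `Λ ≤ oD Γ y z' ≤ Λ + 1`: the same argument (an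
element `g` realising `oD Γ y z'` lies in `F` by `mem_loc`, so `hd c (ac g z') = s + Λ` and
`hd_triangle` gives `hd y (ac g z') ≥ Λ`).
(3) `oD Γ z z' ≥ 2 Λ - 6`: let `g ∈ Γ` realise it (`oD_spec`); `oD Γ z z' ≤ hd z z' ≤
hd z y + hd y z' ≤ 2 Λ + 1`; by `mem_loc` (`hd y z + hd z (ac g z') + hd y z' ≤ 4 Λ + 2 ≤ ρ`)
`g ∈ F`; `ac g z' = ray c (ac g u') (s + Λ)` and `chd u (ac g u') = chd (ac g⁻¹ u) u' ≥ η`
(`chd_ac`, `ac_ac_inv`), so `hd_far` applies.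
(4) Gromov product: `(Λ + (Λ + 1) - (2 Λ - 6)) / 2 = 3.5 ≤ 4`.
(5) `z` is not a hair point: suppose it is. `hair_loc_le` (with `z` in the role of `y`,
`2 * Λ + 1 ≤ ρ`) gives `loc Γ ρ z ≤ F`; `hair_dense` gives that `F u` is `exp (-(s+Λ)-1)`-dense; apply
it to `v`: contradiction with `η < chd (ac g u) v` since `exp (-(s+Λ)-1) ≤ η`.
(6) `z'` is not a hair point: suppose it is. Again `loc Γ ρ z' ≤ F` (`2 * (Λ+1) + 1 ≤ ρ`) and
`hair_dense` (for `u'`) gives: the orbit `F u'` is `η'`-dense, `η' := exp (-(s+Λ)-1)`. Choose `h ∈ F`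
with `chd (ac h u') u ≤ η'` and `g ∈ F` with `chd (ac g u') v ≤ η'`. Then
`chd (ac (g * h⁻¹) u) v ≤ chd (ac (g * h⁻¹) u) (ac g u') + chd (ac g u') v ≤ 2 η' ≤ η`
(the first term equals `chd u (ac h u')`; `2 * exp (-(s+Λ)-1) ≤ exp (-s-1)` because
`exp (-Λ) ≤ 1/2` for `Λ ≥ 7`): contradiction with the choice of `v`. -/
theorem nde_core (hn : 2 ≤ n) {Γ : Subgroup (GLn n)} (hΓ : IsoGrp Γ) (hpd : PrDisc Γ) {Λ ρ : ℝ}
    (hΛ : 7 ≤ Λ) (hρ : 6 * Λ ≤ ρ) (hfin : ∀ y ∈ Hyp n, Finite (loc Γ ρ y)) {y : Fin (n+1) → ℝ}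
    (hy : y ∈ Hyp n) (hnh : ¬ Hair Γ ρ y) :
    ∃ z ∈ Hyp n, ∃ z' ∈ Hyp n, ¬ Hair Γ ρ z ∧ ¬ Hair Γ ρ z' ∧ Λ / 2 ≤ oD Γ y z ∧
      oD Γ y z ≤ 3 * Λ ∧ Λ / 2 ≤ oD Γ y z' ∧ oD Γ y z' ≤ 3 * Λ ∧
      (oD Γ z y + oD Γ z' y - oD Γ z z') / 2 ≤ 4 := by
  have hΛ0 : 0 < Λ := by linarith
  have hle : loc Γ ρ y ≤ Γ := by
    unfold loc
    rw [Subgroup.closure_le]
    intro g hg
    exact hg.1
  have hF := hΓ.mono hle
  have hFf := hfin y hy
  obtain ⟨c, hc, hfix⟩ := exists_fixed (loc Γ ρ y) hF hFf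
  obtain ⟨u, hu, hyu⟩ := exists_ray (by omega : 1 ≤ n) hc hy
  obtain ⟨s, hs⟩ : ∃ s : ℝ, s = hd c y := ⟨_, rfl⟩
  rw [← hs] at hyu
  have hs0 : 0 ≤ s := by
    rw [hs]
    exact hd_nonneg hc hy
  have hgc : ∀ g ∈ loc Γ ρ y, ∀ p : Fin (n+1) → ℝ, hd c (ac g p) = hd c p := by
    intro g hg p
    have := hd_ac (hF g hg) c p
    rwa [hfix g hg] at this
  obtain ⟨v, hv, hfar⟩ : ∃ v, IsUT c v ∧ ∀ g ∈ loc Γ ρ y, Real.exp (-s - 1) < chd (ac g u) v := by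
    by_contra hcon
    apply hnh
    refine ⟨c, hc, u, hu, s, hs0, hyu, hfix, fun v hv => ?_⟩
    by_contra h1
    apply hcon
    refine ⟨v, hv, fun g hg => ?_⟩
    by_contra h2
    exact h1 ⟨g, hg, not_lt.1 h2⟩
  obtain ⟨u', hu', huu', hturn⟩ := exists_turn hn hF hFf hc hfix hu hv (Real.exp_pos (-s - 1)) hfar
  obtain ⟨z, hz⟩ : ∃ z, z = ray c u (s + Λ) := ⟨_, rfl⟩
  obtain ⟨z', hz'⟩ : ∃ z', z' = ray c u' (s + Λ) := ⟨_, rfl⟩
  have hzH : z ∈ Hyp n := by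
    rw [hz]
    exact ray_mem hc hu _
  have hzH' : z' ∈ Hyp n := by
    rw [hz']
    exact ray_mem hc hu' _
  have hyz : hd y z = Λ := by
    rw [hyu, hz, hd_ray hc hu, show s - (s + Λ) = -Λ by ring, abs_neg, abs_of_pos hΛ0]
  have hyz' : hd y z' ≤ Λ + 1 := by
    rw [hyu, hz']
    exact hd_close hc hu hu' hs0 hΛ0.le huu'.le
  have hcz : hd c z = s + Λ := by
    rw [hz, hd_self_ray hc hu, abs_of_nonneg (by linarith)]
  have hcz' : hd c z' = s + Λ := by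
    rw [hz', hd_self_ray hc hu', abs_of_nonneg (by linarith)]
  have Dyz : oD Γ y z = Λ := by
    apply le_antisymm
    · rw [← hyz]
      exact oD_le_hd hΓ hpd hy hzH
    · obtain ⟨g, hg, h1, -⟩ := oD_spec hΓ hpd hy hzH
      have h2 : oD Γ y z ≤ Λ := by
        rw [← hyz]
        exact oD_le_hd hΓ hpd hy hzH
      have hgF : g ∈ loc Γ ρ y := mem_loc hΓ hy hy hzH hg (by
        rw [hd_self hy, ← h1, hyz]
        linarith)
      have h3 := hd_triangle hc hy (hΓ.ac_mem hg hzH)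
      rw [hgc g hgF, hcz, ← h1, ← hs] at h3
      linarith
  have Dyz'u : oD Γ y z' ≤ Λ + 1 := (oD_le_hd hΓ hpd hy hzH').trans hyz'
  have Dyz'l : Λ ≤ oD Γ y z' := by
    obtain ⟨g, hg, h1, -⟩ := oD_spec hΓ hpd hy hzH'
    have hgF : g ∈ loc Γ ρ y := mem_loc hΓ hy hy hzH' hg (by
      rw [hd_self hy, ← h1]
      linarith)
    have h3 := hd_triangle hc hy (hΓ.ac_mem hg hzH')
    rw [hgc g hgF, hcz', ← h1, ← hs] at h3
    linarith
  have hzz' : hd z z' ≤ 2 * Λ + 1 := by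
    have h1 := hd_triangle hzH hy hzH'
    rw [hd_symm z y, hyz] at h1
    linarith
  have Dzz' : 2 * Λ - 6 ≤ oD Γ z z' := by
    obtain ⟨g, hg, h1, -⟩ := oD_spec hΓ hpd hzH hzH'
    have h2 : oD Γ z z' ≤ 2 * Λ + 1 := (oD_le_hd hΓ hpd hzH hzH').trans hzz'
    have hgF : g ∈ loc Γ ρ y := mem_loc hΓ hy hzH hzH' hg (by
      rw [← h1, hyz]
      linarith)
    have h3 : Real.exp (-s - 1) ≤ chd u (ac g u') := by
      have h4 := hturn g⁻¹ ((loc Γ ρ y).inv_mem hgF)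
      have h5 := chd_ac (hF g hgF) (ac g⁻¹ u) u'
      rw [ac_ac_inv] at h5
      rw [h5]
      exact h4
    have h4 := hd_far hc hu (UT_ac (hF g hgF) (hfix g hgF) hu') hs0 (by linarith : 1 ≤ Λ) h3
    rw [h1, hz, hz', ray_ac (hfix g hgF)]
    exact h4
  have hexp : Real.exp (-(s + Λ) - 1) ≤ Real.exp (-s - 1) / 2 := by
    have h1 : Real.exp (-(s + Λ) - 1) = Real.exp (-s - 1) * Real.exp (-Λ) := by
      rw [← Real.exp_add]
      ring_nf
    have h2 : Real.exp (-Λ) ≤ 1 / 2 := by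
      refine le_trans (Real.exp_le_exp.2 (by linarith : -Λ ≤ -2)) exp_neg_two_le
    rw [h1]
    have h3 := Real.exp_pos (-s - 1)
    nlinarith
  have hη0 := Real.exp_pos (-s - 1)
  refine ⟨z, hzH, z', hzH', ?_, ?_, by rw [Dyz]; linarith, by rw [Dyz]; linarith, by linarith, by linarith, ?_⟩
  · intro hH
    have h1 : loc Γ ρ z ≤ loc Γ ρ y := hair_loc_le hn hΓ hzH hy (hfin z hzH) hH (by
      rw [hd_symm z y, hyz]
      linarith)
    obtain ⟨g, hg, h2⟩ := hair_dense hn hΓ hc hu (by linarith : 0 < s + Λ) hz hfix h1 hH v hv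
    have h3 := hfar g hg
    linarith
  · intro hH
    have h1 : loc Γ ρ z' ≤ loc Γ ρ y := hair_loc_le hn hΓ hzH' hy (hfin z' hzH') hH (by
      rw [hd_symm z' y]
      linarith)
    have hden := hair_dense hn hΓ hc hu' (by linarith : 0 < s + Λ) hz' hfix h1 hH
    obtain ⟨h, hh, h2⟩ := hden u hu
    obtain ⟨g, hg, h3⟩ := hden v hv
    have hgh : g * h⁻¹ ∈ loc Γ ρ y := mul_mem hg (inv_mem hh)
    have h4 := hfar (g * h⁻¹) hgh
    have U1 : IsUT c (ac (g * h⁻¹) u) := UT_ac (hF _ hgh) (hfix _ hgh) hu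
    have U2 : IsUT c (ac g u') := UT_ac (hF _ hg) (hfix _ hg) hu'
    have h5 := chd_triangle hc U1 U2 hv
    have h6 : chd (ac (g * h⁻¹) u) (ac g u') = chd (ac h u') u := by
      have h7 := chd_ac (hF _ hgh) u (ac h u')
      rw [ac_mul g h⁻¹ (ac h u'), ac_inv_ac] at h7
      rw [h7, chd_comm]
    rw [h6] at h5
    linarith
  · rw [oD_symm hΓ hpd hzH hy, oD_symm hΓ hpd hzH' hy, Dyz]
    linarith

end Pool.Agent.TGS
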