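import Pool.Agent.TGS.Defs

set_option autoImplicit false
open Set Pool.Agent.TGL

namespace Pool.Agent.TGS

variable {n : ℕ}

/-- Row TGS-T1a. If `d(y, g² y) > d(y, g y) + 4` then `d(y, g^m y)` grows linearly.

Proof. Put `a m := hd y (ac (g^m) y)`, `ε := a 2 - a 1 - 4 > 0` (note `g * g = g^2`). Claim:
`a (m+1) ≥ a m + ε` for `m ≥ 1`; the statement follows by induction (`m = 0` is trivial). For `m = 1`
it is clear. Let `m ≥ 1` and `a (m+1) ≥ a m + ε`. Apply `four_point` (TGL/H7) to `x := y`,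
`y := g^2 y`, `z := g y`, `w := g^(m+2) y`:
`a 2 + hd (g y) (g^(m+2) y) ≤ max (a 1 + hd (g^2 y) (g^(m+2) y)) (a (m+2) + hd (g^2 y) (g y)) + 4`.
By invariance (`hd_ac`, `ac_mul`, powers of `g` are isometries: `IsIso.mul`; `g^(m+2) = g * g^(m+1)`,
`g^(m+2) = (g*g) * g^m`) the distances are `hd (g y) (g^(m+2) y) = a (m+1)`,
`hd (g^2 y) (g^(m+2) y) = a m`, `hd (g^2 y) (g y) = hd (g y) y = a 1` (`hd_symm`). So
`a (m+1) + ε ≤ max (a m) (a (m+2))`, and since `a m < a (m+1) + ε` we get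
`a (m+2) ≥ a (m+1) + ε`. -/
theorem growth {g : GLn n} (hg : IsIso (g : Matrix (Fin (n+1)) (Fin (n+1)) ℝ))
    {y : Fin (n+1) → ℝ} (hy : y ∈ Hyp n) (h : hd y (ac g y) + 4 < hd y (ac (g * g) y)) (m : ℕ) :
    hd y (ac g y) + m * (hd y (ac (g * g) y) - hd y (ac g y) - 4) ≤ hd y (ac (g ^ (m + 1)) y) := by
  have hpow : ∀ k : ℕ, IsIso ((g ^ k : GLn n) : Matrix (Fin (n+1)) (Fin (n+1)) ℝ) := by
    intro k
    induction k with
    | zero => rw [pow_zero, Units.val_one]; exact IsIso.one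
    | succ k ih => rw [pow_succ, Units.val_mul]; exact ih.mul hg
  have hmem : ∀ k : ℕ, ac (g ^ k) y ∈ Hyp n := fun k => ac_mem (hpow k) hy
  have hshift : ∀ i k : ℕ, hd (ac (g ^ i) y) (ac (g ^ (i + k)) y) = hd y (ac (g ^ k) y) := by
    intro i k
    rw [pow_add, ac_mul, hd_ac (hpow i)]
  have hgg : g * g = g ^ 2 := (sq g).symm
  rw [hgg] at h ⊢
  set ε := hd y (ac (g ^ 2) y) - hd y (ac g y) - 4 with hε
  have hε0 : 0 < ε := by rw [hε]; linarith
  have key : ∀ k : ℕ, hd y (ac (g ^ (k + 1)) y) + ε ≤ hd y (ac (g ^ (k + 2)) y) := by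
    intro k
    induction k with
    | zero =>
      rw [zero_add, zero_add, pow_one]
      rw [hε]
      have : 0 ≤ hd y (ac g y) := hd_nonneg hy (by simpa using hmem 1)
      linarith
    | succ k ih =>
      have f4 := four_point hy (hmem 2) (hmem 1) (hmem (k + 3))
      have e1 := hshift 1 (k + 2)
      have e2 := hshift 2 (k + 1)
      have e3 := hshift 1 1
      rw [show 1 + (k + 2) = k + 3 by ring] at e1
      rw [show 2 + (k + 1) = k + 3 by ring] at e2
      rw [show 1 + 1 = 2 by norm_num] at e3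
      rw [e1, e2, hd_symm (ac (g ^ 2) y) (ac (g ^ 1) y), e3] at f4
      rw [show k + 1 + 1 = k + 2 by ring, show k + 1 + 2 = k + 3 by ring]
      rw [show (g ^ 1 : GLn n) = g from pow_one g] at f4
      rcases le_total (hd y (ac g y) + hd y (ac (g ^ (k + 1)) y))
        (hd y (ac (g ^ (k + 3)) y) + hd y (ac g y)) with hc | hc
      · rw [max_eq_right hc] at f4
        rw [hε]; linarith
      · rw [max_eq_left hc] at f4
        exfalso
        have : hd y (ac (g ^ 2) y) = ε + hd y (ac g y) + 4 := by rw [hε]; ring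
        linarith
  induction m with
  | zero => simp
  | succ m ih =>
    have := key m
    push_cast
    have e : m + 1 + 1 = m + 2 := by ring
    rw [e]
    linarith

end Pool.Agent.TGS
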