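import Pool.Agent.TGS.T1a

set_option autoImplicit false
open Set Pool.Agent.TGL

namespace Pool.Agent.TGS

variable {n : ℕ}

/-- Row TGS-T1b. An isometry of finite order is `Ell`.

Proof. Otherwise `growth` applies at some `y`; if `g ^ N = 1`, `N ≥ 1`, then `g ^ (N + 1) = g` and
`growth` with `m = N` gives `a 1 + N ε ≤ a 1` with `ε > 0`, a contradiction. -/
theorem ell_of_finOrder {g : GLn n} (hg : IsIso (g : Matrix (Fin (n+1)) (Fin (n+1)) ℝ))
    (h : IsOfFinOrder g) : Ell g := by
  intro y hy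
  by_contra hlt
  push Not at hlt
  obtain ⟨N, hN, hgN⟩ := isOfFinOrder_iff_pow_eq_one.mp h
  have h1 := growth hg hy hlt N
  rw [pow_succ, hgN, one_mul] at h1
  have h2 : (0:ℝ) < N := by exact_mod_cast hN
  have h3 : 0 < (N : ℝ) * (hd y (ac (g * g) y) - hd y (ac g y) - 4) := mul_pos h2 (by linarith)
  linarith

end Pool.Agent.TGS
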