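import Pool.Agent.TGS.T1b

set_option autoImplicit false
open Set Pool.Agent.TGL

namespace Pool.Agent.TGS

variable {n : ℕ}

/-- Row TGS-T2a. For an `Ell` isometry, `h y` and `h⁻¹ y` leave `y` in the same direction:
`(h y | h⁻¹ y)_y ≥ d(y, h y)/2 - 2`.

Proof. `hd (h y) (h⁻¹ y) = hd (h (h y)) y = hd y (ac (h * h) y) ≤ hd y (ac h y) + 4` (apply `h`,
`hd_ac`, `ac_ac_inv`, `hd_symm`) and `hd y (h⁻¹ y) = hd (h y) y`. -/
theorem ell_gp {h : GLn n} (hh : IsIso (h : Matrix (Fin (n+1)) (Fin (n+1)) ℝ)) (he : Ell h)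
    {y : Fin (n+1) → ℝ} (hy : y ∈ Hyp n) :
    hd (ac h y) (ac h⁻¹ y) ≤ hd y (ac h y) + 4 ∧ hd y (ac h⁻¹ y) = hd y (ac h y) := by
  have hinv := IsIso.inv hh
  have e1 : hd y (ac h⁻¹ y) = hd y (ac h y) := by
    have := hd_ac hh y (ac h⁻¹ y)
    rw [ac_ac_inv] at this
    rw [← this, hd_symm]
  refine ⟨?_, e1⟩
  have h2 := he y hy
  have e2 : hd (ac h y) (ac h⁻¹ y) = hd y (ac (h * h) y) := by
    have := hd_ac hh (ac h y) (ac h⁻¹ y)
    rw [ac_ac_inv] at this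
    rw [← this, hd_symm, ac_mul]
  rw [e2]
  exact h2

end Pool.Agent.TGS
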