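import Pool.Agent.TGS.T2a

set_option autoImplicit false
open Set Pool.Agent.TGL

namespace Pool.Agent.TGS

variable {n : ℕ}

/-- Row TGS-T2b. If `g`, `h` and `h⁻¹ g` are `Ell` and `b := d(y, h y) ≤ a := d(y, g y)`, then
`(g y | h y)_y ≥ b/2 - 6`, that is `hd (g y) (h y) ≤ a + b - (b - 12) = a + 12`.

Proof. Write `[p|r] := (hd y p + hd y r - hd p r)/2` (Gromov product at `y`). By `four_point`
(see `hd_base` in TGL/F3) `min [p|r] [r|s] - 2 ≤ [p|s]` for points of `Hyp n` (careful with the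
order of the arguments of `hd`, `hd_symm`). Let `P := [g y|h y]`, `Q := [g⁻¹ y|h⁻¹ y]`,
`k := h⁻¹ * g`. Then
`hd y (k y) = hd (h y) (g y) = a + b - 2P`, `hd y (k⁻¹ y) = a + b - 2P`,
`hd (k⁻¹ y) (g⁻¹ y) = hd (g⁻¹ h y) (g⁻¹ y) = b`, `hd (k y) (h⁻¹ y) = hd (h⁻¹ g y) (h⁻¹ y) = a`,
`hd y (g⁻¹ y) = a`, `hd y (h⁻¹ y) = b`. So `[k⁻¹ y|g⁻¹ y] = a - P`, `[k y|h⁻¹ y] = b - P`, and by
`ell_gp` for `k`: `[k y|k⁻¹ y] ≥ (a + b - 2P)/2 - 2 ≥ b - P - 2`. Two applications of the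
hyperbolic inequality: `Q ≥ min (a-P) (b-P-2) (b-P) - 4 ≥ b - P - 6` (`a ≥ b`).
Also `[g y|g⁻¹ y] ≥ a/2 - 2` and `[h y|h⁻¹ y] ≥ b/2 - 2` (`ell_gp`), so
`P ≥ min (a/2 - 2) Q (b/2 - 2) - 4`. If the minimum is not `Q` then `P ≥ b/2 - 6`. If it is `Q`,
`P ≥ Q - 4 ≥ b - P - 10`, so `P ≥ b/2 - 5`. Since `2P = a + b - hd (g y) (h y)`, the claim
follows. -/
theorem pair_gp {g h : GLn n} (hg : IsIso (g : Matrix (Fin (n+1)) (Fin (n+1)) ℝ))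
    (hh : IsIso (h : Matrix (Fin (n+1)) (Fin (n+1)) ℝ)) (eg : Ell g) (eh : Ell h)
    (ek : Ell (h⁻¹ * g)) {y : Fin (n+1) → ℝ} (hy : y ∈ Hyp n)
    (hab : hd y (ac h y) ≤ hd y (ac g y)) :
    hd (ac g y) (ac h y) ≤ hd y (ac g y) + 12 := by
  have gi := IsIso.inv hg
  have hi := IsIso.inv hh
  have hk : IsIso ((h⁻¹ * g : GLn n) : Matrix (Fin (n+1)) (Fin (n+1)) ℝ) := by
    rw [Units.val_mul]; exact hi.mul hg
  have hki := IsIso.inv hk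
  have eki : (h⁻¹ * g)⁻¹ = g⁻¹ * h := by rw [mul_inv_rev, inv_inv]
  have m1 : ac g y ∈ Hyp n := ac_mem hg hy
  have m2 : ac h y ∈ Hyp n := ac_mem hh hy
  have m3 : ac g⁻¹ y ∈ Hyp n := ac_mem gi hy
  have m4 : ac h⁻¹ y ∈ Hyp n := ac_mem hi hy
  have m5 : ac (h⁻¹ * g) y ∈ Hyp n := ac_mem hk hy
  have m6 : ac (h⁻¹ * g)⁻¹ y ∈ Hyp n := ac_mem hki hy
  obtain ⟨eg1, eg2⟩ := ell_gp hg eg hy
  obtain ⟨eh1, eh2⟩ := ell_gp hh eh hy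
  obtain ⟨ek1, ek2⟩ := ell_gp hk ek hy
  -- distances
  have d1 : hd y (ac (h⁻¹ * g) y) = hd (ac h y) (ac g y) := by
    rw [← hd_ac hh y (ac (h⁻¹ * g) y), ← ac_mul, mul_inv_cancel_left]
  have d2 : hd (ac (h⁻¹ * g)⁻¹ y) (ac g⁻¹ y) = hd (ac h y) y := by
    rw [eki, ac_mul, hd_ac gi]
  have d3 : hd (ac (h⁻¹ * g) y) (ac h⁻¹ y) = hd (ac g y) y := by
    rw [ac_mul, hd_ac hi]
  have s1 := hd_symm y (ac g y)
  have s2 := hd_symm y (ac h y)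
  have s3 := hd_symm y (ac g⁻¹ y)
  have s4 := hd_symm y (ac h⁻¹ y)
  have s5 := hd_symm y (ac (h⁻¹ * g) y)
  have s6 := hd_symm y (ac (h⁻¹ * g)⁻¹ y)
  have s7 := hd_symm (ac h y) (ac g y)
  have s8 := hd_symm (ac (h⁻¹ * g)⁻¹ y) (ac g⁻¹ y)
  have s9 := hd_symm (ac (h⁻¹ * g) y) (ac (h⁻¹ * g)⁻¹ y)
  have s10 := hd_symm (ac h y) (ac h⁻¹ y)
  have c1 := hd_base hy m3 m6 m5
  have c2 := hd_base hy m3 m5 m4
  have c3 := hd_base hy m1 m3 m4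
  have c4 := hd_base hy m1 m4 m2
  have k1 := min_cases_le (sub_le_iff_le_add.mp c1)
  have k2 := min_cases_le (sub_le_iff_le_add.mp c2)
  have k3 := min_cases_le (sub_le_iff_le_add.mp c3)
  have k4 := min_cases_le (sub_le_iff_le_add.mp c4)
  rcases k1 with k1 | k1 <;> rcases k2 with k2 | k2 <;> rcases k3 with k3 | k3 <;>
    rcases k4 with k4 | k4 <;> linarith

end Pool.Agent.TGS
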