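import Pool.Agent.TGS.T1

set_option autoImplicit false
open Set Pool.Agent.TGL

namespace Pool.Agent.TGS

variable {n : ℕ}

/-- Row TGS-T3a. One step of descent. Let `g` have the largest displacement `a` at `y` among the
two elements `g, h`, `a > 93`, and let `f` be a geodesic from `y` to `g y` (so `f 0 = y`,
`f a = g y`). Then the point `y' := f 20` satisfies `d(y', h y') ≤ max (d(y, h y) - 20) 92`.

Proof. Let `b := hd y (h y) ≤ a`, `r := 20`. `hd y y' = 20`, `hd y' (g y) = a - 20`.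
Case `b < 52`: `hd y' (h y') ≤ hd y' y + b + hd (h y) (h y') = b + 40 ≤ 92`.
Case `b ≥ 52`: let `γ` be a geodesic from `y` to `h y` (`exists_geod`), `y'' := γ 20`,
`w := γ (b - 20)`. Notation `[p|r] := (hd y p + hd y r - hd p r)/2`, and
`min [p|r] [r|s] - 2 ≤ [p|s]` (four point, see `hd_base` in TGL/F3).
`[y'|g y] = 20`, `[g y|h y] ≥ b/2 - 6 ≥ 20` (`pair_gp`: `hd (g y) (h y) ≤ a + 12`),
`[h y|y''] = (b + 20 - (b - 20))/2 = 20`. Hence `[y'|y''] ≥ 20 - 4`, i.e.
`hd y' y'' = 40 - 2 [y'|y''] ≤ 8`.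
Let `v := ac h⁻¹ w`: `hd y v = hd (h y) w = 20`, `hd v (h⁻¹ y) = hd w y = b - 20`,
`hd y (h⁻¹ y) = b`, so `[v|h⁻¹ y] = 20`; `[h⁻¹ y|h y] ≥ b/2 - 2 ≥ 20` (`ell_gp`);
`[h y|g y] ≥ 20`; `[g y|y'] = 20`. Hence `[v|y'] ≥ 20 - 6`, i.e. `hd v y' ≤ 12`, so
`hd w (h y') ≤ 12` (apply `h`). Finally
`hd y' (h y') ≤ hd y' y'' + hd y'' w + hd w (h y') ≤ 8 + (b - 40) + 12 = b - 20`. -/
theorem descent_step (hn : 1 ≤ n) {g h : GLn n}
    (hg : IsIso (g : Matrix (Fin (n+1)) (Fin (n+1)) ℝ))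
    (hh : IsIso (h : Matrix (Fin (n+1)) (Fin (n+1)) ℝ)) (eg : Ell g) (eh : Ell h)
    (ek : Ell (h⁻¹ * g)) {y : Fin (n+1) → ℝ} (hy : y ∈ Hyp n)
    (hab : hd y (ac h y) ≤ hd y (ac g y)) (ha : 93 < hd y (ac g y))
    {f : ℝ → (Fin (n+1) → ℝ)} (hf0 : f 0 = y) (hf1 : f (hd y (ac g y)) = ac g y)
    (hfm : ∀ t, f t ∈ Hyp n) (hfd : ∀ s t, hd (f s) (f t) = |s - t|) :
    hd (f 20) (ac h (f 20)) ≤ max (hd y (ac h y) - 20) 92 := by
  obtain ⟨a, haa⟩ : ∃ a : ℝ, a = hd y (ac g y) := ⟨_, rfl⟩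
  obtain ⟨b, hbb⟩ : ∃ b : ℝ, b = hd y (ac h y) := ⟨_, rfl⟩
  have hpg := pair_gp hg hh eg eh ek hy hab
  have hgy : ac g y ∈ Hyp n := ac_mem hg hy
  have hhy : ac h y ∈ Hyp n := ac_mem hh hy
  have hhi : ac h⁻¹ y ∈ Hyp n := ac_mem hh.inv hy
  have hy' : f 20 ∈ Hyp n := hfm 20
  have d1 : hd y (f 20) = 20 := by
    have := hfd 0 20
    rw [hf0] at this
    rw [this]
    norm_num
  have d2 : hd (f 20) (ac g y) = a - 20 := by
    have := hfd 20 (hd y (ac g y))
    rw [hf1] at this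
    rw [this, ← haa, abs_sub_comm, abs_of_nonneg]
    rw [haa]
    linarith
  rw [← haa] at hab ha hpg
  rw [← hbb] at hab ⊢
  have hh' : ac h (f 20) ∈ Hyp n := ac_mem hh hy'
  have d3 : hd (ac h y) (ac h (f 20)) = 20 := by rw [hd_ac hh, d1]
  rcases lt_or_ge b 52 with hb | hb
  · apply le_max_of_le_right
    have t1 := hd_triangle hy' hy hh'
    have t2 := hd_triangle hy hhy hh'
    rw [hd_symm (f 20) y, d1] at t1
    rw [← hbb, d3] at t2
    linarith
  · apply le_max_of_le_left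
    obtain ⟨γ, hγ0, hγ1, hγm, hγd⟩ := exists_geod hn hy hhy
    rw [← hbb] at hγ1
    have e1 : hd y (γ 20) = 20 := by
      have := hγd 0 20
      rw [hγ0] at this
      rw [this]
      norm_num
    have e2 : hd (γ 20) (ac h y) = b - 20 := by
      have := hγd 20 b
      rw [hγ1] at this
      rw [this, abs_sub_comm, abs_of_nonneg]
      linarith
    have e3 : hd y (γ (b - 20)) = b - 20 := by
      have := hγd 0 (b - 20)
      rw [hγ0] at this
      rw [this, zero_sub, abs_neg, abs_of_nonneg]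
      linarith
    have e4 : hd (γ (b - 20)) (ac h y) = 20 := by
      have := hγd (b - 20) b
      rw [hγ1] at this
      rw [this, abs_sub_comm, show b - (b - 20) = 20 by ring]
      norm_num
    have e5 : hd (γ 20) (γ (b - 20)) = b - 40 := by
      have := hγd 20 (b - 20)
      rw [this, abs_sub_comm, show b - 20 - 20 = b - 40 by ring, abs_of_nonneg]
      linarith
    have hyp4 : ∀ {p r s : Fin (n+1) → ℝ}, p ∈ Hyp n → r ∈ Hyp n → s ∈ Hyp n → ∀ {m : ℝ},
        m ≤ hd y p + hd y r - hd p r → m ≤ hd y r + hd y s - hd r s →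
        m - 4 ≤ hd y p + hd y s - hd p s := by
      intro p r s hp hr hs m h1 h2
      have h3 := hd_base hy hp hr hs
      rw [hd_symm p y, hd_symm r y, hd_symm s y] at h3
      have h4 : m / 2 ≤ min ((hd y p + hd y r - hd p r) / 2) ((hd y r + hd y s - hd r s) / 2) :=
        le_min (by linarith) (by linarith)
      linarith
    have hy'' : γ 20 ∈ Hyp n := hγm 20
    have hw : γ (b - 20) ∈ Hyp n := hγm _
    have hv : ac h⁻¹ (γ (b - 20)) ∈ Hyp n := ac_mem hh.inv hw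
    -- y' close to y''
    have g1 : (40 : ℝ) - 4 ≤ hd y (f 20) + hd y (ac h y) - hd (f 20) (ac h y) := by
      apply hyp4 hy' hgy hhy
      · rw [d1, ← haa, d2]
        linarith
      · rw [← haa, ← hbb]
        linarith
    have g2 : (36 : ℝ) - 4 ≤ hd y (f 20) + hd y (γ 20) - hd (f 20) (γ 20) := by
      apply hyp4 hy' hhy hy''
      · linarith
      · rw [← hbb, e1, hd_symm (ac h y), e2]
        linarith
    rw [d1, e1] at g2
    -- v close to y'
    obtain ⟨l1, l2⟩ := ell_gp hh eh hy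
    rw [← hbb] at l1 l2
    have v1 : hd y (ac h⁻¹ (γ (b - 20))) = 20 := by
      have := hd_ac hh y (ac h⁻¹ (γ (b - 20)))
      rw [ac_ac_inv] at this
      rw [← this, hd_symm, e4]
    have v2 : hd (ac h⁻¹ (γ (b - 20))) (ac h⁻¹ y) = b - 20 := by
      rw [hd_ac hh.inv, hd_symm, e3]
    have g3 : (40 : ℝ) - 4 ≤ hd y (ac h⁻¹ (γ (b - 20))) + hd y (ac h y) -
        hd (ac h⁻¹ (γ (b - 20))) (ac h y) := by
      apply hyp4 hv hhi hhy
      · rw [v1, l2, v2]
        linarith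
      · rw [l2, ← hbb, hd_symm (ac h⁻¹ y)]
        linarith
    have g4 : (36 : ℝ) - 4 ≤ hd y (ac h⁻¹ (γ (b - 20))) + hd y (ac g y) -
        hd (ac h⁻¹ (γ (b - 20))) (ac g y) := by
      apply hyp4 hv hhy hgy
      · linarith
      · rw [← hbb, ← haa, hd_symm (ac h y)]
        linarith
    have g5 : (32 : ℝ) - 4 ≤ hd y (ac h⁻¹ (γ (b - 20))) + hd y (f 20) -
        hd (ac h⁻¹ (γ (b - 20))) (f 20) := by
      apply hyp4 hv hgy hy'
      · linarith
      · rw [← haa, d1, hd_symm (ac g y), d2]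
        linarith
    rw [v1, d1] at g5
    have v3 : hd (γ (b - 20)) (ac h (f 20)) = hd (ac h⁻¹ (γ (b - 20))) (f 20) := by
      have := hd_ac hh (ac h⁻¹ (γ (b - 20))) (f 20)
      rw [ac_ac_inv] at this
      exact this
    have t1 := hd_triangle hy' hy'' hh'
    have t2 := hd_triangle hy'' hw hh'
    rw [v3, e5] at t2
    linarith

end Pool.Agent.TGS
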