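import Pool.Agent.TGS.T3a

set_option autoImplicit false
open Set Pool.Agent.TGL

namespace Pool.Agent.TGS

variable {n : ℕ}

/-- Row TGS-T3b. Coarse Serre lemma: a finite set of isometries all of whose elements and all of
whose quotients `h⁻¹ g` are `Ell` moves some point by at most `93`.

Proof. Claim: for every `k : ℕ`, if some `y ∈ Hyp n` satisfies
`hd y (ac g y) ≤ 93 + 20 k` for all `g ∈ S`, then the conclusion holds. Induction on `k`; `k = 0` is
the conclusion. Step: let `y` be as given for `k + 1`; if `S` is empty take any point (`e0 n`).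
Let `g ∈ S` have the largest displacement at `y` (`Set.Finite.exists_maximal_wrt` or
`Set.exists_max_image`). If it is `≤ 93` we are done with `y`. Otherwise let `f` be a geodesic from
`y` to `g y` (`exists_geod`) and use `y' := f 20`: by `descent_step` every `h ∈ S` moves it by at
most `max (93 + 20 (k+1) - 20) 92 ≤ 93 + 20 k`. To start: `y := e0 n`, and `k` larger than the
maximal displacement (finite set). -/
theorem joint_fixed (hn : 1 ≤ n) {S : Set (GLn n)} (hS : S.Finite)
    (hiso : ∀ g ∈ S, IsIso (g : Matrix (Fin (n+1)) (Fin (n+1)) ℝ)) (hell : ∀ g ∈ S, Ell g)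
    (hquot : ∀ g ∈ S, ∀ h ∈ S, Ell (h⁻¹ * g)) :
    ∃ y ∈ Hyp n, ∀ g ∈ S, hd y (ac g y) ≤ 93 := by
  have key : ∀ k : ℕ, (∃ y ∈ Hyp n, ∀ g ∈ S, hd y (ac g y) ≤ 93 + 20 * (k : ℝ)) →
      ∃ y ∈ Hyp n, ∀ g ∈ S, hd y (ac g y) ≤ 93 := by
    intro k
    induction k with
    | zero =>
      rintro ⟨y, hy, h⟩
      refine ⟨y, hy, fun g hg => ?_⟩
      have := h g hg
      simpa using this
    | succ k ih =>
      rintro ⟨y, hy, h⟩
      rcases S.eq_empty_or_nonempty with hE | hE
      · exact ⟨y, hy, fun g hg => by rw [hE] at hg; exact absurd hg (notMem_empty g)⟩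
      obtain ⟨g, hg, hmax⟩ := Set.exists_max_image S (fun g => hd y (ac g y)) hS hE
      rcases le_or_gt (hd y (ac g y)) 93 with h93 | h93
      · exact ⟨y, hy, fun h' hh' => (hmax h' hh').trans h93⟩
      obtain ⟨f, hf0, hf1, hfm, hfd⟩ := exists_geod hn hy (ac_mem (hiso g hg) hy)
      apply ih
      refine ⟨f 20, hfm 20, fun h' hh' => ?_⟩
      have h1 := descent_step hn (hiso g hg) (hiso h' hh') (hell g hg) (hell h' hh')
        (hquot g hg h' hh') hy (hmax h' hh') h93 hf0 hf1 hfm hfd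
      have h2 := h h' hh'
      push_cast at h2
      have hk : (0 : ℝ) ≤ k := Nat.cast_nonneg k
      refine h1.trans (max_le ?_ ?_)
      · linarith
      · linarith
  obtain ⟨M, hM⟩ : ∃ M : ℝ, ∀ g ∈ S, hd (e0 n) (ac g (e0 n)) ≤ M := by
    obtain ⟨M, hM⟩ := (hS.image (fun g => hd (e0 n) (ac g (e0 n)))).bddAbove
    exact ⟨M, fun g hg => hM ⟨g, hg, rfl⟩⟩
  obtain ⟨k, hk⟩ := exists_nat_ge M
  refine key k ⟨e0 n, e0_mem, fun g hg => ?_⟩
  have h1 := hM g hg
  have hk0 : (0 : ℝ) ≤ k := Nat.cast_nonneg k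
  linarith

end Pool.Agent.TGS
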