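import Pool.Agent.TGS.T3b

set_option autoImplicit false
open Set Pool.Agent.TGL

namespace Pool.Agent.TGS

variable {n : ℕ}

/-- Row TGS-T4a. Bounded number of elements with displacement at most `c`, uniformly in the point.

Proof. `exists_codiam hΓ hco` gives `Δ`. Let `B := {g | g ∈ Γ ∧ hd (e0 n) (ac g (e0 n)) ≤ 2 Δ + c}`,
a finite set (`finite_near` in TGL/H13, read its statement; or `hpd` applied to a compact ball
`isCompact_ball`). Let `M := B.ncard`. For `y ∈ Hyp n` choose `γ ∈ Γ` with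
`hd (e0 n) (ac γ y) ≤ Δ`. The map `g ↦ γ * g * γ⁻¹` is injective and maps
`{g | g ∈ Γ ∧ hd y (ac g y) ≤ c}` into `B`: with `p := ac γ y`, `hd p (ac (γ g γ⁻¹) p) =
hd (ac γ y) (ac γ (ac g y)) = hd y (ac g y) ≤ c` and
`hd (e0) (g' e0) ≤ hd e0 p + hd p (g' p) + hd (g' p) (g' e0) ≤ 2 Δ + c`. Hence finiteness and
`ncard ≤ M` (`Set.ncard_le_ncard_of_injOn`, `Set.Finite.of_injOn`/`Set.Finite.of_finite_image`). -/
theorem uniform_count {Γ : Subgroup (GLn n)} (hΓ : IsoGrp Γ) (hpd : PrDisc Γ) (hco : Cocpt Γ)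
    (c : ℝ) : ∃ M : ℕ, ∀ y ∈ Hyp n, {g : GLn n | g ∈ Γ ∧ hd y (ac g y) ≤ c}.Finite ∧
      {g : GLn n | g ∈ Γ ∧ hd y (ac g y) ≤ c}.ncard ≤ M := by
  obtain ⟨Δ, hΔ, hcov⟩ := exists_codiam hΓ hco
  have hB := finite_near hΓ hpd (e0_mem (n := n)) (e0_mem (n := n)) (2 * Δ + c)
  refine ⟨{g : GLn n | g ∈ Γ ∧ hd (e0 n) (ac g (e0 n)) ≤ 2 * Δ + c}.ncard, fun y hy => ?_⟩
  obtain ⟨γ, hγ, hd1⟩ := hcov (e0 n) e0_mem y hy
  have hinj : Function.Injective (fun g : GLn n => γ * g * γ⁻¹) := by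
    intro g h hgh
    simpa using hgh
  have hmaps : ∀ g ∈ {g : GLn n | g ∈ Γ ∧ hd y (ac g y) ≤ c},
      (fun g : GLn n => γ * g * γ⁻¹) g ∈
        {g : GLn n | g ∈ Γ ∧ hd (e0 n) (ac g (e0 n)) ≤ 2 * Δ + c} := by
    rintro g ⟨hg, hgc⟩
    have hmem : γ * g * γ⁻¹ ∈ Γ := Γ.mul_mem (Γ.mul_mem hγ hg) (Γ.inv_mem hγ)
    refine ⟨hmem, ?_⟩
    have hp : ac γ y ∈ Hyp n := ac_mem (hΓ γ hγ) hy
    have e1 : ac (γ * g * γ⁻¹) (ac γ y) = ac γ (ac g y) := by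
      rw [← ac_mul, ← ac_mul]
      congr 1
      group
    have h1 : hd (ac γ y) (ac (γ * g * γ⁻¹) (ac γ y)) ≤ c := by
      rw [e1, hd_ac (hΓ γ hγ)]
      exact hgc
    have h2 : hd (ac (γ * g * γ⁻¹) (ac γ y)) (ac (γ * g * γ⁻¹) (e0 n)) ≤ Δ := by
      rw [hd_ac (hΓ _ hmem), hd_symm]
      exact hd1
    have hp' := ac_mem (hΓ _ hmem) hp
    have he' := ac_mem (hΓ _ hmem) (e0_mem (n := n))
    have h3 := hd_triangle (e0_mem (n := n)) hp hp'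
    have h4 := hd_triangle (e0_mem (n := n)) hp' he'
    show hd (e0 n) (ac (γ * g * γ⁻¹) (e0 n)) ≤ 2 * Δ + c
    linarith
  exact ⟨Set.Finite.of_injOn hmaps hinj.injOn hB, Set.ncard_le_ncard_of_injOn _ hmaps hinj.injOn hB⟩

end Pool.Agent.TGS
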