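import Pool.Agent.TGS.T4a

set_option autoImplicit false
open Set Pool.Agent.TGL

namespace Pool.Agent.TGS

variable {n : ℕ}

/-- Row TGS-T4b. If all elements with displacement at most `C` somewhere are `Ell`, the local groups
at scale `ρ` are finite (`2 ρ ≤ C`, `372 ≤ C`).

Proof. Let `T y := {g | g ∈ Γ ∧ hd y (ac g y) ≤ 93}` and `S := {g | g ∈ Γ ∧ hd x (ac g x) ≤ ρ}`; all
finite (`uniform_count` with `c = ρ` and `c = 93`). For `g, h ∈ S`: `h⁻¹ * g ∈ Γ` moves `x` by at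
most `2 ρ ≤ C` (`hd x (h⁻¹ g x) = hd (h x) (g x)`), so it is `Ell` by `hell`; by `joint_fixed` there is
`y₀` with `S ⊆ T y₀`. Among all `y ∈ Hyp n` with `S ⊆ T y` choose one with `(T y).ncard` maximal
(bounded by `M`: e.g. `Nat.findGreatest`, or well-foundedness of `fun y => M - (T y).ncard`).
Let `P := {p | ∃ g ∈ T y, ∃ h ∈ T y, p = g * h}` (finite: `Set.Finite.image2`). For `p, p' ∈ P` the
element `p'⁻¹ * p ∈ Γ` moves `y` by at most `4 * 93 = 372 ≤ C`, so it is `Ell`; also `p` is `Ell`. By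
`joint_fixed` there is `y'` with `P ⊆ T y'`. As `1 ∈ T y` (`ac_one`, `hd_self`), `T y ⊆ P ⊆ T y'` and
`S ⊆ T y'`, so by maximality `(T y').ncard ≤ (T y).ncard` and `T y = T y'`
(`Set.eq_of_subset_of_ncard_le`). Hence `P ⊆ T y`: `T y` is closed under multiplication, contains
`1`, and is closed under inverses (`hd y (g⁻¹ y) = hd (g y) y`). It is the carrier of a finite
subgroup containing `S`, so `loc Γ ρ x ≤` this subgroup (`Subgroup.closure_le`) is finite. -/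
theorem loc_finite_of_ell (hn : 1 ≤ n) {Γ : Subgroup (GLn n)} (hΓ : IsoGrp Γ) (hpd : PrDisc Γ)
    (hco : Cocpt Γ) {ρ C : ℝ} (hρC : 2 * ρ ≤ C) (hC : 372 ≤ C) (hρ : 0 ≤ ρ)
    (hell : ∀ g ∈ Γ, (∃ x ∈ Hyp n, hd x (ac g x) ≤ C) → Ell g) {x : Fin (n+1) → ℝ}
    (hx : x ∈ Hyp n) : Finite (loc Γ ρ x) := by
  obtain ⟨M, hM⟩ := uniform_count hΓ hpd hco 93
  have hSfin : {g : GLn n | g ∈ Γ ∧ hd x (ac g x) ≤ ρ}.Finite := by
    obtain ⟨M', hM'⟩ := uniform_count hΓ hpd hco ρ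
    exact (hM' x hx).1
  obtain ⟨S, hS⟩ : ∃ S : Set (GLn n), S = {g : GLn n | g ∈ Γ ∧ hd x (ac g x) ≤ ρ} := ⟨_, rfl⟩
  obtain ⟨T, hT⟩ : ∃ T : (Fin (n+1) → ℝ) → Set (GLn n),
      ∀ y, T y = {g : GLn n | g ∈ Γ ∧ hd y (ac g y) ≤ 93} := ⟨_, fun _ => rfl⟩
  rw [← hS] at hSfin
  -- displacement of a product / quotient
  have key : ∀ (y : Fin (n+1) → ℝ), y ∈ Hyp n → ∀ g ∈ Γ, ∀ h ∈ Γ, ∀ a b : ℝ,
      hd y (ac g y) ≤ a → hd y (ac h y) ≤ b → hd y (ac (g * h) y) ≤ a + b := by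
    intro y hy g hg h hh a b ha hb
    have h1 := hd_triangle hy (ac_mem (hΓ g hg) hy) (ac_mem (hΓ g hg) (ac_mem (hΓ h hh) hy))
    rw [hd_ac (hΓ g hg)] at h1
    rw [ac_mul]
    linarith
  have keyinv : ∀ (y : Fin (n+1) → ℝ), y ∈ Hyp n → ∀ g ∈ Γ, hd y (ac g⁻¹ y) = hd y (ac g y) := by
    intro y hy g hg
    have h1 := hd_ac (hΓ g hg) y (ac g⁻¹ y)
    rw [ac_ac_inv] at h1
    rw [← h1, hd_symm]
  have hSell : ∀ g ∈ S, Ell g := by
    intro g hg
    rw [hS] at hg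
    refine hell g hg.1 ⟨x, hx, ?_⟩
    have := hg.2
    linarith
  have hSquot : ∀ g ∈ S, ∀ h ∈ S, Ell (h⁻¹ * g) := by
    intro g hg h hh
    rw [hS] at hg hh
    refine hell _ (Γ.mul_mem (Γ.inv_mem hh.1) hg.1) ⟨x, hx, ?_⟩
    have := key x hx h⁻¹ (Γ.inv_mem hh.1) g hg.1 ρ ρ (by rw [keyinv x hx h hh.1]; exact hh.2) hg.2
    linarith
  obtain ⟨y₀, hy₀, hy₀S⟩ := joint_fixed hn hSfin
    (fun g hg => by rw [hS] at hg; exact hΓ g hg.1) hSell hSquot
  have hST0 : S ⊆ T y₀ := by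
    intro g hg
    have h1 := hy₀S g hg
    rw [hS] at hg
    rw [hT]
    exact ⟨hg.1, h1⟩
  -- choose y maximal
  have hex : ∃ k : ℕ, ∃ y ∈ Hyp n, S ⊆ T y ∧ M - (T y).ncard = k := ⟨_, y₀, hy₀, hST0, rfl⟩
  classical
  obtain ⟨y, hy, hSy, hyk⟩ := Nat.find_spec hex
  have hmin : ∀ z ∈ Hyp n, S ⊆ T z → (T z).ncard ≤ (T y).ncard := by
    intro z hz hSz
    have h1 := Nat.find_min' hex ⟨z, hz, hSz, rfl⟩
    have h2 := (hM z hz).2
    have h3 := (hM y hy).2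
    rw [← hT] at h2 h3
    omega
  have hTfin : ∀ z ∈ Hyp n, (T z).Finite := by
    intro z hz
    rw [hT]
    exact (hM z hz).1
  obtain ⟨P, hP⟩ : ∃ P : Set (GLn n), P = Set.image2 (fun g h => g * h) (T y) (T y) := ⟨_, rfl⟩
  have hPfin : P.Finite := by
    rw [hP]
    exact Set.Finite.image2 _ (hTfin y hy) (hTfin y hy)
  have hPmem : ∀ p ∈ P, p ∈ Γ ∧ hd y (ac p y) ≤ 186 := by
    intro p hp
    rw [hP] at hp
    obtain ⟨g, hg, h, hh, rfl⟩ := hp
    rw [hT] at hg hh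
    refine ⟨Γ.mul_mem hg.1 hh.1, ?_⟩
    have := key y hy g hg.1 h hh.1 93 93 hg.2 hh.2
    linarith
  obtain ⟨y', hy', hy'P⟩ := joint_fixed hn hPfin (fun p hp => hΓ p (hPmem p hp).1)
    (fun p hp => hell p (hPmem p hp).1 ⟨y, hy, by have := (hPmem p hp).2; linarith⟩)
    (by
      intro p hp p' hp'
      obtain ⟨h1, h2⟩ := hPmem p hp
      obtain ⟨h3, h4⟩ := hPmem p' hp'
      refine hell _ (Γ.mul_mem (Γ.inv_mem h3) h1) ⟨y, hy, ?_⟩
      have := key y hy p'⁻¹ (Γ.inv_mem h3) p h1 186 186 (by rw [keyinv y hy p' h3]; exact h4) h2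
      linarith)
  have hone : (1 : GLn n) ∈ T y := by
    rw [hT]
    refine ⟨Γ.one_mem, ?_⟩
    rw [ac_one, hd_self hy]
    norm_num
  have hTP : T y ⊆ P := by
    intro g hg
    rw [hP]
    exact ⟨g, hg, 1, hone, mul_one g⟩
  have hPT : P ⊆ T y' := by
    intro p hp
    rw [hT]
    exact ⟨(hPmem p hp).1, hy'P p hp⟩
  have hTT : T y = T y' := Set.eq_of_subset_of_ncard_le (hTP.trans hPT)
    (hmin y' hy' ((hSy.trans hTP).trans hPT)) (hTfin y' hy')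
  have hPT2 : P ⊆ T y := by
    rw [hTT]
    exact hPT
  let H : Subgroup (GLn n) :=
    { carrier := T y
      mul_mem' := by
        intro a b ha hb
        apply hPT2
        rw [hP]
        exact ⟨a, ha, b, hb, rfl⟩
      one_mem' := hone
      inv_mem' := by
        intro a ha
        have ha' : a ∈ T y := ha
        rw [hT] at ha'
        show a⁻¹ ∈ T y
        rw [hT]
        refine ⟨Γ.inv_mem ha'.1, ?_⟩
        rw [keyinv y hy a ha'.1]
        exact ha'.2 }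
  have hHfin : Finite H := (hTfin y hy).to_subtype
  have hle : loc Γ ρ x ≤ H := by
    unfold loc
    rw [Subgroup.closure_le]
    intro g hg
    apply hSy
    rw [hS]
    exact hg
  exact Finite.of_injective (Subgroup.inclusion hle) (Subgroup.inclusion_injective hle)

end Pool.Agent.TGS
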