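import Pool.Agent.TGS.E0
import Pool.Agent.TGS.P1

set_option autoImplicit false
open Set Pool.Agent.TGL

namespace Pool.Agent.TGS

theorem X1a_lift {A B : Type*} [Field A] [Field B] [Algebra ℚ A] [Algebra ℚ B]
    (i : A →ₐ[ℚ] B) [Algebra.IsAlgebraic ℚ B] (φ : A →+* ℂ) :
    ∃ σ : B →+* ℂ, ∀ x, σ (i x) = φ x := by
  let _ : Algebra A B := i.toRingHom.toAlgebra
  let _ : Algebra A ℂ := φ.toAlgebra
  have _ : IsScalarTower ℚ A B := IsScalarTower.of_algebraMap_eq fun x => (i.commutes x).symm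
  have _ : Algebra.IsAlgebraic A B := Algebra.IsAlgebraic.tower_top (K := ℚ) A
  let s : B →ₐ[A] ℂ := IsAlgClosed.lift
  exact ⟨s.toRingHom, fun x => s.commutes x⟩

/-- Row TGS-X1a. Extension of an embedding of a number field `L ⊆ ℝ` to all algebraic numbers.

Proof. Let `Ω := algebraicClosure ℚ ℂ` (an `IntermediateField ℚ ℂ`, algebraically closed, algebraic
over `ℚ`). Give `Ω` the `L`-algebra structure by the inclusion `L → Ω`, `x ↦ ((x : ℝ) : ℂ)` (elements
of `L` are algebraic over `ℚ`, so they lie in `Ω`), and `ℂ` the `L`-algebra structure by `φ`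
(`RingHom.toAlgebra`, as local instances, or use a ring hom version of the lifting theorem).
`Ω / L` is algebraic, so `IsAlgClosed.lift` gives an `L`-algebra hom `Ω → ℂ`; it is in particular a
`ℚ`-algebra hom (any ring hom between characteristic zero fields is: `RingHom.toRatAlgHom`), and
compatibility with `L` is the claim. (Alternative: `IsAlgClosed.surjective_restrictDomain_of_isAlgebraic`
or `IntermediateField.exists_algHom_of_splits`.) -/
theorem exists_ext (L : IntermediateField ℚ ℝ) [FiniteDimensional ℚ L] (φ : L →+* ℂ) :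
    ∃ σ : (algebraicClosure ℚ ℂ) →ₐ[ℚ] ℂ, ∀ x : L,
      ∀ hx : (((x : ℝ) : ℂ)) ∈ algebraicClosure ℚ ℂ, σ ⟨((x : ℝ) : ℂ), hx⟩ = φ x := by
  have halg : ∀ x : L, (((x : ℝ) : ℂ)) ∈ algebraicClosure ℚ ℂ := by
    intro x
    rw [mem_algebraicClosure_iff]
    have h1 : IsAlgebraic ℚ x := Algebra.IsAlgebraic.isAlgebraic x
    have h2 : IsAlgebraic ℚ (x : ℝ) := h1.algebraMap (A := ℝ)
    exact h2.algebraMap (A := ℂ)
  let i₀ : L →+* (algebraicClosure ℚ ℂ) :=
    { toFun := fun x => ⟨((x : ℝ) : ℂ), halg x⟩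
      map_one' := by ext; simp
      map_mul' := fun x y => by ext; simp
      map_zero' := by ext; simp
      map_add' := fun x y => by ext; simp }
  let i : L →ₐ[ℚ] (algebraicClosure ℚ ℂ) := RingHom.toRatAlgHom i₀
  have hal : Algebra.IsAlgebraic ℚ (algebraicClosure ℚ ℂ) := algebraicClosure.isAlgebraic _ _
  obtain ⟨σ, hσ⟩ := X1a_lift i φ
  refine ⟨RingHom.toRatAlgHom σ, fun x hx => ?_⟩
  exact hσ x

end Pool.Agent.TGS
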