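import Pool.Agent.TGS.X1a

set_option autoImplicit false
open Set Pool.Agent.TGL

namespace Pool.Agent.TGS

variable {K : IntermediateField ℚ ℝ} {N : ℕ} {μ : ℝ} {ι : Type} [Fintype ι] {l : ι → ℂ} {a : ι}
  {p : ℕ → ℝ}

/-- Row TGS-X2a. The eigenvalues are algebraic integers; in particular they lie in the algebraic
closure of `ℚ` in `ℂ`.

Proof. `integral_of_psum l` applied with `hS.psum`, `hS.integral` (cast of an integral real number to
`ℂ` is integral: `IsIntegral.map` with the ring hom `Complex.ofRealHom`/`algebraMap ℝ ℂ`). Membership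
in `algebraicClosure ℚ ℂ`: `mem_algebraicClosure_iff`, integral over `ℤ` implies algebraic over `ℚ`
(`IsIntegral.tower_top`, `IsIntegral.isAlgebraic`). -/
theorem Sal.int (hS : Sal K N μ ι l a p) (i : ι) :
    IsIntegral ℤ (l i) ∧ l i ∈ algebraicClosure ℚ ℂ := by
  have h1 : IsIntegral ℤ (l i) := by
    apply integral_of_psum l
    intro k hk
    rw [← hS.psum k hk]
    exact map_isIntegral_int Complex.ofRealHom (hS.integral k hk)
  refine ⟨h1, ?_⟩
  rw [mem_algebraicClosure_iff]
  exact (h1.tower_top (A := ℚ)).isAlgebraic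

end Pool.Agent.TGS
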