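import Pool.Agent.TGS.X2a

set_option autoImplicit false
open Set Pool.Agent.TGL

namespace Pool.Agent.TGS

variable {K : IntermediateField ℚ ℝ} {N : ℕ} {μ : ℝ} {ι : Type} [Fintype ι] {l : ι → ℂ} {a : ι}
  {p : ℕ → ℝ}

/-- Row TGS-X2b. `μ + μ⁻¹` is an algebraic integer.

Proof. `μ = (l a)^2` and `μ⁻¹ = (l j)^2` with `l j = (l a)⁻¹` are algebraic integers in `ℂ`
(`Sal.int`), so `((μ + μ⁻¹ : ℝ) : ℂ)` is; `ofReal` is injective:
`isIntegral_algebraMap_iff` (algebraMap ℝ ℂ injective). -/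
theorem Sal.int_tau (hS : Sal K N μ ι l a p) : IsIntegral ℤ (μ + μ⁻¹) := by
  obtain ⟨j, hj⟩ := hS.inv a
  have h1 := (hS.int a).1
  have h2 := (hS.int j).1
  have h3 : IsIntegral ℤ (((μ + μ⁻¹ : ℝ)) : ℂ) := by
    have e : (((μ + μ⁻¹ : ℝ)) : ℂ) = l a ^ 2 + l j ^ 2 := by
      push_cast
      rw [hS.sq, hj, inv_pow]
    rw [e]
    exact (h1.pow 2).add (h2.pow 2)
  exact (isIntegral_algebraMap_iff (R := ℤ) (A := ℝ) (B := ℂ) Complex.ofReal_injective).mp h3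

end Pool.Agent.TGS
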