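import Pool.Agent.TGS.X2b

set_option autoImplicit false
open Set Pool.Agent.TGL

namespace Pool.Agent.TGS

variable {K : IntermediateField ℚ ℝ} {N : ℕ} {μ : ℝ} {ι : Type} [Fintype ι] {l : ι → ℂ} {a : ι}
  {p : ℕ → ℝ}

/-- Row TGS-X2c. Values of `μ + μ⁻¹` under an embedding `σ` of the algebraic numbers.

Proof. Write `λ i := (⟨l i, _⟩ : Ω)` and `x i := σ (λ i)`, `Ω := algebraicClosure ℚ ℂ`. Then
`∑ i, x i ^ k = σ P_k` with `P_k := ⟨((p k : ℝ) : ℂ), _⟩ ∈ Ω` (`map_sum`, `map_pow`), `x i ≠ 0`, and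
`x` is closed under inversion (`map_inv₀`). `t := ⟨((μ+μ⁻¹ : ℝ) : ℂ), _⟩ = λ a ^ 2 + (λ a ^ 2)⁻¹`, so
`σ t = x a ^ 2 + (x a ^ 2)⁻¹`.
(A) Suppose `σ` moves some element of `K`. Let `σK : K →+* ℂ` be the restriction. For `k ≥ 1` let
`y : K` with `(y : ℝ) = p k ^ 2` (`hS.mem`); `‖σ P_k‖² = ‖σK y‖ ≤ N²` (`hS.bound`), so
`‖∑ x i ^ k‖ ≤ N`, and `norm_le_one_of_psum` gives `‖x i‖ ≤ 1` for all `i`; since
`(x a)⁻¹ = x j`, also `‖x a‖ ≥ 1`, so `‖x a‖ = 1`; take `z := x a ^ 2`.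
(B) Suppose `σ` is the identity on `K`. Then `(σ P_k)^2 = σ (P_k^2) = p k ^2` for `k ≥ 1`, so
`(∑ x i ^ k)^2 = (∑ l i ^ k)^2`, and `sign_family` gives `j` with `(x a)^2 = (l j)^2`, hence
`σ t = l j ^ 2 + (l j ^ 2)⁻¹`. If `‖l j‖ > 1` then `l j = l a` (`hS.uniq`) and `σ t = μ + μ⁻¹`; if
`‖l j‖ < 1` then `(l j)⁻¹ = l i` for some `i` with `‖l i‖ > 1`, so `l i = l a` and again
`σ t = μ⁻¹ + μ`; if `‖l j‖ = 1` take `z := l j ^ 2`. -/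
theorem Sal.values (hS : Sal K N μ ι l a p) (σ : (algebraicClosure ℚ ℂ) →ₐ[ℚ] ℂ)
    (ht : ((μ + μ⁻¹ : ℝ) : ℂ) ∈ algebraicClosure ℚ ℂ)
    (hKm : ∀ x : K, ((x : ℝ) : ℂ) ∈ algebraicClosure ℚ ℂ) :
    ((∃ x : K, σ ⟨((x : ℝ) : ℂ), hKm x⟩ ≠ ((x : ℝ) : ℂ)) →
      ∃ z : ℂ, ‖z‖ = 1 ∧ σ ⟨_, ht⟩ = z + z⁻¹) ∧
    ((∀ x : K, σ ⟨((x : ℝ) : ℂ), hKm x⟩ = ((x : ℝ) : ℂ)) →
      (∃ j, σ ⟨_, ht⟩ = l j ^ 2 + (l j ^ 2)⁻¹) ∧
      (σ ⟨_, ht⟩ = ((μ + μ⁻¹ : ℝ) : ℂ) ∨ ∃ z : ℂ, ‖z‖ = 1 ∧ σ ⟨_, ht⟩ = z + z⁻¹)) := by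
  -- the elements `λ i` of the algebraic closure
  let lam : ι → (algebraicClosure ℚ ℂ) := fun i => ⟨l i, (hS.int i).2⟩
  have lam_coe : ∀ i, ((lam i : (algebraicClosure ℚ ℂ)) : ℂ) = l i := fun _ => rfl
  let x : ι → ℂ := fun i => σ (lam i)
  have hinj : Function.Injective σ := σ.toRingHom.injective
  have lam0 : ∀ i, lam i ≠ 0 := by
    intro i h
    apply hS.ne_zero i
    rw [← lam_coe i, h]
    rfl
  have x0 : ∀ i, x i ≠ 0 := by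
    intro i h
    apply lam0 i
    apply hinj
    rw [map_zero]
    exact h
  have lamInv : ∀ i, ∃ j, lam j = (lam i)⁻¹ := by
    intro i
    obtain ⟨j, hj⟩ := hS.inv i
    refine ⟨j, ?_⟩
    apply Subtype.ext
    exact hj
  have xinv : ∀ i, ∃ j, x j = (x i)⁻¹ := by
    intro i
    obtain ⟨j, hj⟩ := lamInv i
    refine ⟨j, ?_⟩
    show σ (lam j) = (σ (lam i))⁻¹
    rw [hj, map_inv₀]
  have hP : ∀ k : ℕ, ∑ i, x i ^ k = σ (∑ i, lam i ^ k) := by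
    intro k
    rw [map_sum]
    apply Finset.sum_congr rfl
    intro i _
    rw [map_pow]
  have hPc : ∀ k : ℕ, 1 ≤ k → (((∑ i, lam i ^ k : (algebraicClosure ℚ ℂ))) : ℂ) = ((p k : ℝ) : ℂ) := by
    intro k hk
    rw [hS.psum k hk]
    push_cast
    rfl
  have ht2 : (⟨((μ + μ⁻¹ : ℝ) : ℂ), ht⟩ : (algebraicClosure ℚ ℂ)) = lam a ^ 2 + (lam a ^ 2)⁻¹ := by
    apply Subtype.ext
    show ((μ + μ⁻¹ : ℝ) : ℂ) = l a ^ 2 + (l a ^ 2)⁻¹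
    push_cast
    rw [hS.sq]
  have hσt : σ ⟨((μ + μ⁻¹ : ℝ) : ℂ), ht⟩ = x a ^ 2 + (x a ^ 2)⁻¹ := by
    rw [ht2, map_add, map_inv₀, map_pow]
  have hy : ∀ k : ℕ, ∀ hk : 1 ≤ k, σ ⟨((((⟨p k ^ 2, hS.mem k hk⟩ : K) : ℝ)) : ℂ), hKm _⟩ =
      (∑ i, x i ^ k) ^ 2 := by
    intro k hk
    rw [hP, ← map_pow]
    congr 1
    apply Subtype.ext
    show (((p k ^ 2 : ℝ)) : ℂ) = (((∑ i, lam i ^ k : (algebraicClosure ℚ ℂ)) ^ 2 :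
      (algebraicClosure ℚ ℂ)) : ℂ)
    have h1 := hPc k hk
    rw [show ((((∑ i, lam i ^ k : (algebraicClosure ℚ ℂ)) ^ 2 :
      (algebraicClosure ℚ ℂ)) : ℂ)) = (((∑ i, lam i ^ k : (algebraicClosure ℚ ℂ))) : ℂ) ^ 2 from rfl,
      h1]
    push_cast
    rfl
  constructor
  · rintro ⟨x₁, hx₁⟩
    let σK : K →+* ℂ :=
      { toFun := fun y => σ ⟨((y : ℝ) : ℂ), hKm y⟩
        map_one' := by
          rw [← map_one σ]; congr 1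
        map_mul' := fun y z => by
          rw [← map_mul σ]; congr 1; apply Subtype.ext
          show (((y * z : K) : ℝ) : ℂ) = ((y : ℝ) : ℂ) * ((z : ℝ) : ℂ)
          push_cast; rfl
        map_zero' := by
          rw [← map_zero σ]; congr 1
        map_add' := fun y z => by
          rw [← map_add σ]; congr 1; apply Subtype.ext
          show (((y + z : K) : ℝ) : ℂ) = ((y : ℝ) : ℂ) + ((z : ℝ) : ℂ)
          push_cast; rfl }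
    have hle : ∀ k : ℕ, 1 ≤ k → ‖∑ i, x i ^ k‖ ≤ N := by
      intro k hk
      have h1 : ‖σK ⟨p k ^ 2, hS.mem k hk⟩‖ ≤ (N : ℝ) ^ 2 :=
        hS.bound σK ⟨x₁, hx₁⟩ k hk ⟨p k ^ 2, hS.mem k hk⟩ rfl
      have h2 : σK ⟨p k ^ 2, hS.mem k hk⟩ = (∑ i, x i ^ k) ^ 2 := hy k hk
      rw [h2, norm_pow] at h1
      exact (sq_le_sq₀ (norm_nonneg _) (Nat.cast_nonneg N)).mp h1
    have hone : ∀ i, ‖x i‖ ≤ 1 := norm_le_one_of_psum x N hle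
    have hge : 1 ≤ ‖x a‖ := by
      obtain ⟨j, hj⟩ := xinv a
      have h1 := hone j
      rw [hj, norm_inv] at h1
      exact (inv_le_one₀ (norm_pos_iff.mpr (x0 a))).mp h1
    have he : ‖x a‖ = 1 := le_antisymm (hone a) hge
    refine ⟨x a ^ 2, ?_, hσt⟩
    rw [norm_pow, he, one_pow]
  · intro hid
    have hp2 : ∀ k : ℕ, 1 ≤ k → (∑ i, x i ^ k) ^ 2 = (∑ i, l i ^ k) ^ 2 := by
      intro k hk
      rw [← hy k hk, hid, ← hS.psum k hk]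
      push_cast
      rfl
    obtain ⟨j, hj⟩ := sign_family l x a hS.big hS.ne_zero hS.inv hS.uniq x0 xinv hp2 a
    have hσj : σ ⟨((μ + μ⁻¹ : ℝ) : ℂ), ht⟩ = l j ^ 2 + (l j ^ 2)⁻¹ := by
      rw [hσt, hj]
    refine ⟨⟨j, hσj⟩, ?_⟩
    have hμ : ((μ + μ⁻¹ : ℝ) : ℂ) = l a ^ 2 + (l a ^ 2)⁻¹ := by
      push_cast
      rw [hS.sq]
    rcases lt_trichotomy ‖l j‖ 1 with h | h | h
    · left
      obtain ⟨i, hi⟩ := hS.inv j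
      have h1 : 1 < ‖l i‖ := by
        rw [hi, norm_inv]
        exact (one_lt_inv₀ (norm_pos_iff.mpr (hS.ne_zero j))).mpr h
      have h2 : l a = (l j)⁻¹ := by rw [← hS.uniq i h1, hi]
      rw [hσj, hμ, h2, inv_pow, inv_inv, add_comm]
    · right
      refine ⟨l j ^ 2, ?_, hσj⟩
      rw [norm_pow, h, one_pow]
    · left
      rw [hσj, hμ, hS.uniq j h]

end Pool.Agent.TGS
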