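import Pool.Agent.TGS.X2c

set_option autoImplicit false
open Set Pool.Agent.TGL

namespace Pool.Agent.TGS

variable {K : IntermediateField ℚ ℝ} {N : ℕ} {μ : ℝ} {ι : Type} [Fintype ι] {l : ι → ℂ} {a : ι}
  {p : ℕ → ℝ}

/-- Row TGS-X3. The same for embeddings of `L = K(τ)`, `τ = μ + μ⁻¹`.

Proof. `L` is finite dimensional over `ℚ` (`τ` is integral, `IntermediateField.adjoin.finiteDimensional`,
`FiniteDimensional.trans ℚ K L`). View `L` as the intermediate field `L' := L.restrictScalars ℚ` of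
`ℝ/ℚ` (same elements) and `φ` as a ring hom on `L'`; `exists_ext` gives `σ` extending `φ`; apply
`Sal.values`. The finite set: `S := Finset.univ.image (fun j => l j ^ 2 + (l j ^ 2)⁻¹)`, of
cardinality at most `Fintype.card ι = N` (`Finset.card_image_le`, `hS.card`). -/
theorem Sal.emb [FiniteDimensional ℚ K] (hS : Sal K N μ ι l a p) {τ : ℝ} (hτ : τ = μ + μ⁻¹) :
    (∀ φ : Lf K τ →+* ℂ, (∃ x : K, φ (algebraMap K (Lf K τ) x) ≠ ((x : ℝ) : ℂ)) →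
      ∃ z : ℂ, ‖z‖ = 1 ∧ φ (gn K τ) = z + z⁻¹) ∧
    ∃ S : Finset ℂ, S.card ≤ N ∧ ∀ φ : Lf K τ →+* ℂ,
      (∀ x : K, φ (algebraMap K (Lf K τ) x) = ((x : ℝ) : ℂ)) →
        φ (gn K τ) ∈ S ∧ (φ (gn K τ) = (τ : ℂ) ∨ ∃ z : ℂ, ‖z‖ = 1 ∧ φ (gn K τ) = z + z⁻¹) := by
  classical
  subst hτ
  have hint : IsIntegral ℤ (μ + μ⁻¹) := hS.int_tau
  have hintK : IsIntegral K (μ + μ⁻¹) := hint.tower_top
  have hfin1 : FiniteDimensional K (Lf K (μ + μ⁻¹)) :=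
    IntermediateField.adjoin.finiteDimensional hintK
  have hfin2 : FiniteDimensional ℚ (Lf K (μ + μ⁻¹)) :=
    FiniteDimensional.trans ℚ K (Lf K (μ + μ⁻¹))
  have hfin3 : FiniteDimensional ℚ ((Lf K (μ + μ⁻¹)).restrictScalars ℚ) := hfin2
  have halg : ∀ x : ℝ, x ∈ Lf K (μ + μ⁻¹) → ((x : ℝ) : ℂ) ∈ algebraicClosure ℚ ℂ := by
    intro x hx
    rw [mem_algebraicClosure_iff]
    have h1 : IsAlgebraic ℚ (⟨x, hx⟩ : (Lf K (μ + μ⁻¹)).restrictScalars ℚ) :=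
      Algebra.IsAlgebraic.isAlgebraic _
    have h2 : IsAlgebraic ℚ x :=
      h1.algHom ((Lf K (μ + μ⁻¹)).restrictScalars ℚ).val
    exact h2.algHom (Complex.ofRealAm.restrictScalars ℚ)
  have hKL : ∀ x : K, (x : ℝ) ∈ Lf K (μ + μ⁻¹) := fun x =>
    (algebraMap K (Lf K (μ + μ⁻¹)) x).2
  have hKm : ∀ x : K, ((x : ℝ) : ℂ) ∈ algebraicClosure ℚ ℂ := fun x => halg _ (hKL x)
  have ht : ((μ + μ⁻¹ : ℝ) : ℂ) ∈ algebraicClosure ℚ ℂ := halg _ (gn K (μ + μ⁻¹)).2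
  have hext : ∀ φ : Lf K (μ + μ⁻¹) →+* ℂ, ∃ σ : (algebraicClosure ℚ ℂ) →ₐ[ℚ] ℂ,
      (∀ x : K, σ ⟨((x : ℝ) : ℂ), hKm x⟩ = φ (algebraMap K (Lf K (μ + μ⁻¹)) x)) ∧
      σ ⟨_, ht⟩ = φ (gn K (μ + μ⁻¹)) := by
    intro φ
    obtain ⟨σ, hσ⟩ := exists_ext ((Lf K (μ + μ⁻¹)).restrictScalars ℚ)
      (φ : ((Lf K (μ + μ⁻¹)).restrictScalars ℚ) →+* ℂ)
    refine ⟨σ, fun x => ?_, ?_⟩
    · exact hσ ⟨(x : ℝ), hKL x⟩ (hKm x)
    · exact hσ ⟨μ + μ⁻¹, (gn K (μ + μ⁻¹)).2⟩ ht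
  constructor
  · rintro φ ⟨x, hx⟩
    obtain ⟨σ, h1, h2⟩ := hext φ
    rw [← h2]
    refine (Sal.values hS σ ht hKm).1 ⟨x, ?_⟩
    rw [h1]
    exact hx
  · refine ⟨Finset.univ.image (fun j => l j ^ 2 + (l j ^ 2)⁻¹), ?_, ?_⟩
    · refine Finset.card_image_le.trans ?_
      rw [Finset.card_univ, hS.card]
    · intro φ hφ
      obtain ⟨σ, h1, h2⟩ := hext φ
      obtain ⟨⟨j, hj⟩, h4⟩ := (Sal.values hS σ ht hKm).2 (fun x => by rw [h1]; exact hφ x)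
      rw [← h2]
      refine ⟨?_, h4⟩
      rw [Finset.mem_image]
      exact ⟨j, Finset.mem_univ j, hj.symm⟩

end Pool.Agent.TGS
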