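import Pool.Agent.TGS.E1
import Pool.Agent.TGS.X1

set_option autoImplicit false
open Set Pool.Agent.TGL

namespace Pool.Agent.TGS

variable {n : ℕ}

/-- The data attached to a hyperbolic element of an arithmetic group. -/
theorem exists_sal {Γ : Subgroup (GLn n)} (hΓ : IsoGrp Γ) {K : IntermediateField ℚ ℝ}
    (hA : ArithOver Γ K) {g : GLn n} (hg : g ∈ Γ) (he : ¬ Ell g) {x : Fin (n+1) → ℝ}
    (hx : x ∈ Hyp n) {C : ℝ} (hC : hd x (ac g x) ≤ C) :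
    ∃ (ι : Type) (_ : Fintype ι) (l : ι → ℂ) (a : ι) (p : ℕ → ℝ) (μ : ℝ),
      Sal K (n+1) μ ι l a p ∧ μ ≤ Real.exp (2 * C) := by
  obtain ⟨ι, hι, l, hcard, hpow, hE, hsurj⟩ := eig_family g
  obtain ⟨c, hc, hc1⟩ := eig_big (hΓ g hg) he
  obtain ⟨a, ha⟩ := hsurj c hc
  have hreal : starRingEnd ℂ c = c :=
    eig_unique (hΓ g hg) (eig_conj hc) hc (by rwa [Complex.norm_conj]) hc1
  obtain ⟨r, hr⟩ : ∃ r : ℝ, c = (r : ℂ) := ⟨c.re, (Complex.conj_eq_iff_re.mp hreal).symm⟩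
  have hnr : ‖c‖ = |r| := by rw [hr, Complex.norm_real, Real.norm_eq_abs]
  refine ⟨ι, hι, l, a, fun k => tr (g ^ k), r ^ 2, ⟨hcard, fun k _ => hpow k, ?_, ?_, ?_, ?_, ?_, ?_,
    ?_, ?_, ?_⟩, ?_⟩
  · intro k _
    exact hA.integral _ (Γ.pow_mem hg k)
  · intro k _
    rw [← hA.field]
    exact IntermediateField.subset_adjoin _ _ ⟨g ^ k, Γ.pow_mem hg k, rfl⟩
  · intro σ hσ k _ y hy
    have := hA.bounded σ hσ (g ^ k) (Γ.pow_mem hg k) y hy
    push_cast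
    exact this
  · intro i
    exact (eig_inv (hΓ g hg) (hE i)).1
  · intro i
    exact hsurj _ (eig_inv (hΓ g hg) (hE i)).2
  · rw [ha]; exact hc1
  · intro i hi
    exact eig_unique (hΓ g hg) (hE i) (hE a) hi (by rw [ha]; exact hc1)
  · rw [ha, hr]; push_cast; ring
  · rw [← sq_abs, ← hnr]
    nlinarith
  · rw [← sq_abs, ← hnr]
    have h1 := eig_le (hΓ g hg) hx hc
    have h2 : ‖c‖ ≤ Real.exp C := h1.trans (Real.exp_le_exp.mpr hC)
    calc ‖c‖ ^ 2 ≤ Real.exp C ^ 2 := by gcongr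
      _ = Real.exp (2 * C) := by rw [← Real.exp_nat_mul]; norm_num

end Pool.Agent.TGS
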